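import Pool.Agent.V7H70.Fml.Param

/-!
# The lower bound for networks with little sharing
-/

set_option autoImplicit false

namespace Pool.Agent.V7H70.Fml

open Filter Finset H568R2 Pool.Agent.H676

theorem main_net (δ : ℝ) (hδ : 0 < δ) : ∀ᶠ n : ℕ in atTop,
    ∀ (k : ℕ) (N : Net {p : Fin n × Fin n // p.1 < p.2}), 1 ≤ k → (k : ℝ) ≤ (n : ℝ) ^ (1 - δ) →
      (∀ j, Junta k (N.fn j)) → (∀ x, N.Accepts x ↔ Ham.HamP n x) →
      ((N.guessWires + N.excess : ℕ) : ℝ) ≤ (n : ℝ) ^ (2 - δ) →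
      (n : ℝ) ^ (5 - δ) / (k : ℝ) ^ 3 ≤ N.inpWires := by
  obtain ⟨p, hp⟩ : ∃ p : ℕ, p = ⌈15 / δ⌉₊ := ⟨_, rfl⟩
  have hpδ : 15 / δ ≤ p := by rw [hp]; exact Nat.le_ceil _
  have hm0 : (0 : ℝ) < (p : ℝ) + 10 := by positivity
  have hmδ : 15 / ((p : ℝ) + 10) ≤ δ := by
    rw [div_le_iff₀ hm0]
    rw [div_le_iff₀ hδ] at hpδ
    nlinarith
  have ht : Tendsto (fun n : ℕ => (n : ℝ) ^ (1 / ((p : ℝ) + 10))) atTop atTop :=
    (tendsto_rpow_atTop (by positivity)).comp tendsto_natCast_atTop_atTop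
  filter_upwards [ht.eventually (fin_net p), eventually_ge_atTop 1] with n hfin hn1 k N hk1 hk hN
    hham hE
  have hnR : (1 : ℝ) ≤ n := by exact_mod_cast hn1
  have hn0 : (0 : ℝ) ≤ n := by linarith
  have key : ∀ j : ℕ, ((n : ℝ) ^ (1 / ((p : ℝ) + 10))) ^ j = (n : ℝ) ^ ((j : ℝ) / (p + 10)) := by
    intro j
    rw [← Real.rpow_natCast, ← Real.rpow_mul hn0]
    congr 1
    ring
  have h := hfin n k N
  rw [key, key, key, key] at h
  have e1 : (n : ℝ) ^ (((p + 10 : ℕ) : ℝ) / (p + 10)) = n := by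
    have : (((p + 10 : ℕ) : ℝ) / ((p : ℝ) + 10)) = 1 := by
      push_cast
      exact div_self hm0.ne'
    rw [this, Real.rpow_one]
  rw [e1] at h
  have e2 : 1 - δ ≤ ((p + 5 : ℕ) : ℝ) / (p + 10) := by
    have : ((p + 5 : ℕ) : ℝ) / (p + 10) = 1 - 5 / ((p : ℝ) + 10) := by
      push_cast
      field_simp
      ring
    rw [this]
    have h5 : 5 / ((p : ℝ) + 10) ≤ 15 / ((p : ℝ) + 10) := by gcongr; norm_num
    linarith
  have e3 : 2 - δ ≤ ((2 * p + 14 : ℕ) : ℝ) / (p + 10) := by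
    have : ((2 * p + 14 : ℕ) : ℝ) / (p + 10) = 2 - 6 / ((p : ℝ) + 10) := by
      push_cast
      field_simp
      ring
    rw [this]
    have h5 : 6 / ((p : ℝ) + 10) ≤ 15 / ((p : ℝ) + 10) := by gcongr; norm_num
    linarith
  have e4 : 5 - δ ≤ ((5 * p + 35 : ℕ) : ℝ) / (p + 10) := by
    have : ((5 * p + 35 : ℕ) : ℝ) / (p + 10) = 5 - 15 / ((p : ℝ) + 10) := by
      push_cast
      field_simp
      ring
    rw [this]
    linarith
  have h2 := h rfl hk1 (hk.trans (Real.rpow_le_rpow_of_exponent_le hnR e2)) hN hham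
    (hE.trans (Real.rpow_le_rpow_of_exponent_le hnR e3))
  refine le_trans ?_ h2
  have := Real.rpow_le_rpow_of_exponent_le hnR e4
  gcongr

end Pool.Agent.V7H70.Fml
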