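import Mathlib

/-!
# Nondeterministic NAND networks: definitions
-/

set_option autoImplicit false

namespace Pool.Agent.V7H70.Fml

/-- What a wire can come from: an input function, a guess bit or a gate. -/
inductive Src (J Z : Type) (s : ℕ) : Type
  | inp (j : J) : Src J Z s
  | guess (i : Z) : Src J Z s
  | gate (g : Fin s) : Src J Z s

/-- A network of `s` NAND gates of arbitrary fan-in over the input bits `ι`.  Its inputs are
functions `fn j` of the input bits and guess bits `Z`.  The list `src g` contains the sources of the
wires into gate `g`; wires lead from gates with smaller numbers to gates with larger numbers. -/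
structure Net (ι : Type) : Type 1 where
  J : Type
  fn : J → (ι → Bool) → Bool
  Z : Type
  s : ℕ
  src : Fin s → List (Src J Z s)
  acyclic : ∀ g j, Src.gate j ∈ src g → j < g
  out : Fin s

variable {ι : Type}

/-- the value of a source, given the input bits, the guess bits and the values of the gates -/
def Net.value (N : Net ι) (x : ι → Bool) (z : N.Z → Bool) (v : Fin N.s → Bool) :
    Src N.J N.Z N.s → Bool
  | .inp j => N.fn j x
  | .guess i => z i
  | .gate g => v g

/-- The network accepts `x` if for some values of the guess bits the output gate gets the value
true, where every gate has the value false if and only if all its sources have the value true. -/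
def Net.Accepts (N : Net ι) (x : ι → Bool) : Prop :=
  ∃ (z : N.Z → Bool) (v : Fin N.s → Bool),
    (∀ g, v g = !((N.src g).all fun w => N.value x z v w)) ∧ v N.out = true

/-- does a wire come from an input function -/
def Src.isInp {J Z : Type} {s : ℕ} : Src J Z s → Bool
  | .inp _ => true
  | _ => false

/-- does a wire come from a guess bit -/
def Src.isGuess {J Z : Type} {s : ℕ} : Src J Z s → Bool
  | .guess _ => true
  | _ => false

/-- does a wire come from the gate `j` -/
def Src.isGate {J Z : Type} {s : ℕ} (j : Fin s) : Src J Z s → Bool
  | .gate g => decide (g = j)
  | _ => false

/-- the number of wires that come from input functions -/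
def Net.inpWires (N : Net ι) : ℕ := ∑ g, (N.src g).countP Src.isInp

/-- the number of wires that come from guess bits -/
def Net.guessWires (N : Net ι) : ℕ := ∑ g, (N.src g).countP Src.isGuess

/-- the fan-out of a gate -/
def Net.fanout (N : Net ι) (j : Fin N.s) : ℕ := ∑ g, (N.src g).countP (Src.isGate j)

/-- The excess fan-out `∑ max (fan-out - 1, 0)`; it is zero when the gates form a formula. -/
def Net.excess (N : Net ι) : ℕ := ∑ j, (N.fanout j - 1)

end Pool.Agent.V7H70.Fml
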