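import Mathlib

/-!
# Formulas with local leaves: definitions
-/

set_option autoImplicit false

namespace Pool.Agent.V7H70.Fml

/-- Formulas with NOT, AND and OR gates. A leaf computes an arbitrary function `f` of the variables
in the set `s`. -/
inductive Formula (ι : Type) : Type
  | leaf (s : Finset ι) (f : (ι → Bool) → Bool)
      (h : ∀ x y : ι → Bool, (∀ i ∈ s, x i = y i) → f x = f y) : Formula ι
  | not (F : Formula ι) : Formula ι
  | and (F G : Formula ι) : Formula ι
  | or (F G : Formula ι) : Formula ι

/-- the value of a formula -/
def Formula.eval {ι : Type} : Formula ι → (ι → Bool) → Bool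
  | .leaf _ f _, x => f x
  | .not F, x => !F.eval x
  | .and F G, x => F.eval x && G.eval x
  | .or F G, x => F.eval x || G.eval x

/-- the number of leaves -/
def Formula.leaves {ι : Type} : Formula ι → ℕ
  | .leaf _ _ _ => 1
  | .not F => F.leaves
  | .and F G => F.leaves + G.leaves
  | .or F G => F.leaves + G.leaves

/-- every leaf reads at most `k` variables -/
def Formula.Local {ι : Type} (k : ℕ) : Formula ι → Prop
  | .leaf s _ _ => s.card ≤ k
  | .not F => F.Local k
  | .and F G => F.Local k ∧ G.Local k
  | .or F G => F.Local k ∧ G.Local k

end Pool.Agent.V7H70.Fml
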