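import Pool.Agent.H676.Shrink
import Pool.Agent.V7H70.Fml.Defs

/-!
# Formulas: decomposition into small pieces, shrinkage, counting
-/

set_option autoImplicit false

namespace Pool.Agent.V7H70.Fml

open Finset H568R2 Pool.Agent.H676

/-- `f` is computed by a formula of AND and OR gates with exactly `s` leaves, which compute
functions of at most `k` variables. -/
inductive FP {V : Type} (k : ℕ) : ℕ → ((V → Bool) → Bool) → Prop
  | leaf {f : (V → Bool) → Bool} (h : Junta k f) : FP k 1 f
  | and {s t : ℕ} {f g : (V → Bool) → Bool} : FP k s f → FP k t g →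
      FP k (s + t) (fun x => f x && g x)
  | or {s t : ℕ} {f g : (V → Bool) → Bool} : FP k s f → FP k t g →
      FP k (s + t) (fun x => f x || g x)

/-- the same, with at most `s` leaves, or constant -/
def FC {V : Type} (k s : ℕ) (f : (V → Bool) → Bool) : Prop :=
  (∃ b, f = fun _ => b) ∨ ∃ t, t ≤ s ∧ FP k t f

section

variable {V : Type} {k s t : ℕ} {f g : (V → Bool) → Bool}

theorem FP.pos (h : FP k s f) : 1 ≤ s := by
  induction h with
  | leaf _ => exact le_rfl
  | and _ _ ih1 ih2 => omega
  | or _ _ ih1 ih2 => omega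

theorem FC.mono (h : FC k s f) (hst : s ≤ t) : FC k t f := by
  rcases h with h | ⟨r, h1, h2⟩
  · exact Or.inl h
  · exact Or.inr ⟨r, h1.trans hst, h2⟩

theorem FC.const (b : Bool) : FC (V := V) k s (fun _ => b) := Or.inl ⟨b, rfl⟩

theorem FC.and (hf : FC k s f) (hg : FC k t g) : FC k (s + t) (fun x => f x && g x) := by
  rcases hf with ⟨b, rfl⟩ | ⟨a, h1, h2⟩
  · cases b
    · left; exact ⟨false, by funext x; simp⟩
    · have : (fun x => (fun _ : V → Bool => true) x && g x) = g := by funext x; simp
      rw [this]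
      exact hg.mono (by omega)
  · rcases hg with ⟨b, rfl⟩ | ⟨c, h3, h4⟩
    · cases b
      · left; exact ⟨false, by funext x; simp⟩
      · have : (fun x => f x && (fun _ : V → Bool => true) x) = f := by funext x; simp
        rw [this]
        exact Or.inr ⟨a, by omega, h2⟩
    · exact Or.inr ⟨a + c, by omega, FP.and h2 h4⟩

theorem FC.or (hf : FC k s f) (hg : FC k t g) : FC k (s + t) (fun x => f x || g x) := by
  rcases hf with ⟨b, rfl⟩ | ⟨a, h1, h2⟩
  · cases b
    · have : (fun x => (fun _ : V → Bool => false) x || g x) = g := by funext x; simp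
      rw [this]
      exact hg.mono (by omega)
    · left; exact ⟨true, by funext x; simp⟩
  · rcases hg with ⟨b, rfl⟩ | ⟨c, h3, h4⟩
    · cases b
      · have : (fun x => f x || (fun _ : V → Bool => false) x) = f := by funext x; simp
        rw [this]
        exact Or.inr ⟨a, by omega, h2⟩
      · left; exact ⟨true, by funext x; simp⟩
    · exact Or.inr ⟨a + c, by omega, FP.or h2 h4⟩

theorem junta_comp {V' : Type} (g : (V' → Bool) → V → Bool)
    (hg : ∀ v, Junta 1 (fun z => g z v)) (hf : Junta 1 f) : Junta 1 (fun z => f (g z)) := by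
  classical
  obtain ⟨A, hA, hd⟩ := hf
  rcases Nat.lt_or_ge A.card 1 with h0 | h1
  · have : A = ∅ := by rw [← card_eq_zero]; omega
    subst this
    refine ⟨∅, by simp, fun x y _ => hd _ _ (by simp)⟩
  · obtain ⟨v, rfl⟩ := card_eq_one.mp (le_antisymm hA h1)
    obtain ⟨B, hB, hd'⟩ := hg v
    refine ⟨B, hB, fun x y h => hd _ _ ?_⟩
    intro i hi
    rw [mem_singleton] at hi
    subst hi
    exact hd' x y h

theorem FC.comp {V' : Type} (g : (V' → Bool) → V → Bool)
    (hg : ∀ v, Junta 1 (fun z => g z v)) (hf : FC 1 s f) : FC 1 s (fun z => f (g z)) := by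
  rcases hf with ⟨b, rfl⟩ | ⟨a, h1, h2⟩
  · exact Or.inl ⟨b, rfl⟩
  · refine Or.inr ⟨a, h1, ?_⟩
    clear h1
    induction h2 with
    | leaf h => exact FP.leaf (junta_comp g hg h)
    | and _ _ ih1 ih2 => exact FP.and ih1 ih2
    | or _ _ ih1 ih2 => exact FP.or ih1 ih2

end

section

variable {V : Type} [DecidableEq V]

theorem fc_of_junta' : ∀ (J : ℕ) {f : (V → Bool) → Bool}, Junta J f →
    FC 1 (2 ^ (J + 2) - 2) f := by
  intro J
  induction J with
  | zero =>
    rintro f ⟨A, hA, hd⟩
    have : A = ∅ := by rw [← card_eq_zero]; omega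
    subst this
    left
    exact ⟨f (fun _ => false), by funext x; exact hd _ _ (by simp)⟩
  | succ J ih =>
    rintro f ⟨A, hA, hd⟩
    rcases A.eq_empty_or_nonempty with rfl | ⟨i, hi⟩
    · left
      exact ⟨f (fun _ => false), by funext x; exact hd _ _ (by simp)⟩
    · have hb : ∀ b : Bool, Junta J (fun x => f (Function.update x i b)) := by
        intro b
        refine ⟨A.erase i, by rw [card_erase_of_mem hi]; omega, fun x y h => hd _ _ ?_⟩
        intro j hj
        by_cases hji : j = i
        · subst hji; simp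
        · rw [Function.update_of_ne hji, Function.update_of_ne hji]
          exact h j (mem_erase.mpr ⟨hji, hj⟩)
      have hlit : ∀ b : Bool, FC 1 1 (fun x : V → Bool => x i == b) := by
        intro b
        refine Or.inr ⟨1, le_rfl, FP.leaf ⟨{i}, by simp, fun x y h => ?_⟩⟩
        change (x i == b) = (y i == b)
        rw [h i (by simp)]
      have h1 := ((hlit true).and (ih (hb true))).or ((hlit false).and (ih (hb false)))
      have h2 : (fun x => ((fun x : V → Bool => (x i == true) &&
          (fun x => f (Function.update x i true)) x) x) ||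
          ((fun x : V → Bool => (x i == false) &&
          (fun x => f (Function.update x i false)) x) x)) = f := by
        funext x
        cases hx : x i
        · have : Function.update x i false = x := by
            rw [← hx]; exact Function.update_eq_self i x
          simp [this, hx]
        · have : Function.update x i true = x := by
            rw [← hx]; exact Function.update_eq_self i x
          simp [this, hx]
      rw [h2] at h1
      refine h1.mono ?_
      have : 2 ≤ 2 ^ (J + 2) := Nat.le_self_pow (by omega) 2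
      have e : 2 ^ (J + 1 + 2) = 2 ^ (J + 2) * 2 := pow_succ 2 (J + 2)
      omega

theorem fc_of_junta (J : ℕ) {f : (V → Bool) → Bool} (h : Junta J f) : FC 1 (2 ^ (J + 2)) f :=
  (fc_of_junta' J h).mono (Nat.sub_le _ _)

end

/-! ### decomposition -/

section

variable {V : Type}

/-- what the pieces are good for -/
def Good (_k N : ℕ) (S : List ((V → Bool) → Bool)) (f : (V → Bool) → Bool) : Prop :=
  ∀ (ρ : Restr V) (K : ℕ), (∀ g ∈ S, FC 1 K (rs g ρ)) → FC 1 (N * K) (rs f ρ)

/-- The invariant: small, or a small context around a decomposed formula. -/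
def Inv (k l s : ℕ) (f : (V → Bool) → Bool) : Prop :=
  (s < l ∧ FP k s f) ∨
  ∃ (c N : ℕ) (p0 p1 G : (V → Bool) → Bool) (S : List ((V → Bool) → Bool)),
    c < l ∧ FC k c p0 ∧ FC k c p1 ∧ (f = fun x => p0 x || (G x && p1 x)) ∧
    S.length = N ∧ (∀ g ∈ S, FC k l g) ∧ Good k N S G ∧ (N + 4) * l + 6 * c ≤ 6 * s

theorem good_append {k N1 N2 : ℕ} {S1 S2 : List ((V → Bool) → Bool)} {f g : (V → Bool) → Bool}
    (h1 : Good k N1 S1 f) (h2 : Good k N2 S2 g) :
    Good k (N1 + N2) (S1 ++ S2) (fun x => f x && g x) ∧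
    Good k (N1 + N2) (S1 ++ S2) (fun x => f x || g x) := by
  constructor
  · intro ρ K h
    have e1 := h1 ρ K (fun g hg => h g (List.mem_append_left _ hg))
    have e2 := h2 ρ K (fun g hg => h g (List.mem_append_right _ hg))
    rw [add_mul]
    exact e1.and e2
  · intro ρ K h
    have e1 := h1 ρ K (fun g hg => h g (List.mem_append_left _ hg))
    have e2 := h2 ρ K (fun g hg => h g (List.mem_append_right _ hg))
    rw [add_mul]
    exact e1.or e2

theorem good_single {k : ℕ} (f : (V → Bool) → Bool) : Good k 1 [f] f := by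
  intro ρ K h
  rw [one_mul]
  exact h f (by simp)

/-- closing a context -/
theorem good_close {k N : ℕ} {S : List ((V → Bool) → Bool)} {p0 p1 G : (V → Bool) → Bool}
    (h : Good k N S G) : Good k (N + 2) (S ++ [p0, p1]) (fun x => p0 x || (G x && p1 x)) := by
  intro ρ K hS
  have e1 := h ρ K (fun g hg => hS g (List.mem_append_left _ hg))
  have e2 := hS p0 (by simp)
  have e3 := hS p1 (by simp)
  have := e2.or (e1.and e3)
  refine FC.mono this ?_
  ring_nf
  exact le_rfl

theorem inv_gate {k l s t : ℕ} {f g : (V → Bool) → Bool} (hf : Inv k l s f)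
    (hg : Inv k l t g) (op : Bool → Bool → Bool)
    (hop : ∀ p0 p1 G g, op (p0 || (G && p1)) g = (op p0 g || (G && op p1 g)))
    (hcomm : ∀ a b, op a b = op b a)
    (hFP : ∀ {s t : ℕ} {f g : (V → Bool) → Bool}, FP k s f → FP k t g →
      FP k (s + t) (fun x => op (f x) (g x)))
    (hFC : ∀ {s t : ℕ} {f g : (V → Bool) → Bool}, FC k s f → FC k t g →
      FC k (s + t) (fun x => op (f x) (g x)))
    (hgood : ∀ {N1 N2 : ℕ} {S1 S2 : List ((V → Bool) → Bool)} {f g : (V → Bool) → Bool},
      Good k N1 S1 f → Good k N2 S2 g → Good k (N1 + N2) (S1 ++ S2) (fun x => op (f x) (g x))) :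
    Inv k l (s + t) (fun x => op (f x) (g x)) := by
  have fcl : ∀ {s : ℕ} {f : (V → Bool) → Bool}, s < l → FC k s f → FC k l f :=
    fun h h' => h'.mono (le_of_lt h)
  -- a decomposed function with the trivial context
  have mk : ∀ {s : ℕ} (G : (V → Bool) → Bool) (N : ℕ) (S : List ((V → Bool) → Bool)), 0 < l →
      S.length = N → (∀ g ∈ S, FC k l g) → Good k N S G → (N + 4) * l ≤ 6 * s →
      Inv k l s G := by
    intro s G N S hl hN hS hG hb
    right
    refine ⟨0, N, fun _ => false, fun _ => true, G, S, hl, FC.const _, FC.const _, ?_, hN, hS, hG,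
      by omega⟩
    funext x
    simp
  -- extending or closing a context, with the small formula on the other side
  have one_heavy : ∀ {s t : ℕ} {f g : (V → Bool) → Bool} (c N : ℕ) (p0 p1 G : (V → Bool) → Bool)
      (S : List ((V → Bool) → Bool)), c < l → FC k c p0 → FC k c p1 →
      (f = fun x => p0 x || (G x && p1 x)) → S.length = N → (∀ g ∈ S, FC k l g) →
      Good k N S G → (N + 4) * l + 6 * c ≤ 6 * s → t < l → FP k t g →
      Inv k l (s + t) (fun x => op (f x) (g x)) := by
    intro s t f g c N p0 p1 G S hc h0 h1 hf hN hS hG hb ht hg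
    have hg' : FC k t g := Or.inr ⟨t, le_rfl, hg⟩
    by_cases hct : c + t < l
    · right
      refine ⟨c + t, N, fun x => op (p0 x) (g x), fun x => op (p1 x) (g x), G, S, hct,
        hFC h0 hg', hFC h1 hg', ?_, hN, hS, hG, by omega⟩
      funext x
      rw [hf]
      exact hop _ _ _ _
    · have hG' := hgood (good_close (p0 := p0) (p1 := p1) hG) (good_single g)
      subst hf
      refine mk _ (N + 2 + 1) _ (by omega) (by simp [hN]) ?_ hG' ?_
      · intro r hr
        simp only [List.mem_append, List.mem_cons, List.not_mem_nil, or_false] at hr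
        rcases hr with (hr | rfl | rfl) | rfl
        · exact hS r hr
        · exact fcl hc h0
        · exact fcl hc h1
        · exact fcl ht hg'
      · have e1 : (N + 2 + 1 + 4) * l = (N + 4) * l + 3 * l := by ring
        omega
  rcases hf with ⟨hs, hf⟩ | ⟨c, N, p0, p1, G, S, hc, h0, h1, hf, hN, hS, hG, hb⟩
  · rcases hg with ⟨ht, hg⟩ | ⟨c, N, p0, p1, G, S, hc, h0, h1, hg, hN, hS, hG, hb⟩
    · by_cases hst : s + t < l
      · exact Or.inl ⟨hst, hFP hf hg⟩
      · refine mk _ (1 + 1) _ (by omega) rfl ?_ (hgood (good_single f) (good_single g)) (by omega)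
        intro r hr
        simp only [List.cons_append, List.nil_append, List.mem_cons, List.not_mem_nil,
          or_false] at hr
        rcases hr with rfl | rfl
        · exact fcl hs (Or.inr ⟨s, le_rfl, hf⟩)
        · exact fcl ht (Or.inr ⟨t, le_rfl, hg⟩)
    · have := one_heavy c N p0 p1 G S hc h0 h1 hg hN hS hG hb hs hf
      rw [add_comm s t]
      have e : (fun x => op (f x) (g x)) = fun x => op (g x) (f x) := by
        funext x; exact hcomm _ _
      rw [e]
      exact this
  · rcases hg with ⟨ht, hg⟩ | ⟨c', N', p0', p1', G', S', hc', h0', h1', hg, hN', hS', hG', hb'⟩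
    · exact one_heavy c N p0 p1 G S hc h0 h1 hf hN hS hG hb ht hg
    · have e1 := hgood (good_close (p0 := p0) (p1 := p1) hG)
        (good_close (p0 := p0') (p1 := p1') hG')
      subst hf
      subst hg
      refine mk _ (N + 2 + (N' + 2)) _ (by omega) (by simp [hN, hN']; omega) ?_ e1 ?_
      · intro r hr
        simp only [List.mem_append, List.mem_cons, List.not_mem_nil, or_false] at hr
        rcases hr with (hr | rfl | rfl) | (hr | rfl | rfl)
        · exact hS r hr
        · exact fcl hc h0
        · exact fcl hc h1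
        · exact hS' r hr
        · exact fcl hc' h0'
        · exact fcl hc' h1'
      · have e2 : (N + 2 + (N' + 2) + 4) * l = (N + 4) * l + (N' + 4) * l := by ring
        omega

theorem inv_of_fp {k l s : ℕ} (hl : 1 < l) {f : (V → Bool) → Bool} (h : FP k s f) :
    Inv k l s f := by
  induction h with
  | leaf h => exact Or.inl ⟨hl, FP.leaf h⟩
  | and _ _ ih1 ih2 =>
    exact inv_gate ih1 ih2 (fun a b => a && b) (by decide) (by decide) FP.and FC.and
      (fun h1 h2 => (good_append h1 h2).1)
  | or _ _ ih1 ih2 =>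
    exact inv_gate ih1 ih2 (fun a b => a || b) (by decide) (by decide) FP.or FC.or
      (fun h1 h2 => (good_append h1 h2).2)

/-- The decomposition. -/
theorem decomp {k l s : ℕ} (hl : 1 < l) {f : (V → Bool) → Bool} (h : FC k s f) :
    ∃ S : List ((V → Bool) → Bool), S.length * l ≤ 6 * s + l ∧ (∀ g ∈ S, FC k l g) ∧
      Good k S.length S f := by
  rcases h with ⟨b, rfl⟩ | ⟨r, hr, h⟩
  · refine ⟨[fun _ => b], by simp, ?_, good_single _⟩
    intro g hg
    simp only [List.mem_cons, List.not_mem_nil, or_false] at hg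
    rw [hg]
    exact FC.const b
  · rcases inv_of_fp hl h with ⟨h1, h2⟩ | ⟨c, N, p0, p1, G, S, hc, h0, h1, hf, hN, hS, hG, hb⟩
    · refine ⟨[f], by simp, ?_, good_single f⟩
      intro g hg
      simp only [List.mem_cons, List.not_mem_nil, or_false] at hg
      rw [hg]
      exact Or.inr ⟨r, h1.le, h2⟩
    · refine ⟨S ++ [p0, p1], ?_, ?_, ?_⟩
      · rw [List.length_append, hN]
        simp only [List.length_cons, List.length_nil]
        have : (N + 4) * l = (N + (0 + 1 + 1)) * l + 2 * l := by ring
        omega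
      · intro g hg
        simp only [List.mem_append, List.mem_cons, List.not_mem_nil, or_false] at hg
        rcases hg with hr | rfl | rfl
        · exact hS g hr
        · exact h0.mono hc.le
        · exact h1.mono hc.le
      · have := good_close (p0 := p0) (p1 := p1) hG
        rw [← hf] at this
        rw [List.length_append, hN]
        exact this

end

/-! ### shrinkage -/

section

variable {V : Type} [Fintype V] [DecidableEq V]

theorem Adv.mono {K s t : ℕ} (hst : s ≤ t) {f : (V → Bool) → Bool} (h : Adv K s f) :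
    Adv K t f := by
  obtain ⟨E, i, lab, u, v, hd, h1, h2, h3⟩ := h
  refine ⟨E, i, lab, u, v, hd, h1, h2, fun y hy => (h3 y hy).trans ?_⟩
  exact_mod_cast hst

theorem adv_of_fp {k s : ℕ} {f : (V → Bool) → Bool} (h : FP k s f) : Adv k s f := by
  induction h with
  | leaf h => exact Adv.leaf (deg_of_junta h)
  | and _ _ ih1 ih2 => exact Adv.and ih1 ih2
  | or h1 h2 ih1 ih2 => exact Adv.or h1.pos h2.pos ih1 ih2

open Classical in
/-- A random restriction simplifies the pieces of a formula. -/
theorem shrink_main {k s l κ t : ℕ} {q : ℝ} (hk : 1 ≤ k) (hl : 1 < l) (hκ : 4096 * l ≤ 4 ^ κ)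
    (hq : 0 < q) (hq1 : q ≤ 1) (hqD : 32 * k * 2 ^ κ * q ≤ 1) {f : (V → Bool) → Bool}
    (hf : FC k s f) (B : Restr V → Prop)
    (hB : Ex (wq q) (fun ρ : Restr V => if B ρ then (1 : ℝ) else 0) +
      (6 * s / l + 1) * (5 * (32 * k * 2 ^ κ * q) ^ t) < 1) :
    ∃ ρ : Restr V, ¬ B ρ ∧ ∃ N : ℕ, N * l ≤ 6 * s + l ∧
      FC 1 (N * 2 ^ (t * 4 ^ t + 2)) (rs f ρ) := by
  obtain ⟨S, hlen, hS, hG⟩ := decomp hl hf
  by_contra hno
  push Not at hno
  -- every restriction is bad
  have hbad : ∀ ρ : Restr V, (1 : ℝ) ≤ (if B ρ then (1 : ℝ) else 0) +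
      ∑ i : Fin S.length, (if ¬ Junta (t * 4 ^ t) (rs (S.get i) ρ) then (1 : ℝ) else 0) := by
    intro ρ
    by_cases hBρ : B ρ
    · rw [if_pos hBρ]
      have : (0 : ℝ) ≤ ∑ i : Fin S.length,
          (if ¬ Junta (t * 4 ^ t) (rs (S.get i) ρ) then (1 : ℝ) else 0) :=
        sum_nonneg fun i _ => by split_ifs <;> norm_num
      linarith
    · rw [if_neg hBρ, zero_add]
      have h1 : ∃ i : Fin S.length, ¬ Junta (t * 4 ^ t) (rs (S.get i) ρ) := by
        by_contra hall
        push Not at hall
        refine hno ρ hBρ S.length hlen (hG ρ _ ?_)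
        intro g hg
        obtain ⟨i, rfl⟩ := List.get_of_mem hg
        exact fc_of_junta _ (hall i)
      obtain ⟨i, hi⟩ := h1
      have h2 := single_le_sum (f := fun i : Fin S.length =>
        (if ¬ Junta (t * 4 ^ t) (rs (S.get i) ρ) then (1 : ℝ) else 0))
        (fun j _ => by split_ifs <;> norm_num) (mem_univ i)
      simp only [if_pos hi] at h2
      exact h2
  have hw : ∀ a, 0 ≤ wq q a := wq_nonneg hq.le hq1
  have h1 := Ex_mono (I := V) hw hbad
  rw [Ex_const (wq_sum q), Ex_add, Ex_sum] at h1
  have h2 : ∀ i : Fin S.length, Ex (wq q) (fun ρ : Restr V =>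
      (if ¬ Junta (t * 4 ^ t) (rs (S.get i) ρ) then (1 : ℝ) else 0)) ≤
      5 * (32 * k * 2 ^ κ * q) ^ t := by
    intro i
    rcases hS (S.get i) (List.get_mem S i) with ⟨b, hb⟩ | ⟨r, hr, hr2⟩
    · have h3 : (fun ρ : Restr V =>
          (if ¬ Junta (t * 4 ^ t) (rs (S.get i) ρ) then (1 : ℝ) else 0)) = fun _ => 0 := by
        funext ρ
        rw [if_neg]
        rw [not_not, hb]
        exact ⟨∅, by simp, fun x y _ => rfl⟩
      rw [h3, Ex_const (wq_sum q)]
      positivity
    · have h3 := Adv.shrink (K := k) (s := l) (t := t) (k := κ) hk (by omega)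
        (Adv.mono hr (adv_of_fp hr2)) hκ hq hqD
      exact h3
  have h3 := sum_le_sum (fun i (_ : i ∈ (univ : Finset (Fin S.length))) => h2 i)
  rw [sum_const, card_univ, Fintype.card_fin, nsmul_eq_mul] at h3
  have h4 : (S.length : ℝ) ≤ 6 * s / l + 1 := by
    have hlR : (0 : ℝ) < l := by
      have : 0 < l := by omega
      exact_mod_cast this
    have h5 : (S.length : ℝ) * l ≤ 6 * s + l := by exact_mod_cast hlen
    rw [← le_div_iff₀ hlR] at h5
    refine h5.trans (le_of_eq ?_)
    field_simp
  have h5 : (S.length : ℝ) * (5 * (32 * k * 2 ^ κ * q) ^ t) ≤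
      (6 * s / l + 1) * (5 * (32 * k * 2 ^ κ * q) ^ t) :=
    mul_le_mul_of_nonneg_right h4 (by positivity)
  linarith

end

end Pool.Agent.V7H70.Fml
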