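import Pool.Agent.V7H70.Fml.Basic

/-!
# Counting formulas; composition of a hard function with parities
-/

set_option autoImplicit false

namespace Pool.Agent.V7H70.Fml

open Finset H568R2 Pool.Agent.H676

/-! ### counting -/

section

variable {T : Type}

/-- symbols: literals, constants, gates, nothing -/
abbrev Sym (T : Type) : Type := (T × Bool) ⊕ (Bool ⊕ (Bool ⊕ Unit))

/-- a stack machine -/
def run : List (Sym T) → List ((T → Bool) → Bool) → List ((T → Bool) → Bool)
  | [], st => st
  | .inl (v, b) :: w, st => run w ((fun x => xor (x v) b) :: st)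
  | .inr (.inl b) :: w, st => run w ((fun _ => b) :: st)
  | .inr (.inr (.inl c)) :: w, st =>
      match st with
      | g :: f :: st => run w ((if c = true then (fun x => f x && g x) else
          (fun x => f x || g x)) :: st)
      | st => run w st
  | .inr (.inr (.inr _)) :: w, st => run w st

theorem run_append : ∀ (w w' : List (Sym T)) (st : List ((T → Bool) → Bool)),
    run (w ++ w') st = run w' (run w st)
  | [], w', st => rfl
  | .inl (v, b) :: w, w', st => by
      simp only [List.cons_append, run]
      exact run_append w w' _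
  | .inr (.inl b) :: w, w', st => by
      simp only [List.cons_append, run]
      exact run_append w w' _
  | .inr (.inr (.inl c)) :: w, w', [] => by
      simp only [List.cons_append, run]
      exact run_append w w' _
  | .inr (.inr (.inl c)) :: w, w', [g] => by
      simp only [List.cons_append, run]
      exact run_append w w' _
  | .inr (.inr (.inl c)) :: w, w', g :: f :: st => by
      simp only [List.cons_append, run]
      exact run_append w w' _
  | .inr (.inr (.inr _)) :: w, w', st => by
      simp only [List.cons_append, run]
      exact run_append w w' _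

theorem run_noop : ∀ (n : ℕ) (st : List ((T → Bool) → Bool)),
    run (List.replicate n (.inr (.inr (.inr ())))) st = st
  | 0, st => rfl
  | n + 1, st => by
      rw [List.replicate_succ]
      simp only [run]
      exact run_noop n st

theorem word_of_fp {s : ℕ} {f : (T → Bool) → Bool} (h : FP 1 s f) :
    ∃ w : List (Sym T), w.length + 1 = 2 * s ∧ ∀ st, run w st = f :: st := by
  classical
  induction h with
  | @leaf f h =>
    obtain ⟨A, hA, hd⟩ := h
    rcases Nat.lt_or_ge A.card 1 with h0 | h1
    · have : A = ∅ := by rw [← card_eq_zero]; omega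
      subst this
      refine ⟨[.inr (.inl (f (fun _ => false)))], rfl, fun st => ?_⟩
      simp only [run]
      congr 1
      funext x
      exact hd _ _ (by simp)
    · obtain ⟨v, rfl⟩ := card_eq_one.mp (le_antisymm hA h1)
      by_cases hc : f (fun _ => false) = f (fun _ => true)
      · refine ⟨[.inr (.inl (f (fun _ => false)))], rfl, fun st => ?_⟩
        simp only [run]
        congr 1
        funext x
        cases hx : x v
        · exact hd _ _ (by simp [hx])
        · rw [hc]; exact hd _ _ (by simp [hx])
      · refine ⟨[.inl (v, f (fun _ => false))], rfl, fun st => ?_⟩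
        simp only [run]
        congr 1
        funext x
        cases hx : x v
        · rw [Bool.false_xor]
          exact hd _ _ (by simp [hx])
        · have h2 : f x = f (fun _ => true) := hd _ _ (by simp [hx])
          rw [h2]
          revert hc
          cases f (fun _ => false) <;> cases f (fun _ => true) <;> simp
  | and h1 h2 ih1 ih2 =>
    obtain ⟨w1, l1, e1⟩ := ih1
    obtain ⟨w2, l2, e2⟩ := ih2
    refine ⟨w1 ++ (w2 ++ [.inr (.inr (.inl true))]), ?_, fun st => ?_⟩
    · simp only [List.length_append, List.length_cons, List.length_nil]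
      omega
    · rw [run_append, e1, run_append, e2]
      simp only [run, if_true]
  | or h1 h2 ih1 ih2 =>
    obtain ⟨w1, l1, e1⟩ := ih1
    obtain ⟨w2, l2, e2⟩ := ih2
    refine ⟨w1 ++ (w2 ++ [.inr (.inr (.inl false))]), ?_, fun st => ?_⟩
    · simp only [List.length_append, List.length_cons, List.length_nil]
      omega
    · rw [run_append, e1, run_append, e2]
      simp only [run, Bool.false_eq_true, if_false]

theorem ofFn_get_cast {A : Type*} (l : List A) (m : ℕ) (h : l.length = m) :
    List.ofFn (fun i : Fin m => l.get (i.cast h.symm)) = l := by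
  subst h
  exact List.ofFn_get l

/-- There are functions without small formulas. -/
theorem exists_hard [Fintype T] [DecidableEq T] (L : ℕ)
    (h : (2 * Fintype.card T + 5) ^ (2 * L + 1) < 2 ^ 2 ^ Fintype.card T) :
    ∃ U : (T → Bool) → Bool, ¬ FC 1 L U := by
  by_contra hno
  push Not at hno
  have hsurj : Function.Surjective (fun v : Fin (2 * L + 1) → Sym T =>
      (run (List.ofFn v) []).headD (fun _ => false)) := by
    intro f
    obtain ⟨w, hlen, hw⟩ : ∃ w : List (Sym T), w.length ≤ 2 * L + 1 ∧ ∀ st, run w st = f :: st := by
      rcases hno f with ⟨b, rfl⟩ | ⟨r, hr, hr2⟩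
      · exact ⟨[.inr (.inl b)], by simp, fun st => rfl⟩
      · obtain ⟨w, h1, h2⟩ := word_of_fp hr2
        exact ⟨w, by omega, h2⟩
    have hlen2 : (w ++ List.replicate (2 * L + 1 - w.length)
        (.inr (.inr (.inr ())) : Sym T)).length = 2 * L + 1 := by
      rw [List.length_append, List.length_replicate]
      omega
    refine ⟨fun i => (w ++ List.replicate (2 * L + 1 - w.length)
      (.inr (.inr (.inr ())) : Sym T)).get (i.cast hlen2.symm), ?_⟩
    have e := ofFn_get_cast (w ++ List.replicate (2 * L + 1 - w.length)
      (.inr (.inr (.inr ())) : Sym T)) (2 * L + 1) hlen2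
    change (run (List.ofFn (fun i : Fin (2 * L + 1) => (w ++ List.replicate
      (2 * L + 1 - w.length) (.inr (.inr (.inr ())) : Sym T)).get (i.cast hlen2.symm)))
        []).headD (fun _ => false) = f
    rw [e]
    rw [run_append, hw, run_noop]
    rfl
  have h1 := Fintype.card_le_of_surjective _ hsurj
  rw [Fintype.card_fun, Fintype.card_fun, Fintype.card_fun, Fintype.card_bool, Fintype.card_fin,
    Fintype.card_sum, Fintype.card_prod, Fintype.card_sum, Fintype.card_sum,
    Fintype.card_bool, Fintype.card_unit] at h1
  have e : Fintype.card T * 2 + (2 + (2 + 1)) = 2 * Fintype.card T + 5 := by ring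
  rw [e] at h1
  omega

end

/-! ### parities -/

/-- parities of the initial segments -/
def pp (y : ℕ → Bool) : ℕ → Bool
  | 0 => false
  | n + 1 => xor (pp y n) (y n)

theorem pp_congr {y y' : ℕ → Bool} : ∀ {n : ℕ}, (∀ j < n, y j = y' j) → pp y n = pp y' n
  | 0, _ => rfl
  | n + 1, h => by
      rw [pp, pp, pp_congr (fun j hj => h j (by omega)), h n (by omega)]

theorem pp_update (y : ℕ → Bool) (i : ℕ) (b : Bool) : ∀ {n : ℕ}, i < n →
    pp (Function.update y i b) n = xor (pp (Function.update y i false) n) b
  | 0, h => by omega
  | n + 1, h => by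
      rw [pp, pp]
      rcases Nat.lt_or_ge i n with h1 | h1
      · rw [pp_update y i b h1, Function.update_of_ne (by omega), Function.update_of_ne (by omega)]
        cases pp (Function.update y i false) n <;> cases b <;> cases y n <;> rfl
      · have : i = n := by omega
        subst this
        rw [Function.update_self, Function.update_self]
        have e : pp (Function.update y i b) i = pp (Function.update y i false) i :=
          pp_congr fun j hj => by
            rw [Function.update_of_ne (by omega), Function.update_of_ne (by omega)]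
        rw [e]
        cases pp (Function.update y i false) i <;> cases b <;> rfl

/-- extension by zeros -/
def ext0 {w : ℕ} (y : Fin w → Bool) : ℕ → Bool := fun i => if h : i < w then y ⟨i, h⟩ else false

/-- the parity -/
def par {w : ℕ} (y : Fin w → Bool) : Bool := pp (ext0 y) w

theorem par_update {w : ℕ} (y : Fin w → Bool) (i : Fin w) (b : Bool) :
    par (Function.update y i b) = xor (par (Function.update y i false)) b := by
  have e : ∀ b, ext0 (Function.update y i b) = Function.update (ext0 y) i.val b := by
    intro b
    funext j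
    unfold ext0
    by_cases hj : j = i.val
    · subst hj
      rw [dif_pos i.2, Function.update_self]
      simp
    · rw [Function.update_of_ne hj]
      split_ifs with h
      · rw [Function.update_of_ne]
        intro h'
        exact hj (congrArg Fin.val h')
      · rfl
  unfold par
  rw [e, e, pp_update _ _ _ i.2]

/-- the composition -/
def FU {T : Type} {w : ℕ} (U : (T → Bool) → Bool) : (T × Fin w → Bool) → Bool :=
  fun y => U (fun t => par (fun i => y (t, i)))

section

variable {T : Type} {w : ℕ}

/-- A restriction with a free variable in every block contains the outer function. -/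
theorem fc_outer {S : ℕ} {U : (T → Bool) → Bool} (ρ : Restr (T × Fin w))
    (h : ∀ t, ∃ i, ρ (t, i) = none) (hf : FC 1 S (rs (FU U) ρ)) : FC 1 S U := by
  classical
  choose i hi using h
  let c : T → Bool := fun t => par (Function.update (fun j => (ρ (t, j)).getD false) (i t) false)
  let g : (T → Bool) → T × Fin w → Bool := fun z v =>
    if v.2 = i v.1 then xor (z v.1) (c v.1) else false
  have hg : ∀ v, Junta 1 (fun z => g z v) := by
    intro v
    refine ⟨{v.1}, by simp, fun z z' h => ?_⟩
    simp only [g]
    rw [h v.1 (by simp)]
  have h1 := FC.comp g hg hf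
  have h2 : (fun z => rs (FU U) ρ (g z)) = U := by
    funext z
    unfold rs FU
    congr 1
    funext t
    have e1 : (fun j => ov ρ (g z) (t, j)) =
        Function.update (fun j => (ρ (t, j)).getD false) (i t) (xor (z t) (c t)) := by
      funext j
      by_cases hj : j = i t
      · subst hj
        rw [Function.update_self]
        unfold ov
        rw [hi]
        simp [g]
      · rw [Function.update_of_ne hj]
        unfold ov
        cases hρ : ρ (t, j) with
        | none => simp [g, hj]
        | some b => rfl
    rw [e1, par_update]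
    change xor (c t) (xor (z t) (c t)) = z t
    cases c t <;> cases z t <;> rfl
  rw [h2] at h1
  exact h1

variable [Fintype T] [DecidableEq T]

theorem ex_prod {V : Type} [Fintype V] [DecidableEq V] {A : Type} [Fintype A] [DecidableEq A]
    (w : A → ℝ) (F : V → A → ℝ) :
    Ex w (fun ω : V → A => ∏ i, F i (ω i)) = ∏ i, ∑ a, w a * F i a := by
  unfold Ex
  rw [Finset.prod_univ_sum, Fintype.piFinset_univ]
  refine Finset.sum_congr rfl fun ω _ => ?_
  rw [← Finset.prod_mul_distrib]

open Classical in
theorem ex_block {q : ℝ} (t : T) :
    Ex (wq q) (fun ρ : Restr (T × Fin w) => if ∀ i, ρ (t, i) ≠ none then (1 : ℝ) else 0) =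
      (1 - q) ^ w := by
  have h1 : (fun ρ : Restr (T × Fin w) => if ∀ i, ρ (t, i) ≠ none then (1 : ℝ) else 0) =
      fun ρ => ∏ v : T × Fin w, (fun (v : T × Fin w) (o : Option Bool) =>
        if v.1 = t then (if o = none then (0 : ℝ) else 1) else 1) v (ρ v) := by
    funext ρ
    split_ifs with h
    · symm
      refine Finset.prod_eq_one fun v _ => ?_
      by_cases hv : v.1 = t
      · have := h v.2
        rw [← hv] at this
        simp [hv, this]
      · simp [hv]
    · push Not at h
      obtain ⟨i, hi⟩ := h
      symm
      refine Finset.prod_eq_zero (Finset.mem_univ (t, i)) ?_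
      simp [hi]
  have h1' := ex_prod (V := T × Fin w) (wq q) (fun (v : T × Fin w) (o : Option Bool) =>
        if v.1 = t then (if o = none then (0 : ℝ) else 1) else 1)
  rw [h1, h1']
  have h2 : ∀ v : T × Fin w, ∑ a : Option Bool, wq q a *
      (if v.1 = t then (if a = none then (0 : ℝ) else 1) else 1) =
      if v.1 = t then 1 - q else 1 := by
    intro v
    split_ifs with hv
    · rw [Fintype.sum_option, Fintype.sum_bool]
      simp only [if_true, reduceCtorEq, if_false]
      unfold wq
      ring
    · simp only [mul_one]
      exact wq_sum q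
  rw [Finset.prod_congr rfl fun v _ => h2 v]
  rw [Fintype.prod_prod_type]
  have h3 : ∀ t' : T, ∏ _i : Fin w, (if t' = t then 1 - q else (1 : ℝ)) =
      if t' = t then (1 - q) ^ w else 1 := by
    intro t'
    split_ifs with ht
    · rw [Finset.prod_const, Finset.card_univ, Fintype.card_fin]
    · exact Finset.prod_const_one
  rw [Finset.prod_congr rfl fun t' _ => h3 t', Finset.prod_ite_eq' univ t]
  simp

open Classical in
/-- The lower bound for the composition. -/
theorem andreev {k s l κ r : ℕ} {q : ℝ} (hk : 1 ≤ k) (hl : 1 < l) (hκ : 4096 * l ≤ 4 ^ κ)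
    (hq : 0 < q) (hq1 : q ≤ 1) (hqD : 32 * k * 2 ^ κ * q ≤ 1) {U : (T → Bool) → Bool} {L : ℕ}
    (hU : ¬ FC 1 L U) (hf : FC k s (FU (w := w) U))
    (hB : Fintype.card T * (1 - q) ^ w +
      (6 * s / l + 1) * (5 * (32 * k * 2 ^ κ * q) ^ r) < 1) :
    L * l < (6 * s + l) * 2 ^ (r * 4 ^ r + 2) := by
  have hw : ∀ a, 0 ≤ wq q a := wq_nonneg hq.le hq1
  have h1 : Ex (wq q) (fun ρ : Restr (T × Fin w) =>
      if (∃ t, ∀ i, ρ (t, i) ≠ none) then (1 : ℝ) else 0) ≤ Fintype.card T * (1 - q) ^ w := by
    have h2 : ∀ ρ : Restr (T × Fin w), (if (∃ t, ∀ i, ρ (t, i) ≠ none) then (1 : ℝ) else 0) ≤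
        ∑ t, (if ∀ i, ρ (t, i) ≠ none then (1 : ℝ) else 0) := by
      intro ρ
      split_ifs with h
      · obtain ⟨t, ht⟩ := h
        have h3 := single_le_sum (f := fun t => (if ∀ i, ρ (t, i) ≠ none then (1 : ℝ) else 0))
          (fun j _ => by split_ifs <;> norm_num) (mem_univ t)
        simp only [if_pos ht] at h3
        exact h3
      · exact sum_nonneg fun i _ => by split_ifs <;> norm_num
    refine (Ex_mono hw h2).trans ?_
    rw [Ex_sum, sum_congr rfl fun t _ => ex_block t, sum_const, card_univ, nsmul_eq_mul]
  have h1' := lt_of_le_of_lt (add_le_add_left h1 ((6 * s / l + 1) * (5 * (32 * k * 2 ^ κ * q) ^ r))) hB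
  obtain ⟨ρ, hρ, N, hN, hfc⟩ := shrink_main (t := r) hk hl hκ hq hq1 hqD hf
    (fun ρ => ∃ t, ∀ i, ρ (t, i) ≠ none) (by
      refine lt_of_le_of_lt (le_of_eq ?_) h1'
      congr! 2
      funext ρ
      by_cases h : ∃ t, ∀ i, ρ (t, i) ≠ none
      · rw [if_pos h, if_pos h]
      · rw [if_neg h, if_neg h])
  push Not at hρ
  have h2 := fc_outer ρ hρ hfc
  have h3 : L < N * 2 ^ (r * 4 ^ r + 2) := by
    by_contra hno
    exact hU (h2.mono (by omega))
  calc L * l < N * 2 ^ (r * 4 ^ r + 2) * l := Nat.mul_lt_mul_of_pos_right h3 (by omega)
    _ = N * l * 2 ^ (r * 4 ^ r + 2) := by ring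
    _ ≤ _ := Nat.mul_le_mul_right _ hN

end

end Pool.Agent.V7H70.Fml
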