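import Pool.Agent.V7H70.Fml.Check
import Pool.Agent.V7H70.Fml.Hard

/-!
# The braid graph: a Hamilton cycle determines parities
-/

set_option autoImplicit false

namespace Pool.Agent.V7H70.Fml

open Pool.Agent.V7H70.Ham (U gad gadget exists_other)

/-- rows: side and address -/
abbrev Rw (a : ℕ) : Type := Bool × (Fin a → Bool)

/-- blocks: side and bit of the address -/
abbrev Tm (a : ℕ) : Type := Bool × Fin a

/-- the vertices -/
inductive Vb (a w B : ℕ) : Type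
  | g (r : Rw a) (κ : Fin (a + 1)) (p : Fin 9) : Vb a w B
  | I (t : Tm a) (j : Fin (w + 1)) (β : Bool) : Vb a w B
  | O (t : Tm a) (j : Fin (w + 1)) (β : Bool) : Vb a w B
  | M (t : Tm a) (j : Fin (w + 1)) (β : Bool) : Vb a w B
  | sp (i : Fin (B + 2 * a + 2)) : Vb a w B
  deriving DecidableEq

/-- the vertices as a sum -/
def vbEquiv (a w B : ℕ) : Vb a w B ≃ (Rw a × Fin (a + 1) × Fin 9) ⊕ (Tm a × Fin (w + 1) × Bool) ⊕
    (Tm a × Fin (w + 1) × Bool) ⊕ (Tm a × Fin (w + 1) × Bool) ⊕ Fin (B + 2 * a + 2) where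
  toFun
    | .g r κ p => .inl (r, κ, p)
    | .I t j β => .inr (.inl (t, j, β))
    | .O t j β => .inr (.inr (.inl (t, j, β)))
    | .M t j β => .inr (.inr (.inr (.inl (t, j, β))))
    | .sp i => .inr (.inr (.inr (.inr i)))
  invFun
    | .inl (r, κ, p) => .g r κ p
    | .inr (.inl (t, j, β)) => .I t j β
    | .inr (.inr (.inl (t, j, β))) => .O t j β
    | .inr (.inr (.inr (.inl (t, j, β)))) => .M t j β
    | .inr (.inr (.inr (.inr i))) => .sp i
  left_inv v := by cases v <;> rfl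
  right_inv v := by rcases v with ⟨r, κ, p⟩ | ⟨t, j, β⟩ | ⟨t, j, β⟩ | ⟨t, j, β⟩ | i <;> rfl

instance (a w B : ℕ) : Fintype (Vb a w B) := Fintype.ofEquiv _ (vbEquiv a w B).symm

theorem card_vb (a w B : ℕ) : Fintype.card (Vb a w B) =
    18 * (a + 1) * 2 ^ a + 12 * a * (w + 1) + (B + 2 * a + 2) := by
  rw [Fintype.card_congr (vbEquiv a w B)]
  simp only [Fintype.card_sum, Fintype.card_prod, Fintype.card_fin, Fintype.card_bool,
    Fintype.card_fun]
  ring

/-- the input of the table -/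
def joint {a : ℕ} (u v : Fin a → Bool) : Tm a → Bool := fun t => if t.1 = true then v t.2 else u t.2

section

variable {a w B : ℕ}

/-- the edges, directed -/
def E (ix : Rw a → ℕ) (cd : Tm a → ℕ) (A : (Tm a → Bool) → Bool) (y : Tm a × Fin w → Bool) :
    Vb a w B → Vb a w B → Prop
  | .g r κ p, .g r' κ' p' =>
      (r = r' ∧ κ = κ' ∧ gad p p') ∨ (r = r' ∧ κ.val + 1 = κ'.val ∧ p = 8 ∧ p' = 0) ∨
      (r.1 = false ∧ r'.1 = true ∧ κ.val = a ∧ κ'.val = a ∧ p = 2 ∧ p' = 6 ∧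
        A (joint r.2 r'.2) = true)
  | .sp i, .g r κ p => (p = 0 ∧ κ.val = 0 ∧ i.val = ix r) ∨
      (p = 6 ∧ κ.val = a ∧ r.1 = false ∧ i.val = B + 2 * a)
  | .g r κ p, .sp i => (p = 8 ∧ κ.val = a ∧ i.val = ix r + 1) ∨
      (p = 2 ∧ κ.val = a ∧ r.1 = true ∧ i.val = B + 2 * a + 1)
  | .sp i, .sp j => (i.val < B ∧ j.val = i.val + 1) ∨ (i.val = B + 2 * a + 1 ∧ j.val = 0)
  | .sp i, .I t j β => i.val = B + cd t ∧ j.val = 0 ∧ β = false
  | .M t j β, .sp i => i.val = B + cd t + 1 ∧ j.val = w ∧ β = true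
  | .I t j β, .O t' j' β' => t = t' ∧ j = j' ∧ (β = true ∨ ∃ h : j.val < w, β' = y (t, ⟨j.val, h⟩))
  | .I t j β, .g r κ p => p = 6 ∧ j.val = w ∧ β = false ∧ t.1 = r.1 ∧ t.2.val = κ.val
  | .g r κ p, .O t j β => p = 2 ∧ j.val = w ∧ t.1 = r.1 ∧ t.2.val = κ.val ∧ β = r.2 t.2
  | .O t j β, .M t' j' β' => t = t' ∧ j = j' ∧ β = β'
  | .M t j β, .I t' j' β' => t = t' ∧ ((j.val + 1 = j'.val ∧ β = β') ∨
      (j.val = w ∧ j'.val = 0 ∧ β = false ∧ β' = true))
  | _, _ => False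

/-- the graph -/
def Gb (ix : Rw a → ℕ) (cd : Tm a → ℕ) (A : (Tm a → Bool) → Bool) (y : Tm a × Fin w → Bool) :
    SimpleGraph (Vb a w B) := SimpleGraph.fromRel (E ix cd A y)

section

variable {ix : Rw a → ℕ} {cd : Tm a → ℕ} {A : (Tm a → Bool) → Bool} {y : Tm a × Fin w → Bool}

theorem adj_or {u v : Vb a w B} (h : (Gb ix cd A y).Adj u v) : E ix cd A y u v ∨ E ix cd A y v u := by
  rw [Gb, SimpleGraph.fromRel_adj] at h
  exact h.2

theorem nb_M {t : Tm a} {j : Fin (w + 1)} {β : Bool} {v : Vb a w B}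
    (h : (Gb ix cd A y).Adj (.M t j β) v) : v = .O t j β ∨
      (∃ j' : Fin (w + 1), j.val + 1 = j'.val ∧ v = .I t j' β) ∨
      (j.val = w ∧ β = false ∧ ∃ j' : Fin (w + 1), j'.val = 0 ∧ v = .I t j' true) ∨
      (j.val = w ∧ β = true ∧ ∃ i, v = .sp i ∧ i.val = B + cd t + 1) := by
  rcases adj_or h with h | h
  · cases v with
    | g r κ p => simp [E] at h
    | I t' j' β' =>
      simp only [E] at h
      obtain ⟨rfl, ⟨h1, rfl⟩ | ⟨h1, h2, rfl, rfl⟩⟩ := h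
      · exact Or.inr (Or.inl ⟨j', h1, rfl⟩)
      · exact Or.inr (Or.inr (Or.inl ⟨h1, rfl, j', h2, rfl⟩))
    | O t' j' β' => simp [E] at h
    | M t' j' β' => simp [E] at h
    | sp i =>
      simp only [E] at h
      exact Or.inr (Or.inr (Or.inr ⟨h.2.1, h.2.2, i, rfl, h.1⟩))
  · cases v with
    | g r κ p => simp [E] at h
    | I t' j' β' => simp [E] at h
    | O t' j' β' =>
      simp only [E] at h
      obtain ⟨rfl, rfl, rfl⟩ := h
      exact Or.inl rfl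
    | M t' j' β' => simp [E] at h
    | sp i => simp [E] at h

theorem nb_O {t : Tm a} {j : Fin (w + 1)} {β : Bool} {v : Vb a w B}
    (h : (Gb ix cd A y).Adj (.O t j β) v) : v = .M t j β ∨ v = .I t j true ∨
      (v = .I t j false ∧ ∃ h : j.val < w, β = y (t, ⟨j.val, h⟩)) ∨
      (∃ r κ, v = .g r κ 2 ∧ j.val = w ∧ t.1 = r.1 ∧ t.2.val = κ.val ∧ β = r.2 t.2) := by
  rcases adj_or h with h | h
  · cases v with
    | g r κ p => simp [E] at h
    | I t' j' β' => simp [E] at h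
    | O t' j' β' => simp [E] at h
    | M t' j' β' =>
      simp only [E] at h
      obtain ⟨rfl, rfl, rfl⟩ := h
      exact Or.inl rfl
    | sp i => simp [E] at h
  · cases v with
    | g r κ p =>
      simp only [E] at h
      obtain ⟨rfl, h9⟩ := h
      exact Or.inr (Or.inr (Or.inr ⟨r, κ, rfl, h9⟩))
    | I t' j' β' =>
      simp only [E] at h
      obtain ⟨rfl, rfl, h9⟩ := h
      cases β' with
      | true => exact Or.inr (Or.inl rfl)
      | false =>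
        rcases h9 with h8 | h8
        · simp at h8
        · exact Or.inr (Or.inr (Or.inl ⟨rfl, h8⟩))
    | O t' j' β' => simp [E] at h
    | M t' j' β' => simp [E] at h
    | sp i => simp [E] at h

theorem nb_I {t : Tm a} {j : Fin (w + 1)} {β : Bool} {v : Vb a w B}
    (h : (Gb ix cd A y).Adj (.I t j β) v) :
      (∃ β', v = .O t j β' ∧ (β = true ∨ ∃ h : j.val < w, β' = y (t, ⟨j.val, h⟩))) ∨
      (∃ r κ, v = .g r κ 6 ∧ j.val = w ∧ β = false ∧ t.1 = r.1 ∧ t.2.val = κ.val) ∨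
      (∃ j' : Fin (w + 1), j'.val + 1 = j.val ∧ v = .M t j' β) ∨
      (j.val = 0 ∧ β = true ∧ ∃ j' : Fin (w + 1), j'.val = w ∧ v = .M t j' false) ∨
      (j.val = 0 ∧ β = false ∧ ∃ i, v = .sp i ∧ i.val = B + cd t) := by
  rcases adj_or h with h | h
  · cases v with
    | g r κ p =>
      simp only [E] at h
      obtain ⟨rfl, h9⟩ := h
      exact Or.inr (Or.inl ⟨r, κ, rfl, h9⟩)
    | I t' j' β' => simp [E] at h
    | O t' j' β' =>
      simp only [E] at h
      obtain ⟨rfl, rfl, h9⟩ := h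
      exact Or.inl ⟨β', rfl, h9⟩
    | M t' j' β' => simp [E] at h
    | sp i => simp [E] at h
  · cases v with
    | g r κ p => simp [E] at h
    | I t' j' β' => simp [E] at h
    | O t' j' β' => simp [E] at h
    | M t' j' β' =>
      simp only [E] at h
      obtain ⟨rfl, ⟨h1, rfl⟩ | ⟨h1, h2, rfl, rfl⟩⟩ := h
      · exact Or.inr (Or.inr (Or.inl ⟨j', h1, rfl⟩))
      · exact Or.inr (Or.inr (Or.inr (Or.inl ⟨h2, rfl, j', h1, rfl⟩)))
    | sp i =>
      simp only [E] at h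
      exact Or.inr (Or.inr (Or.inr (Or.inr ⟨h.2.1, h.2.2, i, rfl, h.1⟩)))

/-- neighbours in the same copy -/
theorem nb_in {r : Rw a} {κ : Fin (a + 1)} {p p' : Fin 9}
    (h : (Gb (B := B) ix cd A y).Adj (.g r κ p) (.g r κ p')) : gad p p' ∨ gad p' p := by
  rcases adj_or h with h | h
  · simp only [E] at h
    rcases h with h | h | h
    · exact Or.inl h.2.2
    · omega
    · have h1 := h.1
      have h2 := h.2.1
      rw [h1] at h2
      exact absurd h2 (by simp)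
  · simp only [E] at h
    rcases h with h | h | h
    · exact Or.inr h.2.2
    · omega
    · have h1 := h.1
      have h2 := h.2.1
      rw [h1] at h2
      exact absurd h2 (by simp)

/-- outside a copy -/
def Ou (r : Rw a) (κ : Fin (a + 1)) (v : Vb a w B) : Prop := ∀ p : Fin 9, v ≠ .g r κ p

theorem nb_g {r : Rw a} {κ : Fin (a + 1)} {p : Fin 9} {v : Vb a w B}
    (h : (Gb ix cd A y).Adj (.g r κ p) v) (hv : Ou r κ v) :
    (p = 0 ∧ ((κ.val = 0 ∧ ∃ i, v = .sp i ∧ i.val = ix r) ∨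
      ∃ κ' : Fin (a + 1), κ'.val + 1 = κ.val ∧ v = .g r κ' 8)) ∨
    (p = 8 ∧ ((κ.val = a ∧ ∃ i, v = .sp i ∧ i.val = ix r + 1) ∨
      ∃ κ' : Fin (a + 1), κ.val + 1 = κ'.val ∧ v = .g r κ' 0)) ∨
    (p = 6 ∧ ((κ.val = a ∧ r.1 = false ∧ ∃ i, v = .sp i ∧ i.val = B + 2 * a) ∨
      (κ.val = a ∧ r.1 = true ∧ ∃ r' : Rw a, r'.1 = false ∧ v = .g r' κ 2 ∧
        A (joint r'.2 r.2) = true) ∨
      (∃ t j, v = .I t j false ∧ j.val = w ∧ t.1 = r.1 ∧ t.2.val = κ.val))) ∨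
    (p = 2 ∧ ((κ.val = a ∧ r.1 = true ∧ ∃ i, v = .sp i ∧ i.val = B + 2 * a + 1) ∨
      (κ.val = a ∧ r.1 = false ∧ ∃ r' : Rw a, r'.1 = true ∧ v = .g r' κ 6 ∧
        A (joint r.2 r'.2) = true) ∨
      (∃ t j, v = .O t j (r.2 t.2) ∧ j.val = w ∧ t.1 = r.1 ∧ t.2.val = κ.val))) := by
  rcases adj_or h with h | h
  · cases v with
    | g r' κ' p' =>
      simp only [E] at h
      rcases h with ⟨rfl, rfl, h⟩ | ⟨rfl, h1, rfl, rfl⟩ | ⟨h1, h2, h3, h4, rfl, rfl, h5⟩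
      · exact absurd rfl (hv p')
      · exact Or.inr (Or.inl ⟨rfl, Or.inr ⟨κ', h1, rfl⟩⟩)
      · have : κ' = κ := Fin.ext (by omega)
        subst this
        exact Or.inr (Or.inr (Or.inr ⟨rfl, Or.inr (Or.inl ⟨h3, h1, r', h2, rfl, h5⟩)⟩))
    | I t j β => simp [E] at h
    | O t j β =>
      simp only [E] at h
      obtain ⟨rfl, h1, h2, h3, rfl⟩ := h
      exact Or.inr (Or.inr (Or.inr ⟨rfl, Or.inr (Or.inr ⟨t, j, rfl, h1, h2, h3⟩)⟩))
    | M t j β => simp [E] at h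
    | sp i =>
      simp only [E] at h
      rcases h with ⟨rfl, h1, h2⟩ | ⟨rfl, h1, h2, h3⟩
      · exact Or.inr (Or.inl ⟨rfl, Or.inl ⟨h1, i, rfl, h2⟩⟩)
      · exact Or.inr (Or.inr (Or.inr ⟨rfl, Or.inl ⟨h1, h2, i, rfl, h3⟩⟩))
  · cases v with
    | g r' κ' p' =>
      simp only [E] at h
      rcases h with ⟨rfl, rfl, h⟩ | ⟨rfl, h1, rfl, rfl⟩ | ⟨h1, h2, h3, h4, rfl, rfl, h5⟩
      · exact absurd rfl (hv p')
      · exact Or.inl ⟨rfl, Or.inr ⟨κ', h1, rfl⟩⟩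
      · have : κ' = κ := Fin.ext (by omega)
        subst this
        exact Or.inr (Or.inr (Or.inl ⟨rfl, Or.inr (Or.inl ⟨h3, h2, r', h1, rfl, h5⟩)⟩))
    | I t j β =>
      simp only [E] at h
      obtain ⟨rfl, h1, rfl, h2, h3⟩ := h
      exact Or.inr (Or.inr (Or.inl ⟨rfl, Or.inr (Or.inr ⟨t, j, rfl, h1, h2, h3⟩)⟩))
    | O t j β => simp [E] at h
    | M t j β => simp [E] at h
    | sp i =>
      simp only [E] at h
      rcases h with ⟨rfl, h1, h2⟩ | ⟨rfl, h1, h2, h3⟩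
      · exact Or.inl ⟨rfl, Or.inl ⟨h1, i, rfl, h2⟩⟩
      · exact Or.inr (Or.inr (Or.inl ⟨rfl, Or.inl ⟨h1, h2, i, rfl, h3⟩⟩))

theorem nb_sp {i : Fin (B + 2 * a + 2)} (hi : i.val = B + 2 * a) (ha : 0 < a)
    (hix : ∀ r, ix r + 1 ≤ B) (hcd : ∀ t, cd t < 2 * a) {v : Vb a w B}
    (h : (Gb ix cd A y).Adj (.sp i) v) :
    (∃ r κ, v = .g r κ 6 ∧ κ.val = a ∧ r.1 = false) ∨
      (∃ t j, v = .M t j true ∧ j.val = w ∧ cd t + 1 = 2 * a) := by
  rcases adj_or h with h | h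
  · cases v with
    | g r κ p =>
      simp only [E] at h
      rcases h with ⟨rfl, h1, h2⟩ | ⟨rfl, h1, h2, h3⟩
      · have := hix r
        omega
      · exact Or.inl ⟨r, κ, rfl, h1, h2⟩
    | I t j β =>
      simp only [E] at h
      have := hcd t
      omega
    | O t j β => simp [E] at h
    | M t j β => simp [E] at h
    | sp i' =>
      simp only [E] at h
      omega
  · cases v with
    | g r κ p =>
      simp only [E] at h
      rcases h with ⟨rfl, h1, h2⟩ | ⟨rfl, h1, h2, h3⟩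
      · have := hix r
        omega
      · omega
    | I t j β => simp [E] at h
    | O t j β => simp [E] at h
    | M t j β =>
      simp only [E] at h
      obtain ⟨h1, h2, rfl⟩ := h
      exact Or.inr ⟨t, j, rfl, h2, by omega⟩
    | sp i' =>
      simp only [E] at h
      omega

end

end

end Pool.Agent.V7H70.Fml
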