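import Pool.Agent.V7H70.Fml.BraidF
import Pool.Agent.V7H70.Ham.Build

/-!
# The braid graph has a Hamilton cycle when the parities are right
-/

set_option autoImplicit false

namespace Pool.Agent.V7H70.Fml

open List
open Pool.Agent.V7H70.Ham (gad ord mem_ord)

section

variable {a w B R : ℕ}

/-- the path through one copy, along the row -/
def rowc (r : Rw a) (κ : Fin (a + 1)) : List (Vb a w B) :=
  List.ofFn fun p : Fin 9 => (.g r κ p : Vb a w B)

/-- the path along a row -/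
def rowp (r : Rw a) : List (Vb a w B) := (List.ofFn fun κ : Fin (a + 1) => rowc r κ).flatten

/-- the path through one copy, along the check -/
def ckl (r : Rw a) (κ : Fin (a + 1)) : List (Vb a w B) := ord.map (fun p => .g r κ p)

/-- the selected row -/
def rz (z : Tm a → Bool) (d : Bool) : Rw a := (d, fun i => z (d, i))

/-- one step of a strand -/
def stp (z : Tm a → Bool) (t : Tm a) (c : ℕ → Bool) (j : Fin (w + 1)) : List (Vb a w B) :=
  .I t j (c j.val) :: ((if j.val = w ∧ c w = false then ckl (rz z t.1) t.2.castSucc else []) ++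
    [.O t j (c (j.val + 1)), .M t j (c (j.val + 1))])

/-- a strand -/
def strand (z : Tm a → Bool) (t : Tm a) (c : ℕ → Bool) : List (Vb a w B) :=
  (List.ofFn fun j : Fin (w + 1) => stp z t c j).flatten

/-- the crossings -/
def crs (y : Tm a × Fin w → Bool) (z : Tm a → Bool) (t : Tm a) : ℕ → Bool :=
  fun j => if h : j < w then y (t, ⟨j, h⟩) else z t

/-- a block -/
def braid (y : Tm a × Fin w → Bool) (z : Tm a → Bool) (t : Tm a) : List (Vb a w B) :=
  strand z t (pp (crs y z t)) ++ strand z t (fun j => !pp (crs y z t) j)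

/-- the check of the table -/
def tabl (z : Tm a → Bool) : List (Vb a w B) :=
  ckl (rz z false) (Fin.last a) ++ ckl (rz z true) (Fin.last a)

theorem rowc_eq (r : Rw a) (κ : Fin (a + 1)) : rowc (w := w) (B := B) r κ =
    [.g r κ 0, .g r κ 1, .g r κ 2, .g r κ 3, .g r κ 4, .g r κ 5, .g r κ 6, .g r κ 7, .g r κ 8] :=
  rfl

theorem ckl_eq (r : Rw a) (κ : Fin (a + 1)) : ckl (w := w) (B := B) r κ =
    [.g r κ 6, .g r κ 7, .g r κ 8, .g r κ 3, .g r κ 4, .g r κ 5, .g r κ 0, .g r κ 1, .g r κ 2] :=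
  rfl

theorem mem_rowc {r : Rw a} {κ : Fin (a + 1)} {v : Vb a w B} :
    v ∈ rowc (B := B) r κ ↔ ∃ p, v = .g r κ p := by
  simp only [rowc, List.mem_ofFn]
  constructor
  · rintro ⟨g, rfl⟩; exact ⟨g, rfl⟩
  · rintro ⟨g, rfl⟩; exact ⟨g, rfl⟩

theorem mem_rowp {r : Rw a} {v : Vb a w B} :
    v ∈ rowp (B := B) r ↔ ∃ κ p, v = .g r κ p := by
  simp only [rowp, List.mem_flatten, List.mem_ofFn]
  constructor
  · rintro ⟨l, ⟨t, rfl⟩, hv⟩
    obtain ⟨g, rfl⟩ := mem_rowc.mp hv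
    exact ⟨t, g, rfl⟩
  · rintro ⟨t, g, rfl⟩
    exact ⟨_, ⟨t, rfl⟩, mem_rowc.mpr ⟨g, rfl⟩⟩

theorem mem_ckl {r : Rw a} {κ : Fin (a + 1)} {v : Vb a w B} :
    v ∈ ckl (B := B) r κ ↔ ∃ p, v = .g r κ p := by
  simp only [ckl, List.mem_map]
  constructor
  · rintro ⟨g, _, rfl⟩; exact ⟨g, rfl⟩
  · rintro ⟨g, rfl⟩; exact ⟨g, mem_ord g, rfl⟩

theorem nodup_rowc (r : Rw a) (κ : Fin (a + 1)) : (rowc (w := w) (B := B) r κ).Nodup := by
  rw [rowc, List.nodup_ofFn]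
  intro g g' h
  simpa using h

theorem nodup_rowp (r : Rw a) : (rowp (w := w) (B := B) r).Nodup := by
  rw [rowp, List.nodup_flatten]
  constructor
  · intro l hl
    rw [List.mem_ofFn] at hl
    obtain ⟨t, rfl⟩ := hl
    exact nodup_rowc r t
  · rw [List.pairwise_ofFn]
    intro t t' htt v h1 h2
    obtain ⟨g, rfl⟩ := mem_rowc.mp h1
    obtain ⟨g', h⟩ := mem_rowc.mp h2
    simp only [Vb.g.injEq, true_and] at h
    exact absurd h.1 (ne_of_lt htt)

theorem nodup_ckl (r : Rw a) (κ : Fin (a + 1)) : (ckl (w := w) (B := B) r κ).Nodup := by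
  rw [ckl]
  refine List.Nodup.map ?_ (by decide)
  intro g g' h
  simpa using h

theorem mem_stp {z : Tm a → Bool} {t : Tm a} {c : ℕ → Bool} {j : Fin (w + 1)} {v : Vb a w B} :
    v ∈ stp z t c j ↔ v = .I t j (c j.val) ∨
      ((j.val = w ∧ c w = false) ∧ ∃ p, v = .g (rz z t.1) t.2.castSucc p) ∨
      v = .O t j (c (j.val + 1)) ∨ v = .M t j (c (j.val + 1)) := by
  rw [stp]
  split_ifs with h
  · simp only [h, List.mem_cons, List.mem_append, mem_ckl, List.not_mem_nil, or_false, and_self,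
      true_and]
  · simp only [h, List.mem_cons, List.mem_append, List.not_mem_nil, or_false, false_or,
      false_and]

theorem nodup_stp (z : Tm a → Bool) (t : Tm a) (c : ℕ → Bool) (j : Fin (w + 1)) :
    (stp (B := B) z t c j).Nodup := by
  rw [stp, List.nodup_cons, List.nodup_append]
  split_ifs with h
  · refine ⟨?_, nodup_ckl _ _, by simp, ?_⟩
    · simp [mem_ckl]
    · intro v hv v' hv' he
      rw [mem_ckl] at hv
      obtain ⟨p, rfl⟩ := hv
      simp only [List.mem_cons, List.not_mem_nil, or_false] at hv'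
      rcases hv' with rfl | rfl <;> simp at he
  · simp

theorem mem_strand {z : Tm a → Bool} {t : Tm a} {c : ℕ → Bool} {v : Vb a w B} :
    v ∈ strand z t c ↔ (∃ j : Fin (w + 1), v = .I t j (c j.val)) ∨
      (c w = false ∧ ∃ p, v = .g (rz z t.1) t.2.castSucc p) ∨
      (∃ j : Fin (w + 1), v = .O t j (c (j.val + 1))) ∨
      (∃ j : Fin (w + 1), v = .M t j (c (j.val + 1))) := by
  simp only [strand, List.mem_flatten, List.mem_ofFn]
  constructor
  · rintro ⟨l, ⟨j, rfl⟩, hv⟩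
    rcases mem_stp.mp hv with h | h | h | h
    · exact Or.inl ⟨j, h⟩
    · exact Or.inr (Or.inl ⟨h.1.2, h.2⟩)
    · exact Or.inr (Or.inr (Or.inl ⟨j, h⟩))
    · exact Or.inr (Or.inr (Or.inr ⟨j, h⟩))
  · rintro (⟨j, h⟩ | ⟨h1, h2⟩ | ⟨j, h⟩ | ⟨j, h⟩)
    · exact ⟨_, ⟨j, rfl⟩, mem_stp.mpr (Or.inl h)⟩
    · exact ⟨_, ⟨⟨w, by omega⟩, rfl⟩, mem_stp.mpr (Or.inr (Or.inl ⟨⟨rfl, h1⟩, h2⟩))⟩
    · exact ⟨_, ⟨j, rfl⟩, mem_stp.mpr (Or.inr (Or.inr (Or.inl h)))⟩
    · exact ⟨_, ⟨j, rfl⟩, mem_stp.mpr (Or.inr (Or.inr (Or.inr h)))⟩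

theorem nodup_strand (z : Tm a → Bool) (t : Tm a) (c : ℕ → Bool) :
    (strand (w := w) (B := B) z t c).Nodup := by
  rw [strand, List.nodup_flatten]
  constructor
  · intro l hl
    rw [List.mem_ofFn] at hl
    obtain ⟨t, rfl⟩ := hl
    exact nodup_stp _ _ _ _
  · rw [List.pairwise_ofFn]
    intro j j' hjj v h1 h2
    have hne : j.val ≠ j'.val := fun h => absurd (Fin.ext h) (ne_of_lt hjj)
    rcases mem_stp.mp h1 with rfl | ⟨⟨h3, _⟩, p, rfl⟩ | rfl | rfl <;>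
    rcases mem_stp.mp h2 with h | ⟨⟨h4, _⟩, p', h⟩ | h | h
    all_goals first
      | exact hne (by omega)
      | (exfalso; simp only [reduceCtorEq] at h)
      | (simp only [Vb.I.injEq, Vb.O.injEq, Vb.M.injEq, true_and] at h
         exact hne (congrArg Fin.val h.1))

theorem mem_braid {y : Tm a × Fin w → Bool} {z : Tm a → Bool} {t : Tm a} {v : Vb a w B} :
    v ∈ braid y z t ↔ (∃ j β, v = .I t j β) ∨ (∃ p, v = .g (rz z t.1) t.2.castSucc p) ∨
      (∃ j β, v = .O t j β) ∨ (∃ j β, v = .M t j β) := by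
  rw [braid, List.mem_append, mem_strand, mem_strand]
  constructor
  · rintro ((⟨j, h⟩ | ⟨_, h2⟩ | ⟨j, h⟩ | ⟨j, h⟩) | (⟨j, h⟩ | ⟨_, h2⟩ | ⟨j, h⟩ | ⟨j, h⟩))
    · exact Or.inl ⟨_, _, h⟩
    · exact Or.inr (Or.inl h2)
    · exact Or.inr (Or.inr (Or.inl ⟨_, _, h⟩))
    · exact Or.inr (Or.inr (Or.inr ⟨_, _, h⟩))
    · exact Or.inl ⟨_, _, h⟩
    · exact Or.inr (Or.inl h2)
    · exact Or.inr (Or.inr (Or.inl ⟨_, _, h⟩))
    · exact Or.inr (Or.inr (Or.inr ⟨_, _, h⟩))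
  · have key : ∀ (b β : Bool), β = b ∨ β = !b := by decide
    rintro (⟨j, β, rfl⟩ | h | ⟨j, β, rfl⟩ | ⟨j, β, rfl⟩)
    · rcases key (pp (crs y z t) j.val) β with h | h
      · exact Or.inl (Or.inl ⟨j, by rw [h]⟩)
      · exact Or.inr (Or.inl ⟨j, by rw [h]⟩)
    · cases h1 : pp (crs y z t) w
      · exact Or.inl (Or.inr (Or.inl ⟨rfl, h⟩))
      · exact Or.inr (Or.inr (Or.inl ⟨rfl, h⟩))
    · rcases key (pp (crs y z t) (j.val + 1)) β with h | h
      · exact Or.inl (Or.inr (Or.inr (Or.inl ⟨j, by rw [h]⟩)))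
      · exact Or.inr (Or.inr (Or.inr (Or.inl ⟨j, by rw [h]⟩)))
    · rcases key (pp (crs y z t) (j.val + 1)) β with h | h
      · exact Or.inl (Or.inr (Or.inr (Or.inr ⟨j, by rw [h]⟩)))
      · exact Or.inr (Or.inr (Or.inr (Or.inr ⟨j, by rw [h]⟩)))

theorem nodup_braid (y : Tm a × Fin w → Bool) (z : Tm a → Bool) (t : Tm a) :
    (braid (B := B) y z t).Nodup := by
  rw [braid, List.nodup_append]
  refine ⟨nodup_strand _ _ _, nodup_strand _ _ _, ?_⟩
  intro v hv v' hv' he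
  subst he
  rw [mem_strand] at hv hv'
  have key : ∀ b : Bool, b ≠ !b := by decide
  rcases hv with ⟨j, rfl⟩ | ⟨h1, p, rfl⟩ | ⟨j, rfl⟩ | ⟨j, rfl⟩
  · rcases hv' with ⟨j', h⟩ | ⟨_, p', h⟩ | ⟨j', h⟩ | ⟨j', h⟩
    · simp only [Vb.I.injEq, true_and] at h
      obtain ⟨rfl, h⟩ := h
      exact key _ h
    · simp at h
    · simp at h
    · simp at h
  · rcases hv' with ⟨j', h⟩ | ⟨h2, p', h⟩ | ⟨j', h⟩ | ⟨j', h⟩
    · simp at h
    · rw [h1] at h2
      simp at h2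
    · simp at h
    · simp at h
  · rcases hv' with ⟨j', h⟩ | ⟨_, p', h⟩ | ⟨j', h⟩ | ⟨j', h⟩
    · simp at h
    · simp at h
    · simp only [Vb.O.injEq, true_and] at h
      obtain ⟨rfl, h⟩ := h
      exact key _ h
    · simp at h
  · rcases hv' with ⟨j', h⟩ | ⟨_, p', h⟩ | ⟨j', h⟩ | ⟨j', h⟩
    · simp at h
    · simp at h
    · simp at h
    · simp only [Vb.M.injEq, true_and] at h
      obtain ⟨rfl, h⟩ := h
      exact key _ h

theorem mem_tabl {z : Tm a → Bool} {v : Vb a w B} :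
    v ∈ tabl z ↔ ∃ d p, v = .g (rz z d) (Fin.last a) p := by
  rw [tabl, List.mem_append, mem_ckl, mem_ckl]
  constructor
  · rintro (⟨p, h⟩ | ⟨p, h⟩)
    · exact ⟨_, p, h⟩
    · exact ⟨_, p, h⟩
  · rintro ⟨d, p, h⟩
    cases d
    · exact Or.inl ⟨p, h⟩
    · exact Or.inr ⟨p, h⟩

theorem nodup_tabl (z : Tm a → Bool) : (tabl (w := w) (B := B) z).Nodup := by
  rw [tabl, List.nodup_append]
  refine ⟨nodup_ckl _ _, nodup_ckl _ _, ?_⟩
  intro v hv v' hv' he
  rw [mem_ckl] at hv hv'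
  obtain ⟨p, rfl⟩ := hv
  obtain ⟨p', rfl⟩ := hv'
  simp [rz] at he

end

end Pool.Agent.V7H70.Fml
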