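import Pool.Agent.V7H70.Fml.BraidB

/-!
# The Hamilton cycle of the braid graph
-/

set_option autoImplicit false

namespace Pool.Agent.V7H70.Fml

open List
open Pool.Agent.V7H70.Ham (gad ord mem_ord)

section

variable {a w B R : ℕ} (ix : Rw a → ℕ) (cd : Tm a → ℕ) (A : (Tm a → Bool) → Bool)
  (y : Tm a × Fin w → Bool)

theorem chain_rowc (r : Rw a) (κ : Fin (a + 1)) : (rowc (B := B) r κ).IsChain (E ix cd A y) := by
  rw [rowc, List.isChain_ofFn]
  intro i hi
  simp only [E]
  exact Or.inl ⟨trivial, trivial, Or.inl rfl⟩

theorem chain_rowp (r : Rw a) : (rowp (B := B) r).IsChain (E ix cd A y) := by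
  rw [rowp, List.isChain_flatten]
  · constructor
    · intro l hl
      rw [List.mem_ofFn] at hl
      obtain ⟨t, rfl⟩ := hl
      exact chain_rowc ix cd A y r t
    · rw [List.isChain_ofFn]
      intro i hi v hv w hw
      rw [rowc_eq] at hv hw
      simp only [List.getLast?_cons_cons, List.getLast?_singleton, Option.mem_def,
        Option.some.injEq, List.head?_cons] at hv hw
      subst hv
      subst hw
      simp only [E]
      exact Or.inr (Or.inl ⟨trivial, trivial, trivial, trivial⟩)
  · rw [List.mem_ofFn]
    rintro ⟨t, ht⟩
    rw [rowc_eq] at ht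
    simp at ht

theorem head_rowp (r : Rw a) :
    (rowp (w := w) (B := B) r).head? = some (.g r ⟨0, by omega⟩ 0) := by
  rw [rowp, List.ofFn_succ, List.flatten_cons, rowc_eq]
  rfl

theorem last_rowp (r : Rw a) :
    (rowp (w := w) (B := B) r).getLast? = some (.g r ⟨a, by omega⟩ 8) := by
  rw [rowp, List.ofFn_succ', List.concat_eq_append, List.flatten_append, List.flatten_singleton,
    List.getLast?_append_of_ne_nil _ (by rw [rowc_eq]; simp), rowc_eq]
  rfl

theorem chain_ckl (r : Rw a) (κ : Fin (a + 1)) : (ckl (B := B) r κ).IsChain (E ix cd A y) := by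
  have hg : ∀ (g g' : Fin 9), gad g g' →
      E ix cd A y (.g r κ g : Vb a w B) (.g r κ g') := by
    intro g g' h
    simp only [E]
    exact Or.inl ⟨trivial, trivial, h⟩
  rw [ckl_eq]
  simp only [List.isChain_cons_cons, List.isChain_singleton, and_true]
  exact ⟨hg _ _ (Or.inl rfl), hg _ _ (Or.inl rfl), hg _ _ (Or.inr (Or.inl ⟨rfl, rfl⟩)),
    hg _ _ (Or.inl rfl), hg _ _ (Or.inl rfl), hg _ _ (Or.inr (Or.inr ⟨rfl, rfl⟩)),
    hg _ _ (Or.inl rfl), hg _ _ (Or.inl rfl)⟩

theorem chain_stp {z : Tm a → Bool} {t : Tm a} {c : ℕ → Bool}
    (hc : ∀ j, c (j + 1) = xor (c j) (crs y z t j)) (j : Fin (w + 1)) :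
    (stp (B := B) z t c j).IsChain (E ix cd A y) := by
  have hlast : E ix cd A y (.O t j (c (j.val + 1)) : Vb a w B) (.M t j (c (j.val + 1))) := by
    simp only [E]
    exact ⟨trivial, trivial, trivial⟩
  rw [stp]
  split_ifs with h
  · have hcw : c (w + 1) = z t := by
      rw [hc, h.2, Bool.false_xor]
      simp [crs]
    rw [List.isChain_cons]
    constructor
    · intro v hv
      rw [ckl_eq] at hv
      simp only [List.cons_append, List.head?_cons, Option.mem_def, Option.some.injEq] at hv
      subst hv
      simp only [E]
      exact ⟨trivial, h.1, by rw [h.1]; exact h.2, rfl, rfl⟩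
    · rw [List.isChain_append]
      refine ⟨chain_ckl _ _ _ _ _ _, ?_, ?_⟩
      · simp only [List.isChain_cons_cons, List.isChain_singleton, and_true]
        exact hlast
      · intro v hv v' hv'
        rw [ckl_eq] at hv
        simp only [List.getLast?_cons_cons, List.getLast?_singleton, Option.mem_def,
          Option.some.injEq, List.head?_cons] at hv hv'
        subst hv
        subst hv'
        simp only [E]
        refine ⟨trivial, h.1, rfl, rfl, ?_⟩
        rw [h.1, hcw]
        rfl
  · simp only [List.nil_append, List.isChain_cons_cons, List.isChain_singleton, and_true]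
    refine ⟨?_, hlast⟩
    simp only [E]
    refine ⟨trivial, trivial, ?_⟩
    cases hcj : c j.val
    · right
      have hj : j.val < w := by
        by_contra hno
        have := j.2
        have hjw : j.val = w := by omega
        exact h ⟨hjw, by rw [← hjw]; exact hcj⟩
      refine ⟨hj, ?_⟩
      rw [hc, hcj, Bool.false_xor]
      simp [crs, hj]
    · exact Or.inl rfl

theorem head_stp (z : Tm a → Bool) (t : Tm a) (c : ℕ → Bool) (j : Fin (w + 1)) :
    (stp (B := B) z t c j).head? = some (.I t j (c j.val)) := rfl

theorem last_stp (z : Tm a → Bool) (t : Tm a) (c : ℕ → Bool) (j : Fin (w + 1)) :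
    (stp (B := B) z t c j).getLast? = some (.M t j (c (j.val + 1))) := by
  rw [stp]
  rw [← List.cons_append, List.getLast?_append_of_ne_nil _ (by simp)]
  rfl

theorem stp_ne (z : Tm a → Bool) (t : Tm a) (c : ℕ → Bool) (j : Fin (w + 1)) :
    stp (B := B) z t c j ≠ [] := by
  rw [stp]; simp

theorem chain_strand {z : Tm a → Bool} {t : Tm a} {c : ℕ → Bool}
    (hc : ∀ j, c (j + 1) = xor (c j) (crs y z t j)) :
    (strand (w := w) (B := B) z t c).IsChain (E ix cd A y) := by
  rw [strand, List.isChain_flatten]
  · constructor
    · intro l hl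
      rw [List.mem_ofFn] at hl
      obtain ⟨j, rfl⟩ := hl
      exact chain_stp ix cd A y hc j
    · rw [List.isChain_ofFn]
      intro i hi v hv w hw
      rw [last_stp] at hv
      rw [head_stp] at hw
      simp only [Option.mem_def, Option.some.injEq] at hv hw
      subst hv
      subst hw
      simp only [E]
      exact ⟨trivial, Or.inl ⟨trivial, trivial⟩⟩
  · rw [List.mem_ofFn]
    rintro ⟨t, ht⟩
    exact stp_ne _ _ _ _ ht

theorem head_strand (z : Tm a → Bool) (t : Tm a) (c : ℕ → Bool) :
    (strand (w := w) (B := B) z t c).head? = some (.I t ⟨0, by omega⟩ (c 0)) := by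
  rw [strand, List.ofFn_succ, List.flatten_cons, List.head?_append_of_ne_nil _ (stp_ne _ _ _ _),
    head_stp]
  rfl

theorem last_strand (z : Tm a → Bool) (t : Tm a) (c : ℕ → Bool) :
    (strand (w := w) (B := B) z t c).getLast? = some (.M t ⟨w, by omega⟩ (c (w + 1))) := by
  rw [strand, List.ofFn_succ', List.concat_eq_append, List.flatten_append, List.flatten_singleton,
    List.getLast?_append_of_ne_nil _ (stp_ne _ _ _ _), last_stp]
  rfl

theorem strand_ne (z : Tm a → Bool) (t : Tm a) (c : ℕ → Bool) :
    strand (w := w) (B := B) z t c ≠ [] := by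
  intro h
  have := head_strand (w := w) (B := B) z t c
  rw [h] at this
  simp at this

section

variable {y} {z : Tm a → Bool} (hz : ∀ t, z t = par (fun i => y (t, i)))

include hz

theorem pp_last (t : Tm a) : pp (crs y z t) (w + 1) = false := by
  have h1 : pp (crs y z t) w = par (fun i => y (t, i)) := by
    unfold par
    refine pp_congr fun j hj => ?_
    simp [crs, ext0, hj]
  have h2 : crs y z t w = z t := by simp [crs]
  rw [pp, h1, h2, hz t]
  cases par (fun i => y (t, i)) <;> rfl

theorem chain_braid (t : Tm a) : (braid (B := B) y z t).IsChain (E ix cd A y) := by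
  rw [braid, List.isChain_append]
  refine ⟨chain_strand ix cd A y (fun j => rfl), chain_strand ix cd A y (fun j => ?_), ?_⟩
  · rw [pp]
    cases pp (crs y z t) j <;> cases crs y z t j <;> rfl
  · intro v hv v' hv'
    rw [last_strand, pp_last hz] at hv
    rw [head_strand] at hv'
    simp only [Option.mem_def, Option.some.injEq] at hv hv'
    subst hv
    subst hv'
    simp only [E]
    exact ⟨trivial, Or.inr ⟨trivial, trivial, trivial, rfl⟩⟩

omit hz in
theorem head_braid (t : Tm a) :
    (braid (B := B) y z t).head? = some (.I t ⟨0, by omega⟩ false) := by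
  rw [braid, List.head?_append_of_ne_nil _ (strand_ne _ _ _), head_strand]
  rfl

theorem last_braid (t : Tm a) :
    (braid (B := B) y z t).getLast? = some (.M t ⟨w, by omega⟩ true) := by
  rw [braid, List.getLast?_append_of_ne_nil _ (strand_ne _ _ _), last_strand, pp_last hz]
  rfl

end

theorem joint_rz (z : Tm a → Bool) : joint (rz z false).2 (rz z true).2 = z := by
  funext t
  obtain ⟨d, i⟩ := t
  cases d <;> rfl

theorem chain_tabl {z : Tm a → Bool} (hA : A z = true) :
    (tabl (B := B) z).IsChain (E ix cd A y) := by
  rw [tabl, List.isChain_append]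
  refine ⟨chain_ckl _ _ _ _ _ _, chain_ckl _ _ _ _ _ _, ?_⟩
  intro v hv v' hv'
  rw [ckl_eq] at hv hv'
  simp only [List.getLast?_cons_cons, List.getLast?_singleton, Option.mem_def,
    Option.some.injEq, List.head?_cons] at hv hv'
  subst hv
  subst hv'
  simp only [E]
  refine Or.inr (Or.inr ⟨rfl, rfl, rfl, rfl, trivial, trivial, ?_⟩)
  rw [joint_rz]
  exact hA

theorem head_tabl (z : Tm a → Bool) :
    (tabl (w := w) (B := B) z).head? = some (.g (rz z false) (Fin.last a) 6) := by
  rw [tabl, ckl_eq]
  rfl

theorem last_tabl (z : Tm a → Bool) :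
    (tabl (w := w) (B := B) z).getLast? = some (.g (rz z true) (Fin.last a) 2) := by
  rw [tabl, List.getLast?_append_of_ne_nil _ (by rw [ckl_eq]; simp), ckl_eq]
  rfl

end

/-! ### the cycle -/

section

variable {a w B R : ℕ} (ix : Rw a ≃ Fin R) (cd : Tm a ≃ Fin (2 * a))
  (y : Tm a × Fin w → Bool) (z : Tm a → Bool)

open Classical in
/-- the segments between the spine vertices -/
noncomputable def seg (i : ℕ) : List (Vb a w B) :=
  if h : i < R then
    (if ix.symm ⟨i, h⟩ = rz z (ix.symm ⟨i, h⟩).1 then [] else rowp (ix.symm ⟨i, h⟩))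
  else if h : B ≤ i ∧ i < B + 2 * a then braid y z (cd.symm ⟨i - B, by omega⟩)
  else if i = B + 2 * a then tabl z
  else []

theorem seg_sel {i : ℕ} {r : Rw a} (hi : i = (ix r).val) (h : r = rz z r.1) :
    seg (B := B) ix cd y z i = [] := by
  subst hi
  rw [seg, dif_pos (ix r).2]
  simp only [Fin.eta, Equiv.symm_apply_apply]
  rw [if_pos h]

theorem seg_row {i : ℕ} {r : Rw a} (hi : i = (ix r).val) (h : r ≠ rz z r.1) :
    seg (B := B) ix cd y z i = rowp r := by
  subst hi
  rw [seg, dif_pos (ix r).2]
  simp only [Fin.eta, Equiv.symm_apply_apply]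
  rw [if_neg h]

theorem seg_mid {i : ℕ} (h1 : R ≤ i) (h2 : i < B) : seg (B := B) ix cd y z i = [] := by
  rw [seg, dif_neg (by omega), dif_neg (by omega), if_neg (by omega)]

theorem seg_blk {i : ℕ} {t : Tm a} (hR : R ≤ B) (hi : i = B + (cd t).val) :
    seg (B := B) ix cd y z i = braid y z t := by
  subst hi
  have := (cd t).2
  rw [seg, dif_neg (by omega), dif_pos (by omega)]
  congr 1
  have e : (⟨B + (cd t).val - B, by omega⟩ : Fin (2 * a)) = cd t := Fin.ext (by simp)
  rw [e, Equiv.symm_apply_apply]

theorem seg_tab {i : ℕ} (hR : R ≤ B) (hi : i = B + 2 * a) :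
    seg (B := B) ix cd y z i = tabl z := by
  rw [seg, dif_neg (by omega), dif_neg (by omega), if_pos hi]

theorem seg_last {i : ℕ} (hR : R ≤ B) (hi : i = B + 2 * a + 1) :
    seg (B := B) ix cd y z i = [] := by
  rw [seg, dif_neg (by omega), dif_neg (by omega), if_neg (by omega)]

theorem cases_spine (i : Fin (B + 2 * a + 2)) : (∃ r, i.val = (ix r).val) ∨
    (R ≤ i.val ∧ i.val < B) ∨ (R ≤ i.val ∧ ∃ t, i.val = B + (cd t).val) ∨
      (R ≤ i.val ∧ i.val = B + 2 * a) ∨ (R ≤ i.val ∧ i.val = B + 2 * a + 1) := by
  by_cases h1 : i.val < R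
  · left
    exact ⟨ix.symm ⟨i.val, h1⟩, by rw [Equiv.apply_symm_apply]⟩
  · right
    by_cases h2 : i.val < B
    · left; omega
    · right
      by_cases h3 : i.val < B + 2 * a
      · left
        refine ⟨by omega, cd.symm ⟨i.val - B, by omega⟩, ?_⟩
        rw [Equiv.apply_symm_apply]
        simp only
        omega
      · right
        have := i.2
        omega

open Classical in
/-- the position of a vertex -/
noncomputable def pos : Vb a w B → ℕ
  | .sp i => i.val
  | .g r κ _ => if r = rz z r.1 then
      (if h : κ.val < a then B + (cd (r.1, ⟨κ.val, h⟩)).val else B + 2 * a) else (ix r).val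
  | .I t _ _ => B + (cd t).val
  | .O t _ _ => B + (cd t).val
  | .M t _ _ => B + (cd t).val

theorem pos_lt (hR : R ≤ B) (v : Vb a w B) : pos ix cd z v < B + 2 * a + 2 := by
  cases v with
  | sp i => exact i.2
  | g r κ p =>
    simp only [pos]
    have := (ix r).2
    split_ifs with h1 h2
    · have := (cd (r.1, ⟨κ.val, h2⟩)).2
      omega
    · omega
    · omega
  | I t j β =>
    simp only [pos]
    have := (cd t).2
    omega
  | O t j β =>
    simp only [pos]
    have := (cd t).2
    omega
  | M t j β =>
    simp only [pos]
    have := (cd t).2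
    omega

theorem mem_iff (hR : R ≤ B) (i : Fin (B + 2 * a + 2)) (v : Vb a w B) :
    v ∈ (.sp i : Vb a w B) :: seg ix cd y z i.val ↔ pos ix cd z v = i.val := by
  classical
  rw [List.mem_cons]
  rcases cases_spine (B := B) ix cd i with ⟨r', hr⟩ | ⟨h1, h2⟩ | ⟨h1, t', ht⟩ | ⟨h1, h2⟩ | ⟨h1, h2⟩
  · have hr' := (ix r').2
    by_cases hs : r' = rz z r'.1
    · rw [seg_sel ix cd y z hr hs]
      simp only [List.not_mem_nil, or_false]
      cases v with
      | sp i' => simp only [Vb.sp.injEq, pos]; exact Fin.ext_iff
      | g r κ p =>
        simp only [reduceCtorEq, pos, false_iff]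
        split_ifs with h3 h4
        · omega
        · omega
        · intro h
          have : r = r' := ix.injective (Fin.ext (by omega))
          exact h3 (this ▸ hs)
      | I t j β => simp only [reduceCtorEq, pos, false_iff]; omega
      | O t j β => simp only [reduceCtorEq, pos, false_iff]; omega
      | M t j β => simp only [reduceCtorEq, pos, false_iff]; omega
    · rw [seg_row ix cd y z hr hs, mem_rowp]
      cases v with
      | sp i' =>
        simp only [Vb.sp.injEq, pos, reduceCtorEq, exists_false, or_false]
        exact Fin.ext_iff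
      | g r κ p =>
        simp only [reduceCtorEq, pos, false_or]
        constructor
        · rintro ⟨κ', p', h⟩
          simp only [Vb.g.injEq] at h
          obtain ⟨rfl, _⟩ := h
          rw [if_neg hs, hr]
        · intro h
          split_ifs at h with h3 h4
          · omega
          · omega
          · have : r = r' := ix.injective (Fin.ext (by omega))
            exact ⟨κ, p, by rw [this]⟩
      | I t j β => simp only [reduceCtorEq, pos, exists_false, or_false, false_iff]; omega
      | O t j β => simp only [reduceCtorEq, pos, exists_false, or_false, false_iff]; omega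
      | M t j β => simp only [reduceCtorEq, pos, exists_false, or_false, false_iff]; omega
  · rw [seg_mid ix cd y z h1 h2]
    simp only [List.not_mem_nil, or_false]
    cases v with
    | sp i' => simp only [Vb.sp.injEq, pos]; exact Fin.ext_iff
    | g r κ p =>
      simp only [reduceCtorEq, pos, false_iff]
      have := (ix r).2
      split_ifs with h3 h4 <;> omega
    | I t j β => simp only [reduceCtorEq, pos, false_iff]; omega
    | O t j β => simp only [reduceCtorEq, pos, false_iff]; omega
    | M t j β => simp only [reduceCtorEq, pos, false_iff]; omega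
  · rw [seg_blk ix cd y z hR ht, mem_braid]
    have ht' := (cd t').2
    cases v with
    | sp i' =>
      simp only [Vb.sp.injEq, pos, reduceCtorEq, exists_false, or_false]
      exact Fin.ext_iff
    | g r κ p =>
      simp only [reduceCtorEq, pos, exists_false, or_false, false_or, Vb.g.injEq]
      have hr := (ix r).2
      constructor
      · rintro ⟨p', h3, h4, _⟩
        have h5 : r.1 = t'.1 := by rw [h3]; rfl
        have h6 : r = rz z r.1 := by rw [h5]; exact h3
        have h7 : κ.val = t'.2.val := by rw [h4]; rfl
        have h8 := t'.2.2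
        rw [if_pos h6, dif_pos (by omega), ht]
        have : (r.1, (⟨κ.val, by omega⟩ : Fin a)) = t' := Prod.ext h5 (Fin.ext h7)
        rw [this]
      · intro h
        split_ifs at h with h3 h4
        · have h5 : (r.1, (⟨κ.val, h4⟩ : Fin a)) = t' := cd.injective (Fin.ext (by omega))
          rw [← h5]
          exact ⟨p, h3, Fin.ext rfl, rfl⟩
        · omega
        · omega
    | I t j β =>
      simp only [reduceCtorEq, pos, exists_false, or_false, false_or, Vb.I.injEq]
      constructor
      · rintro ⟨j', β', rfl, _⟩
        exact ht.symm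
      · intro h
        have : t = t' := cd.injective (Fin.ext (by omega))
        exact ⟨j, β, this, rfl, rfl⟩
    | O t j β =>
      simp only [reduceCtorEq, pos, exists_false, or_false, false_or, Vb.O.injEq]
      constructor
      · rintro ⟨j', β', rfl, _⟩
        exact ht.symm
      · intro h
        have : t = t' := cd.injective (Fin.ext (by omega))
        exact ⟨j, β, this, rfl, rfl⟩
    | M t j β =>
      simp only [reduceCtorEq, pos, exists_false, or_false, false_or, Vb.M.injEq]
      constructor
      · rintro ⟨j', β', rfl, _⟩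
        exact ht.symm
      · intro h
        have : t = t' := cd.injective (Fin.ext (by omega))
        exact ⟨j, β, this, rfl, rfl⟩
  · rw [seg_tab ix cd y z hR h2, mem_tabl]
    cases v with
    | sp i' =>
      simp only [Vb.sp.injEq, pos, reduceCtorEq, exists_false, or_false]
      exact Fin.ext_iff
    | g r κ p =>
      simp only [reduceCtorEq, pos, false_or, Vb.g.injEq]
      have hr := (ix r).2
      constructor
      · rintro ⟨d, p', h3, h4, _⟩
        have h5 : r.1 = d := by rw [h3]; rfl
        have h6 : r = rz z r.1 := by rw [h5]; exact h3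
        have h7 : κ.val = a := by rw [h4]; rfl
        rw [if_pos h6, dif_neg (by omega), h2]
      · intro h
        split_ifs at h with h3 h4
        · have := (cd (r.1, ⟨κ.val, h4⟩)).2
          omega
        · exact ⟨r.1, p, h3, Fin.ext (by have := κ.2; simp only [Fin.val_last]; omega), rfl⟩
        · omega
    | I t j β =>
      simp only [reduceCtorEq, pos, exists_false, or_false, false_iff]
      have := (cd t).2
      omega
    | O t j β =>
      simp only [reduceCtorEq, pos, exists_false, or_false, false_iff]
      have := (cd t).2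
      omega
    | M t j β =>
      simp only [reduceCtorEq, pos, exists_false, or_false, false_iff]
      have := (cd t).2
      omega
  · rw [seg_last ix cd y z hR h2]
    simp only [List.not_mem_nil, or_false]
    cases v with
    | sp i' => simp only [Vb.sp.injEq, pos]; exact Fin.ext_iff
    | g r κ p =>
      simp only [reduceCtorEq, pos, false_iff]
      have := (ix r).2
      split_ifs with h3 h4
      · have := (cd (r.1, ⟨κ.val, h4⟩)).2
        omega
      · omega
      · omega
    | I t j β =>
      simp only [reduceCtorEq, pos, false_iff]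
      have := (cd t).2
      omega
    | O t j β =>
      simp only [reduceCtorEq, pos, false_iff]
      have := (cd t).2
      omega
    | M t j β =>
      simp only [reduceCtorEq, pos, false_iff]
      have := (cd t).2
      omega

end

end Pool.Agent.V7H70.Fml
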