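import Pool.Agent.V7H70.Fml.Hard
import Pool.Agent.V7H70.Ham.Final

/-!
# Averaging over the relabellings of a graph
-/

set_option autoImplicit false

namespace Pool.Agent.V7H70.Fml

open Finset H568R2 Pool.Agent.H676

section

variable {ι V : Type}

/-- the value of a literal or constant -/
def lv (x : V → Bool) : Bool ⊕ (V × Bool) → Bool
  | .inl b => b
  | .inr (v, b) => xor (x v) b

open Classical in
/-- the number of leaves that read a variable that is not constant -/
noncomputable def Formula.touch (sub : ι → Bool ⊕ (V × Bool)) : Formula ι → ℕ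
  | .leaf s _ _ => if ∃ i ∈ s, (sub i).isRight = true then 1 else 0
  | .not F => F.touch sub
  | .and F G => F.touch sub + G.touch sub
  | .or F G => F.touch sub + G.touch sub

theorem touch_fc {k : ℕ} (sub : ι → Bool ⊕ (V × Bool)) : ∀ (F : Formula ι), F.Local k →
    FC k (F.touch sub) (fun x => F.eval (fun i => lv x (sub i))) ∧
      FC k (F.touch sub) (fun x => !F.eval (fun i => lv x (sub i))) := by
  classical
  intro F
  induction F with
  | leaf s f h =>
    intro hk
    simp only [Formula.Local] at hk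
    simp only [Formula.touch, Formula.eval]
    split_ifs with ht
    · have hj : ∀ x y : V → Bool, (∀ v ∈ s.biUnion (fun i => match sub i with
          | .inl _ => (∅ : Finset V)
          | .inr (v, _) => {v}), x v = y v) →
          f (fun i => lv x (sub i)) = f (fun i => lv y (sub i)) := by
        intro x y hxy
        refine h _ _ fun i hi => ?_
        cases hs : sub i with
        | inl b => rfl
        | inr p =>
          obtain ⟨v, b⟩ := p
          simp only [lv]
          rw [hxy v (mem_biUnion.mpr ⟨i, hi, by rw [hs]; simp⟩)]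
      have hc : (s.biUnion (fun i => match sub i with
          | .inl _ => (∅ : Finset V)
          | .inr (v, _) => {v})).card ≤ k := by
        refine (card_biUnion_le).trans ((sum_le_card_nsmul _ _ 1 ?_).trans (by simpa using hk))
        intro i _
        cases sub i with
        | inl b => simp
        | inr p => simp
      exact ⟨Or.inr ⟨1, le_rfl, FP.leaf ⟨_, hc, hj⟩⟩,
        Or.inr ⟨1, le_rfl, FP.leaf ⟨_, hc, fun x y hxy => congrArg _ (hj x y hxy)⟩⟩⟩
    · push Not at ht
      have hcst : ∀ x : V → Bool, f (fun i => lv x (sub i)) =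
          f (fun i => lv (fun _ => false) (sub i)) := by
        intro x
        refine h _ _ fun i hi => ?_
        have := ht i hi
        cases hs : sub i with
        | inl b => rfl
        | inr p => rw [hs] at this; simp at this
      exact ⟨Or.inl ⟨_, funext hcst⟩, Or.inl ⟨_, funext fun x => congrArg _ (hcst x)⟩⟩
  | not F ih =>
    intro hk
    obtain ⟨h1, h2⟩ := ih hk
    refine ⟨h2, ?_⟩
    simp only [Formula.touch, Formula.eval, Bool.not_not]
    exact h1
  | and F G ih1 ih2 =>
    intro hk
    obtain ⟨h1, h2⟩ := ih1 hk.1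
    obtain ⟨h3, h4⟩ := ih2 hk.2
    simp only [Formula.touch, Formula.eval, Bool.not_and]
    exact ⟨h1.and h3, h2.or h4⟩
  | or F G ih1 ih2 =>
    intro hk
    obtain ⟨h1, h2⟩ := ih1 hk.1
    obtain ⟨h3, h4⟩ := ih2 hk.2
    simp only [Formula.touch, Formula.eval, Bool.not_or]
    exact ⟨h1.or h3, h2.and h4⟩

/-- averaging -/
theorem touch_avg {k : ℕ} {Ω : Type} [Fintype Ω] (sub : Ω → ι → Bool ⊕ (V × Bool)) (c : ℕ)
    (hc : ∀ i, (univ.filter fun σ : Ω => (sub σ i).isRight = true).card ≤ c) :
    ∀ (F : Formula ι), F.Local k → ∑ σ, F.touch (sub σ) ≤ F.leaves * (k * c) := by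
  classical
  intro F
  induction F with
  | leaf s f h =>
    intro hk
    simp only [Formula.Local] at hk
    simp only [Formula.touch, Formula.leaves, one_mul]
    calc ∑ σ : Ω, (if ∃ i ∈ s, (sub σ i).isRight = true then 1 else 0)
        ≤ ∑ σ : Ω, ∑ i ∈ s, (if (sub σ i).isRight = true then 1 else 0) := by
          refine sum_le_sum fun σ _ => ?_
          split_ifs with h1
          · obtain ⟨i, hi, h2⟩ := h1
            have h3 := single_le_sum (f := fun i => if (sub σ i).isRight = true then 1 else 0)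
              (fun j _ => Nat.zero_le _) hi
            simp only [if_pos h2] at h3
            exact h3
          · exact Nat.zero_le _
      _ = ∑ i ∈ s, ∑ σ : Ω, (if (sub σ i).isRight = true then 1 else 0) := sum_comm
      _ = ∑ i ∈ s, (univ.filter fun σ : Ω => (sub σ i).isRight = true).card := by
          refine sum_congr rfl fun i _ => ?_
          rw [card_filter]
      _ ≤ ∑ i ∈ s, c := sum_le_sum fun i _ => hc i
      _ = s.card * c := by rw [sum_const, smul_eq_mul]
      _ ≤ k * c := Nat.mul_le_mul_right _ hk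
  | not F ih => intro hk; exact ih hk
  | and F G ih1 ih2 =>
    intro hk
    have h1 := ih1 hk.1
    have h2 := ih2 hk.2
    simp only [Formula.touch, Formula.leaves, sum_add_distrib, add_mul]
    exact add_le_add h1 h2
  | or F G ih1 ih2 =>
    intro hk
    have h1 := ih1 hk.1
    have h2 := ih2 hk.2
    simp only [Formula.touch, Formula.leaves, sum_add_distrib, add_mul]
    exact add_le_add h1 h2

end

/-! ### permutations -/

section

variable {n : ℕ}

theorem two_trans {a b c d : Fin n} (hab : a ≠ b) (hcd : c ≠ d) :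
    ∃ τ : Equiv.Perm (Fin n), τ a = c ∧ τ b = d := by
  refine ⟨Equiv.swap (Equiv.swap a c b) d * Equiv.swap a c, ?_, ?_⟩
  · rw [Equiv.Perm.mul_apply, Equiv.swap_apply_left]
    refine Equiv.swap_apply_of_ne_of_ne ?_ hcd
    intro h
    have h1 : Equiv.swap a c a = Equiv.swap a c b := by rw [Equiv.swap_apply_left]; exact h
    exact hab ((Equiv.swap a c).injective h1)
  · rw [Equiv.Perm.mul_apply, Equiv.swap_apply_left]

open Classical in
theorem perm_count (P : Fin n → Fin n → Prop) {a b : Fin n} (hab : a ≠ b) :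
    (univ.filter fun σ : Equiv.Perm (Fin n) => P (σ a) (σ b)).card * (n * (n - 1)) ≤
      Fintype.card (Equiv.Perm (Fin n)) *
        (univ.filter fun p : Fin n × Fin n => P p.1 p.2).card := by
  have h1 : ∀ p ∈ (univ : Finset (Fin n)).offDiag,
      (univ.filter fun σ : Equiv.Perm (Fin n) => P (σ p.1) (σ p.2)).card =
      (univ.filter fun σ : Equiv.Perm (Fin n) => P (σ a) (σ b)).card := by
    intro p hp
    rw [mem_offDiag] at hp
    obtain ⟨τ, h2, h3⟩ := two_trans hp.2.2 hab
    refine (card_bij (fun σ _ => σ * τ) ?_ ?_ ?_).symm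
    · intro σ hσ
      rw [mem_filter] at hσ ⊢
      refine ⟨mem_univ _, ?_⟩
      rw [Equiv.Perm.mul_apply, Equiv.Perm.mul_apply, h2, h3]
      exact hσ.2
    · intro σ _ σ' _ h
      exact mul_right_cancel h
    · intro σ hσ
      rw [mem_filter] at hσ
      refine ⟨σ * τ⁻¹, ?_, by simp⟩
      rw [mem_filter]
      refine ⟨mem_univ _, ?_⟩
      have h4 : τ⁻¹ a = p.1 := by rw [← h2]; simp
      have h5 : τ⁻¹ b = p.2 := by rw [← h3]; simp
      rw [Equiv.Perm.mul_apply, Equiv.Perm.mul_apply, h4, h5]
      exact hσ.2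
  have h2 : ∑ p ∈ (univ : Finset (Fin n)).offDiag,
      (univ.filter fun σ : Equiv.Perm (Fin n) => P (σ p.1) (σ p.2)).card =
      (univ.filter fun σ : Equiv.Perm (Fin n) => P (σ a) (σ b)).card * (n * (n - 1)) := by
    have e : n * n - n = n * (n - 1) := by rw [Nat.mul_sub, Nat.mul_one]
    rw [sum_congr rfl h1, sum_const, smul_eq_mul, offDiag_card, card_univ, Fintype.card_fin,
      Nat.mul_comm, e]
  rw [← h2]
  calc ∑ p ∈ (univ : Finset (Fin n)).offDiag,
      (univ.filter fun σ : Equiv.Perm (Fin n) => P (σ p.1) (σ p.2)).card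
      = ∑ p ∈ (univ : Finset (Fin n)).offDiag, ∑ σ : Equiv.Perm (Fin n),
        (if P (σ p.1) (σ p.2) then 1 else 0) := by
        refine sum_congr rfl fun p _ => ?_
        rw [card_filter]
    _ = ∑ σ : Equiv.Perm (Fin n), ∑ p ∈ (univ : Finset (Fin n)).offDiag,
        (if P (σ p.1) (σ p.2) then 1 else 0) := sum_comm
    _ ≤ ∑ _σ : Equiv.Perm (Fin n), (univ.filter fun p : Fin n × Fin n => P p.1 p.2).card := by
        refine sum_le_sum fun σ _ => ?_
        rw [← card_filter]
        refine card_le_card_of_injOn (fun p => (σ p.1, σ p.2)) ?_ ?_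
        · intro p hp
          simp only [coe_filter, Set.mem_ofPred_eq] at hp
          simp only [coe_filter, mem_univ, true_and, Set.mem_ofPred_eq]
          exact hp.2
        · intro p _ q _ h
          simp only [Prod.mk.injEq, EmbeddingLike.apply_eq_iff_eq] at h
          exact Prod.ext h.1 h.2
    _ = _ := by rw [sum_const, smul_eq_mul, card_univ]

end

/-- The relabelling step. -/
theorem relabel {n k Y : ℕ} {V : Type} (F : Formula {p : Fin n × Fin n // p.1 < p.2})
    (hF : F.Local k) (hham : ∀ x, F.eval x = true ↔ Ham.HamP n x)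
    (Γ : Fin n → Fin n → Bool ⊕ (V × Bool)) (hsymm : ∀ u v, Γ u v = Γ v u)
    (hY : ∀ S : Finset (Fin n × Fin n), (∀ p ∈ S, (Γ p.1 p.2).isRight = true) → S.card ≤ Y)
    (h : (V → Bool) → Bool)
    (hΓ : ∀ x, Ham.HamP n (fun p => lv x (Γ p.1.1 p.1.2)) ↔ h x = true) :
    ∃ s, s * (n * (n - 1)) ≤ F.leaves * k * Y ∧ FC k s h := by
  classical
  set sub : Equiv.Perm (Fin n) → {p : Fin n × Fin n // p.1 < p.2} → Bool ⊕ (V × Bool) :=
    fun σ p => Γ (σ p.1.1) (σ p.1.2) with hsub
  -- each relabelled instance computes `h`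
  have hval : ∀ σ x, F.eval (fun p => lv x (sub σ p)) = h x := by
    intro σ x
    rw [Bool.eq_iff_iff, hham, ← hΓ]
    have key : ∀ σ : Equiv.Perm (Fin n), ∀ u v, (SimpleGraph.fromRel (fun i j : Fin n =>
        ∃ h : i < j, lv x (sub σ ⟨(i, j), h⟩) = true)).Adj u v ↔
        (u ≠ v ∧ lv x (Γ (σ u) (σ v)) = true) := by
      intro σ u v
      rw [SimpleGraph.fromRel_adj]
      simp only [hsub, exists_prop]
      constructor
      · rintro ⟨h1, ⟨_, h2⟩ | ⟨_, h2⟩⟩
        · exact ⟨h1, h2⟩
        · exact ⟨h1, by rw [hsymm]; exact h2⟩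
      · rintro ⟨h1, h2⟩
        refine ⟨h1, ?_⟩
        rcases lt_or_gt_of_ne h1 with h3 | h3
        · exact Or.inl ⟨h3, h2⟩
        · exact Or.inr ⟨h3, by rw [hsymm]; exact h2⟩
    have iso : (SimpleGraph.fromRel (fun i j : Fin n =>
        ∃ h : i < j, lv x (sub σ ⟨(i, j), h⟩) = true)) ≃g (SimpleGraph.fromRel (fun i j : Fin n =>
        ∃ h : i < j, lv x (sub 1 ⟨(i, j), h⟩) = true)) := by
      refine ⟨σ, ?_⟩
      intro u v
      rw [key, key]
      simp
    have e1 : (fun p : {p : Fin n × Fin n // p.1 < p.2} => lv x (Γ p.1.1 p.1.2)) =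
        fun p => lv x (sub 1 p) := by
      funext p
      simp [hsub]
    rw [e1]
    exact ⟨fun h => Ham.iso_ham iso h, fun h => Ham.iso_ham iso.symm h⟩
  set D := Fintype.card (Equiv.Perm (Fin n)) with hD
  have hD0 : 0 < D := Fintype.card_pos
  by_cases hn : n * (n - 1) = 0
  · refine ⟨F.touch (sub 1), by rw [hn]; simp, ?_⟩
    have := (touch_fc (sub 1) F hF).1
    have e : (fun x => F.eval fun i => lv x (sub 1 i)) = h := funext fun x => hval 1 x
    rwa [e] at this
  · have hn0 : 0 < n * (n - 1) := Nat.pos_of_ne_zero hn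
    have hc : ∀ i : {p : Fin n × Fin n // p.1 < p.2},
        (univ.filter fun σ : Equiv.Perm (Fin n) => (sub σ i).isRight = true).card ≤
          D * Y / (n * (n - 1)) := by
      intro i
      rw [Nat.le_div_iff_mul_le hn0]
      have h9 := perm_count (fun u v => (Γ u v).isRight = true) (ne_of_lt i.2)
      refine le_trans (le_of_eq ?_) (h9.trans ?_)
      · congr!
      · refine Nat.mul_le_mul_left _ (hY _ ?_)
        intro p hp
        simpa using hp
    have h1 := touch_avg sub _ hc F hF
    by_contra hno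
    push Not at hno
    have h2 : ∀ σ, F.leaves * k * Y + 1 ≤ F.touch (sub σ) * (n * (n - 1)) := by
      intro σ
      by_contra h3
      refine hno (F.touch (sub σ)) (by omega) ?_
      have := (touch_fc (sub σ) F hF).1
      have e : (fun x => F.eval fun i => lv x (sub σ i)) = h := funext fun x => hval σ x
      rwa [e] at this
    have h3 : D * (F.leaves * k * Y + 1) ≤ (∑ σ, F.touch (sub σ)) * (n * (n - 1)) := by
      rw [sum_mul, hD, ← card_univ, ← smul_eq_mul, ← sum_const]
      exact sum_le_sum fun σ _ => h2 σ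
    have h4 : (∑ σ, F.touch (sub σ)) * (n * (n - 1)) ≤ F.leaves * k * (D * Y) := by
      calc (∑ σ, F.touch (sub σ)) * (n * (n - 1))
          ≤ F.leaves * (k * (D * Y / (n * (n - 1)))) * (n * (n - 1)) :=
            Nat.mul_le_mul_right _ h1
        _ = F.leaves * k * (D * Y / (n * (n - 1)) * (n * (n - 1))) := by ring
        _ ≤ F.leaves * k * (D * Y) := Nat.mul_le_mul_left _ (Nat.div_mul_le_self _ _)
    have h5 : D * (F.leaves * k * Y + 1) = F.leaves * k * (D * Y) + D := by ring
    omega

end Pool.Agent.V7H70.Fml
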