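import Pool.Agent.V7H70.Fml.BraidC
import Pool.Agent.V7H70.Fml.Relabel

/-!
# Parities composed with a table are a subfunction of Hamiltonicity
-/

set_option autoImplicit false

namespace Pool.Agent.V7H70.Fml

open List
open Pool.Agent.V7H70.Ham (gad ord mem_ord)

section

variable {a w B R : ℕ} (ix : Rw a ≃ Fin R) (cd : Tm a ≃ Fin (2 * a)) (A : (Tm a → Bool) → Bool)
  (y : Tm a × Fin w → Bool)

theorem ne_of_E {ix : Rw a → ℕ} {cd : Tm a → ℕ} {u v : Vb a w B} (h : E ix cd A y u v) :
    u ≠ v := by
  rintro rfl
  cases u with
  | g r κ p =>
    simp only [E, gad, true_and] at h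
    rcases h with h | h | h
    · omega
    · omega
    · rw [h.1] at h
      exact absurd h.2.1 (by decide)
  | sp i => simp only [E] at h; omega
  | I t j β => simp [E] at h
  | O t j β => simp [E] at h
  | M t j β => simp [E] at h

theorem ham_of_par (ha : 0 < a) (hR : R ≤ B) (h : FU A y = true) :
    (Gb (B := B) (fun r => (ix r).val) (fun t => (cd t).val) A y).IsHamiltonian := by
  classical
  set z : Tm a → Bool := fun t => par (fun i => y (t, i)) with hzdef
  have hz : ∀ t, z t = par (fun i => y (t, i)) := fun t => rfl
  have hA : A z = true := h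
  set EE := E (B := B) (fun r => (ix r).val) (fun t => (cd t).val) A y with hEE
  set f : Fin (B + 2 * a + 2) → List (Vb a w B) := fun i => .sp i :: seg ix cd y z i.val with hf
  set L : List (Vb a w B) := (List.ofFn f).flatten with hL
  have hmem : ∀ v, v ∈ L := by
    intro v
    rw [hL, List.mem_flatten]
    refine ⟨f ⟨pos ix cd z v, pos_lt ix cd z hR v⟩, List.mem_ofFn.mpr ⟨_, rfl⟩, ?_⟩
    rw [hf]
    exact (mem_iff ix cd y z hR _ v).mpr rfl
  have hnd : L.Nodup := by
    rw [hL, List.nodup_flatten]
    constructor
    · intro l hl
      rw [List.mem_ofFn] at hl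
      obtain ⟨i, rfl⟩ := hl
      rw [hf]
      simp only
      rw [List.nodup_cons]
      rcases cases_spine (B := B) ix cd i with ⟨r', hr⟩ | ⟨h1, h2⟩ | ⟨h1, t', ht⟩ | ⟨h1, h2⟩ |
        ⟨h1, h2⟩
      · by_cases hs : r' = rz z r'.1
        · rw [seg_sel ix cd y z hr hs]; simp
        · rw [seg_row ix cd y z hr hs, mem_rowp]
          exact ⟨by simp, nodup_rowp _⟩
      · rw [seg_mid ix cd y z h1 h2]; simp
      · rw [seg_blk ix cd y z hR ht, mem_braid]
        exact ⟨by simp, nodup_braid _ _ _⟩
      · rw [seg_tab ix cd y z hR h2, mem_tabl]
        exact ⟨by simp, nodup_tabl _⟩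
      · rw [seg_last ix cd y z hR h2]; simp
    · rw [List.pairwise_ofFn]
      intro i i' hii v h1 h2
      have h3 := (mem_iff ix cd y z hR i v).mp h1
      have h4 := (mem_iff ix cd y z hR i' v).mp h2
      have h5 : i = i' := Fin.ext (h3.symm.trans h4)
      exact absurd h5 (ne_of_lt hii)
  have hchain : L.IsChain EE := by
    rw [hL, List.isChain_flatten]
    · constructor
      · intro l hl
        rw [List.mem_ofFn] at hl
        obtain ⟨i, rfl⟩ := hl
        rw [hf]
        simp only
        rw [List.isChain_cons]
        rcases cases_spine (B := B) ix cd i with ⟨r', hr⟩ | ⟨h1, h2⟩ | ⟨h1, t', ht⟩ | ⟨h1, h2⟩ |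
          ⟨h1, h2⟩
        · by_cases hs : r' = rz z r'.1
          · rw [seg_sel ix cd y z hr hs]; simp
          · rw [seg_row ix cd y z hr hs]
            refine ⟨?_, chain_rowp _ _ _ _ _⟩
            intro v hv
            rw [head_rowp] at hv
            simp only [Option.mem_def, Option.some.injEq] at hv
            subst hv
            simp only [hEE, E]
            exact Or.inl ⟨trivial, trivial, hr⟩
        · rw [seg_mid ix cd y z h1 h2]; simp
        · rw [seg_blk ix cd y z hR ht]
          refine ⟨?_, chain_braid _ _ _ hz _⟩
          intro v hv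
          rw [head_braid] at hv
          simp only [Option.mem_def, Option.some.injEq] at hv
          subst hv
          simp only [hEE, E]
          exact ⟨ht, trivial, trivial⟩
        · rw [seg_tab ix cd y z hR h2]
          refine ⟨?_, chain_tabl _ _ _ _ hA⟩
          intro v hv
          rw [head_tabl] at hv
          simp only [Option.mem_def, Option.some.injEq] at hv
          subst hv
          simp only [hEE, E]
          exact Or.inr ⟨trivial, rfl, rfl, h2⟩
        · rw [seg_last ix cd y z hR h2]; simp
      · rw [List.isChain_ofFn]
        intro i hi v hv v' hv'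
        simp only [hf, List.head?_cons, Option.mem_def, Option.some.injEq] at hv'
        subst hv'
        simp only [hf] at hv
        rcases cases_spine (B := B) ix cd ⟨i, by omega⟩ with ⟨r', hr⟩ | ⟨h1, h2⟩ | ⟨h1, t', ht⟩ |
          ⟨h1, h2⟩ | ⟨h1, h2⟩
        · by_cases hs : r' = rz z r'.1
          · rw [seg_sel ix cd y z hr hs] at hv
            simp only [List.getLast?_singleton, Option.mem_def, Option.some.injEq] at hv
            subst hv
            simp only [hEE, E]
            have := (ix r').2
            simp only at hr
            exact Or.inl ⟨by omega, trivial⟩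
          · rw [seg_row ix cd y z hr hs, List.getLast?_cons, last_rowp] at hv
            simp only [Option.getD_some, Option.mem_def, Option.some.injEq] at hv
            subst hv
            simp only [hEE, E]
            simp only at hr
            exact Or.inl ⟨trivial, trivial, by omega⟩
        · simp only at h1 h2
          rw [seg_mid ix cd y z h1 h2] at hv
          simp only [List.getLast?_singleton, Option.mem_def, Option.some.injEq] at hv
          subst hv
          simp only [hEE, E]
          exact Or.inl ⟨h2, trivial⟩
        · simp only at ht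
          rw [seg_blk ix cd y z hR ht, List.getLast?_cons, last_braid hz] at hv
          simp only [Option.getD_some, Option.mem_def, Option.some.injEq] at hv
          subst hv
          simp only [hEE, E]
          exact ⟨by omega, trivial, trivial⟩
        · simp only at h2
          rw [seg_tab ix cd y z hR h2, List.getLast?_cons, last_tabl] at hv
          simp only [Option.getD_some, Option.mem_def, Option.some.injEq] at hv
          subst hv
          simp only [hEE, E]
          exact Or.inr ⟨trivial, rfl, rfl, by omega⟩
        · simp only at h2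
          omega
    · rw [List.mem_ofFn]
      rintro ⟨a, ha⟩
      simp [hf] at ha
  have hchain' : L.IsChain (Gb (B := B) (fun r => (ix r).val) (fun t => (cd t).val) A y).Adj := by
    refine hchain.imp ?_
    intro u v h
    rw [Gb, SimpleGraph.fromRel_adj]
    exact ⟨ne_of_E A y h, Or.inl h⟩
  have hcard : Fintype.card (Vb a w B) ≤ L.length := by
    rw [← Finset.card_univ]
    have : (Finset.univ : Finset (Vb a w B)) ⊆ L.toFinset := by
      intro v _
      rw [List.mem_toFinset]; exact hmem v
    exact (Finset.card_le_card this).trans (List.toFinset_card_le L)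
  refine Pool.Agent.H545R2.isHamiltonian_of_list L hnd hmem ?_ hchain' ?_
  · refine le_trans ?_ hcard
    rw [card_vb]
    omega
  · intro u hu v hv
    have h1 : L.getLast? = some (.sp ⟨B + 2 * a + 1, by omega⟩) := by
      rw [hL, List.ofFn_succ', List.concat_eq_append, List.flatten_append,
        List.flatten_singleton, List.getLast?_append_of_ne_nil _ (by simp [hf])]
      simp only [hf]
      rw [seg_last ix cd y z hR (by simp)]
      rfl
    have h2 : L.head? = some (.sp ⟨0, by omega⟩) := by
      rw [hL, List.ofFn_succ, List.flatten_cons]
      rfl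
    rw [h1] at hu
    rw [h2] at hv
    simp only [Option.mem_def, Option.some.injEq] at hu hv
    subst hu
    subst hv
    rw [Gb, SimpleGraph.fromRel_adj]
    have h3 : EE (.sp ⟨B + 2 * a + 1, by omega⟩) (.sp ⟨0, by omega⟩) := by
      simp only [hEE, E]
      right
      exact ⟨trivial, trivial⟩
    exact ⟨ne_of_E A y h3, Or.inl h3⟩

end

end Pool.Agent.V7H70.Fml
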