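import Pool.Agent.V7H70.Fml.Braid

/-!
# A Hamilton cycle of the braid graph determines parities
-/

set_option autoImplicit false

namespace Pool.Agent.V7H70.Fml

open Pool.Agent.V7H70.Ham (U gad gadget exists_other)

section

variable {a w B : ℕ} {ix : Rw a → ℕ} {cd : Tm a → ℕ} {A : (Tm a → Bool) → Bool}
  {y : Tm a × Fin w → Bool}

/-- the strand that starts at the second port -/
def Xs (t : Tm a) (r : Rw a) (s : ℕ → Bool) : Vb a w B → Prop
  | .I t' j β => t' = t ∧ β = s j.val
  | .O t' j β => t' = t ∧ β = s (j.val + 1)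
  | .M t' j β => t' = t ∧ β = s (j.val + 1)
  | .g r' κ _ => r' = r ∧ κ.val = t.2.val ∧ s w = false
  | .sp _ => False

theorem par_of_ham (ha : 0 < a) (hw : 0 < w) (hix : ∀ r, ix r + 1 ≤ B) (hcd : ∀ t, cd t < 2 * a)
    (hinj : Function.Injective cd)
    (h : (Gb (B := B) ix cd A y).IsHamiltonian) : FU A y = true := by
  classical
  have hcard : 3 ≤ Fintype.card (Vb a w B) := by
    rw [card_vb]
    omega
  obtain ⟨σ, hadj, hσ, conn⟩ := Pool.Agent.H545R2.exists_perm_of_isHamiltonian hcard h
  have ua : ∀ {v w' : Vb a w B}, U σ v w' → (Gb ix cd A y).Adj v w' := by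
    rintro v w' (h | h)
    · rw [← h]; exact hadj v
    · rw [← h]; exact (hadj w').symm
  have nbg : ∀ (r : Rw a) (κ : Fin (a + 1)) (p : Fin 9) (v : Vb a w B), U σ (.g r κ p) v →
      (∃ p', v = .g r κ p' ∧ (gad p p' ∨ gad p' p)) ∨
        (Ou r κ v ∧ (p.val = 0 ∨ p.val = 8 ∨ p.val = 6 ∨ p.val = 2)) := by
    intro r κ p v hu
    by_cases hv : Ou r κ v
    · right
      refine ⟨hv, ?_⟩
      rcases nb_g (ua hu) hv with h | h | h | h
      · rw [h.1]; exact Or.inl rfl
      · rw [h.1]; exact Or.inr (Or.inl rfl)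
      · rw [h.1]; exact Or.inr (Or.inr (Or.inl rfl))
      · rw [h.1]; exact Or.inr (Or.inr (Or.inr rfl))
    · left
      unfold Ou at hv
      push Not at hv
      obtain ⟨p', rfl⟩ := hv
      exact ⟨p', rfl, nb_in (ua hu)⟩
  have gd := fun (r : Rw a) (κ : Fin (a + 1)) =>
    gadget' (fun p => (.g r κ p : Vb a w B)) (Ou r κ) (nbg r κ) hσ conn
      (by intro p p' hp; simpa using hp) (fun w hw g => hw g)
      ⟨.sp ⟨0, by omega⟩, fun p => by simp⟩
  -- check mode
  let Cm : Rw a → Fin (a + 1) → Prop := fun r κ => ∃ v, Ou r κ v ∧ U σ (.g r κ 6) v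
  have F1 : ∀ r κ, Cm r κ → (∀ v, U σ (.g r κ 0) v → ¬ Ou r κ v) ∧
      (∀ v, U σ (.g r κ 8) v → ¬ Ou r κ v) ∧
      (∃ v, Ou r κ v ∧ U σ (.g r κ 2) v) := by
    intro r κ hC
    rcases gd r κ with h | h
    · obtain ⟨w, h1, h2⟩ := hC
      exact absurd h1 (h.2.2.2 w h2)
    · obtain ⟨v, h1, h2, _⟩ := h.2.1
      exact ⟨h.2.2.1, h.2.2.2, v, h1, h2⟩
  have F2 : ∀ r κ, ¬ Cm r κ → (∃ v, Ou r κ v ∧ U σ (.g r κ 0) v) ∧
      (∃ v, Ou r κ v ∧ U σ (.g r κ 8) v) := by
    intro r κ hC
    rcases gd r κ with ⟨⟨v, h1, h2, _⟩, ⟨v', h3, h4, _⟩, _, _⟩ | ⟨⟨v, h1, h2, _⟩, _⟩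
    · exact ⟨⟨v, h1, h2⟩, ⟨v', h3, h4⟩⟩
    · exact absurd ⟨v, h1, h2⟩ hC
  have F3 : ∀ r κ v, Ou r κ v → U σ (.g r κ 2) v → Cm r κ := by
    intro r κ v h1 h2
    rcases gd r κ with h | ⟨⟨v', h3, h4, _⟩, _⟩
    · exact absurd h1 (h.2.2.1 v h2)
    · exact ⟨v', h3, h4⟩
  have P1 : ∀ r (κ κ' : Fin (a + 1)), κ.val + 1 = κ'.val → (Cm r κ ↔ Cm r κ') := by
    intro r κ κ' hκ
    have hne : κ ≠ κ' := by rintro rfl; omega
    constructor
    · intro h1
      by_contra h2
      obtain ⟨⟨v, hv, hu⟩, _⟩ := F2 r κ' h2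
      rcases nb_g (ua hu) hv with h | h | h | h
      · rcases h.2 with h | ⟨κ'', h3, rfl⟩
        · omega
        · have : κ'' = κ := Fin.ext (by omega)
          subst this
          refine (F1 r κ'' h1).2.1 _ hu.symm ?_
          intro p hp
          simp only [Vb.g.injEq, true_and] at hp
          exact hne hp.1.symm
      · exact absurd h.1 (by decide)
      · exact absurd h.1 (by decide)
      · exact absurd h.1 (by decide)
    · intro h1
      by_contra h2
      obtain ⟨_, ⟨v, hv, hu⟩⟩ := F2 r κ h2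
      rcases nb_g (ua hu) hv with h | h | h | h
      · exact absurd h.1 (by decide)
      · rcases h.2 with h | ⟨κ'', h3, rfl⟩
        · have := κ'.2
          omega
        · have : κ'' = κ' := Fin.ext (by omega)
          subst this
          refine (F1 r κ'' h1).1 _ hu.symm ?_
          intro p hp
          simp only [Vb.g.injEq, true_and] at hp
          exact hne hp.1
      · exact absurd h.1 (by decide)
      · exact absurd h.1 (by decide)
  have P2 : ∀ r (κ κ' : Fin (a + 1)), Cm r κ → Cm r κ' := by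
    intro r
    have h1 : ∀ (n : ℕ) (hn : n < a + 1), Cm r ⟨n, hn⟩ ↔ Cm r ⟨0, by omega⟩ := by
      intro n
      induction n with
      | zero => intro _; exact Iff.rfl
      | succ n ih =>
        intro hn
        exact (P1 r ⟨n, by omega⟩ ⟨n + 1, hn⟩ rfl).symm.trans (ih (by omega))
    intro κ κ' h
    exact (h1 κ'.1 κ'.2).mpr ((h1 κ.1 κ.2).mp h)
  -- the strands
  have main : ∀ (t : Tm a) (r : Rw a) (κ : Fin (a + 1)), r.1 = t.1 → κ.val = t.2.val → Cm r κ →
      r.2 t.2 = par (fun i => y (t, i)) := by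
    intro t r κ hr hκ hC
    have hta := t.2.2
    obtain ⟨h10, h18, v2, hv2, hu2⟩ := F1 r κ hC
    obtain ⟨e67, e78, e83, e34, e45, e50, e01, e12⟩ :=
      inner (fun p => (.g r κ p : Vb a w B)) (Ou r κ) (nbg r κ) hσ h10 h18
    obtain ⟨v6, hv6, hu6⟩ := hC
    obtain ⟨jw, hjw⟩ : ∃ j : Fin (w + 1), j.val = w := ⟨⟨w, by omega⟩, rfl⟩
    obtain ⟨j0, hj0⟩ : ∃ j : Fin (w + 1), j.val = 0 := ⟨⟨0, by omega⟩, rfl⟩
    have k6 : ∀ r' : Rw a, r'.1 = t.1 → ∀ v, Ou r' κ v → U σ (.g r' κ 6) v →
        v = .I t jw false := by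
      intro r' hr' v hv hu
      rcases nb_g (ua hu) hv with h | h | h | h
      · exact absurd h.1 (by decide)
      · exact absurd h.1 (by decide)
      · rcases h.2 with h | h | ⟨t', j, rfl, h1, h2, h3⟩
        · omega
        · omega
        · have e1 : t' = t := Prod.ext (h2.trans hr') (Fin.ext (h3.trans hκ))
          have e2 : j = jw := Fin.ext (by omega)
          rw [e1, e2]
      · exact absurd h.1 (by decide)
    have k2 : ∀ v, Ou r κ v → U σ (.g r κ 2) v → v = .O t jw (r.2 t.2) := by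
      intro v hv hu
      rcases nb_g (ua hu) hv with h | h | h | h
      · exact absurd h.1 (by decide)
      · exact absurd h.1 (by decide)
      · exact absurd h.1 (by decide)
      · rcases h.2 with h | h | ⟨t', j, rfl, h1, h2, h3⟩
        · omega
        · omega
        · have e1 : t' = t := Prod.ext (h2.trans hr) (Fin.ext (h3.trans hκ))
          have e2 : j = jw := Fin.ext (by omega)
          rw [e1, e2]
    have iw0 : U σ (.g r κ 6) (.I t jw false) := by rw [← k6 r hr v6 hv6 hu6]; exact hu6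
    have ow : U σ (.g r κ 2) (.O t jw (r.2 t.2)) := by rw [← k2 v2 hv2 hu2]; exact hu2
    have m1 : ∀ (j j' : Fin (w + 1)) (β : Bool), j.val + 1 = j'.val →
        U σ (.M t j β) (.O t j β) ∧ U σ (.M t j β) (.I t j' β) := by
      intro j j' β hj
      have hj' := j'.2
      refine U.deg_two hσ fun v hu => ?_
      rcases nb_M (ua hu) with h | ⟨j'', h1, rfl⟩ | ⟨h1, _⟩ | ⟨h1, _⟩
      · exact Or.inl h
      · have : j'' = j' := Fin.ext (by omega)
        rw [this]
        exact Or.inr rfl
      · omega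
      · omega
    have m2 : U σ (.M t jw false) (.O t jw false) ∧ U σ (.M t jw false) (.I t j0 true) := by
      refine U.deg_two hσ fun v hu => ?_
      rcases nb_M (ua hu) with h | ⟨j'', h1, rfl⟩ | ⟨h1, _, j'', h2, rfl⟩ | ⟨h1, h2, _⟩
      · exact Or.inl h
      · have := j''.2
        omega
      · have : j'' = j0 := Fin.ext (by omega)
        rw [this]
        exact Or.inr rfl
      · exact absurd h2 (by decide)
    have m3 : U σ (.M t jw true) (.O t jw true) := by
      have hcdt := hcd t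
      refine (U.deg_two hσ (v := .M t jw true) (a := .O t jw true)
        (b := .sp ⟨B + cd t + 1, by omega⟩) fun v hu => ?_).1
      rcases nb_M (ua hu) with h | ⟨j'', h1, rfl⟩ | ⟨h1, h2, _⟩ | ⟨h1, h2, i, rfl, h3⟩
      · exact Or.inl h
      · have := j''.2
        omega
      · exact absurd h2 (by decide)
      · right
        congr 1
        exact Fin.ext h3
    have mo : ∀ (j : Fin (w + 1)) (β : Bool), U σ (.M t j β) (.O t j β) := by
      intro j β
      by_cases hj : j.val < w
      · exact (m1 j ⟨j.val + 1, by omega⟩ β rfl).1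
      · have : j = jw := Fin.ext (by omega)
        rw [this]
        cases β
        · exact m2.1
        · exact m3
    have i0 : ∀ (j : Fin (w + 1)) (hj : j.val < w),
        U σ (.I t j false) (.O t j (y (t, ⟨j.val, hj⟩))) := by
      intro j hj
      have hcdt := hcd t
      rcases Nat.eq_zero_or_pos j.val with h0 | h0
      · refine (U.deg_two hσ (v := .I t j false) (a := .O t j (y (t, ⟨j.val, hj⟩)))
          (b := .sp ⟨B + cd t, by omega⟩) fun v hu => ?_).1
        rcases nb_I (ua hu) with ⟨β', rfl, h | ⟨_, h⟩⟩ | ⟨_, _, _, h, _⟩ | ⟨j', h, _⟩ | ⟨_, h, _⟩ |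
          ⟨_, _, i, rfl, h⟩
        · exact absurd h (by decide)
        · left; rw [h]
        · omega
        · omega
        · exact absurd h (by decide)
        · right
          congr 1
          exact Fin.ext h
      · refine (U.deg_two hσ (v := .I t j false) (a := .O t j (y (t, ⟨j.val, hj⟩)))
          (b := .M t ⟨j.val - 1, by omega⟩ false) fun v hu => ?_).1
        rcases nb_I (ua hu) with ⟨β', rfl, h | ⟨_, h⟩⟩ | ⟨_, _, _, h, _⟩ | ⟨j', h, rfl⟩ | ⟨_, h, _⟩ |
          ⟨h, _⟩
        · exact absurd h (by decide)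
        · left; rw [h]
        · omega
        · right
          congr 1
          exact Fin.ext (by simp only; omega)
        · exact absurd h (by decide)
        · omega
    have i1 : ∀ (j : Fin (w + 1)) (hj : j.val < w),
        U σ (.I t j true) (.O t j (!y (t, ⟨j.val, hj⟩))) := by
      intro j hj
      refine (U.deg_two hσ (v := .O t j (!y (t, ⟨j.val, hj⟩)))
        (a := .M t j (!y (t, ⟨j.val, hj⟩))) (b := .I t j true) fun v hu => ?_).2.symm
      rcases nb_O (ua hu) with h | h | ⟨_, _, h⟩ | ⟨_, _, _, h, _⟩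
      · exact Or.inl h
      · exact Or.inr h
      · exfalso
        revert h
        cases y (t, ⟨j.val, hj⟩) <;> simp
      · omega
    have iw1 : U σ (.I t jw true) (.O t jw (!r.2 t.2)) := by
      obtain ⟨v, hvne, hu⟩ := exists_other hσ (mo jw (!r.2 t.2)).symm
      rcases nb_O (ua hu) with h | h | ⟨_, h, _⟩ | ⟨r', κ', rfl, _, h1, h2, h3⟩
      · exact absurd h hvne
      · rw [h] at hu
        exact hu.symm
      · omega
      · exfalso
        have hκκ : κ' = κ := Fin.ext (by omega)
        subst hκκ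
        obtain ⟨v', hv', hu'⟩ := F3 r' κ' (.O t jw (!r.2 t.2)) (fun p => by simp) hu.symm
        have h4 := k6 r' h1.symm v' hv' hu'
        rw [h4] at hu'
        have h5 : U σ (.I t jw false) (.M t ⟨w - 1, by omega⟩ false) :=
          (m1 ⟨w - 1, by omega⟩ jw false (by simp only; omega)).2.symm
        rcases U.two h5 iw0.symm (by simp) hu'.symm with h6 | h6
        · simp at h6
        · simp only [Vb.g.injEq, and_true] at h6
          rw [h6] at h3
          revert h3
          cases r.2 t.2 <;> simp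
    by_contra hne
    set cr : ℕ → Bool := fun j => if h : j < w then y (t, ⟨j, h⟩) else r.2 t.2 with hcr
    set s : ℕ → Bool := fun j => !(pp cr j) with hs
    have hs1 : ∀ j, s (j + 1) = xor (s j) (cr j) := by
      intro j
      simp only [hs, pp]
      cases pp cr j <;> cases cr j <;> rfl
    have hs0 : s 0 = true := rfl
    have hcrw : cr w = r.2 t.2 := by simp [hcr]
    have hcrj : ∀ j (hj : j < w), cr j = y (t, ⟨j, hj⟩) := by
      intro j hj
      simp [hcr, hj]
    have hsw : s (w + 1) = false := by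
      have h1 : pp cr w = par (fun i => y (t, i)) := by
        unfold par
        refine pp_congr fun j hj => ?_
        rw [hcrj j hj]
        simp [ext0, hj]
      simp only [hs, pp]
      rw [h1, hcrw]
      revert hne
      cases r.2 t.2 <;> cases par (fun i => y (t, i)) <;> simp
    -- the switches along the strand
    have io : ∀ (j : Fin (w + 1)), (j.val < w ∨ s j.val = true) →
        U σ (.I t j (s j.val)) (.O t j (s (j.val + 1))) := by
      intro j hj
      by_cases hjlt : j.val < w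
      · rw [hs1, hcrj _ hjlt]
        cases hsj : s j.val
        · rw [Bool.false_xor]
          exact i0 j hjlt
        · rw [Bool.true_xor]
          exact i1 j hjlt
      · have hjj : j = jw := Fin.ext (by omega)
        have hsj : s j.val = true := by
          rcases hj with h | h
          · exact absurd h hjlt
          · exact h
        rw [hs1, hsj, Bool.true_xor]
        have : cr j.val = r.2 t.2 := by rw [show j.val = w by omega]; exact hcrw
        rw [this, hjj]
        exact iw1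
    refine no_closed conn {v | Xs t r s v} ⟨.I t j0 true, ?_⟩ ⟨.sp ⟨0, by omega⟩, ?_⟩ ?_
    · change t = t ∧ true = s j0.val
      rw [hj0]
      exact ⟨rfl, hs0.symm⟩
    · intro hX
      exact hX
    intro v hv
    cases v with
    | I t' j β =>
      obtain ⟨h1, h2⟩ : t' = t ∧ β = s j.val := hv
      rw [h1, h2]
      -- the previous vertex
      obtain ⟨v, hvX, hvU, hvM⟩ : ∃ v, Xs t r s v ∧ U σ (.I t j (s j.val)) v ∧
          ∃ j' β', v = .M t j' β' := by
        rcases Nat.eq_zero_or_pos j.val with h0 | h0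
        · refine ⟨.M t jw false, ⟨rfl, ?_⟩, ?_, _, _, rfl⟩
          · rw [hjw, hsw]
          · have : j = j0 := Fin.ext (by omega)
            rw [this, hj0, hs0]
            exact m2.2.symm
        · refine ⟨.M t ⟨j.val - 1, by omega⟩ (s j.val), ⟨rfl, ?_⟩, ?_, _, _, rfl⟩
          · simp only
            rw [show j.val - 1 + 1 = j.val by omega]
          · exact (m1 ⟨j.val - 1, by omega⟩ j (s j.val) (by simp only; omega)).2.symm
      obtain ⟨j', β', rfl⟩ := hvM
      by_cases hc : j.val < w ∨ s j.val = true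
      · exact ⟨_, hvX, .O t j (s (j.val + 1)), ⟨rfl, rfl⟩, by simp, hvU, io j hc⟩
      · push Not at hc
        have hsj : s j.val = false := by simpa using hc.2
        have hjj : j = jw := Fin.ext (by omega)
        refine ⟨_, hvX, .g r κ 6, ⟨rfl, hκ, ?_⟩, by simp, hvU, ?_⟩
        · rw [← hjw, ← hjj]; exact hsj
        · rw [hsj, hjj]; exact iw0.symm
    | O t' j β =>
      obtain ⟨h1, h2⟩ : t' = t ∧ β = s (j.val + 1) := hv
      rw [h1, h2]
      by_cases hc : j.val < w ∨ s j.val = true
      · exact ⟨.M t j (s (j.val + 1)), ⟨rfl, rfl⟩, .I t j (s j.val), ⟨rfl, rfl⟩, by simp,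
          (mo j _).symm, (io j hc).symm⟩
      · push Not at hc
        have hsj : s j.val = false := by simpa using hc.2
        have hjj : j = jw := Fin.ext (by omega)
        have hsw' : s w = false := by rw [← hjw, ← hjj]; exact hsj
        refine ⟨.M t j (s (j.val + 1)), ⟨rfl, rfl⟩, .g r κ 2, ⟨rfl, hκ, hsw'⟩, by simp,
          (mo j _).symm, ?_⟩
        have : s (j.val + 1) = r.2 t.2 := by
          rw [hs1, hsj, show j.val = w by omega, hcrw, Bool.false_xor]
        rw [this, hjj]
        exact ow.symm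
    | M t' j β =>
      obtain ⟨h1, h2⟩ : t' = t ∧ β = s (j.val + 1) := hv
      rw [h1, h2]
      by_cases hj : j.val < w
      · exact ⟨.O t j (s (j.val + 1)), ⟨rfl, rfl⟩, .I t ⟨j.val + 1, by omega⟩ (s (j.val + 1)),
          ⟨rfl, rfl⟩, by simp, mo j _, (m1 j ⟨j.val + 1, by omega⟩ _ rfl).2⟩
      · have hjj : j = jw := Fin.ext (by omega)
        refine ⟨.O t j (s (j.val + 1)), ⟨rfl, rfl⟩, .I t j0 true, ⟨rfl, ?_⟩, by simp, mo j _, ?_⟩
        · rw [hj0]; exact hs0.symm
        · have : s (j.val + 1) = false := by rw [show j.val = w by omega]; exact hsw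
          rw [this, hjj]
          exact m2.2
    | g r' κ' p =>
      obtain ⟨h1, h2, h3⟩ : r' = r ∧ κ'.val = t.2.val ∧ s w = false := hv
      have hκκ : κ' = κ := Fin.ext (by omega)
      rw [h1, hκκ]
      have mem : ∀ p : Fin 9, Xs (w := w) (B := B) t r s (.g r κ p) := fun p => ⟨rfl, hκ, h3⟩
      have hp : p = 0 ∨ p = 1 ∨ p = 2 ∨ p = 3 ∨ p = 4 ∨ p = 5 ∨ p = 6 ∨ p = 7 ∨ p = 8 := by
        clear mem
        revert p
        decide
      rcases hp with rfl | rfl | rfl | rfl | rfl | rfl | rfl | rfl | rfl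
      · exact ⟨_, mem 1, _, mem 5, by simp, e01, e50.symm⟩
      · exact ⟨_, mem 0, _, mem 2, by simp, e01.symm, e12⟩
      · refine ⟨_, mem 1, .O t jw (r.2 t.2), ⟨rfl, ?_⟩, by simp, e12.symm, ow⟩
        rw [hjw, hs1, h3, hcrw, Bool.false_xor]
      · exact ⟨_, mem 8, _, mem 4, by simp, e83.symm, e34⟩
      · exact ⟨_, mem 3, _, mem 5, by simp, e34.symm, e45⟩
      · exact ⟨_, mem 4, _, mem 0, by simp, e45.symm, e50⟩
      · refine ⟨_, mem 7, .I t jw false, ⟨rfl, ?_⟩, by simp, e67, iw0⟩
        rw [hjw, h3]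
      · exact ⟨_, mem 6, _, mem 8, by simp, e67.symm, e78⟩
      · exact ⟨_, mem 7, _, mem 3, by simp, e78.symm, e83⟩
    | sp i => exact absurd hv id
  -- the table
  have tab : ∃ r κ, κ.val = a ∧ r.1 = false ∧
      U σ (.sp ⟨B + 2 * a, by omega⟩) (.g r κ 6) := by
    obtain ⟨v1, hv1⟩ : ∃ v, U σ (.sp ⟨B + 2 * a, by omega⟩) v := ⟨_, Or.inl rfl⟩
    rcases nb_sp rfl ha hix hcd (ua hv1) with ⟨r, κ, rfl, h1, h2⟩ | ⟨t, j, rfl, h1, h2⟩
    · exact ⟨r, κ, h1, h2, hv1⟩
    · obtain ⟨v2, hne, hv2⟩ := exists_other hσ hv1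
      rcases nb_sp rfl ha hix hcd (ua hv2) with ⟨r, κ, rfl, h3, h4⟩ | ⟨t', j', rfl, h3, h4⟩
      · exact ⟨r, κ, h3, h4, hv2⟩
      · exfalso
        have e1 : t' = t := hinj (by omega)
        have e2 : j' = j := Fin.ext (by omega)
        exact hne (by rw [e1, e2])
  obtain ⟨rL, κ, hκ, hL, huL⟩ := tab
  have hCL : Cm rL κ := ⟨_, fun p => by simp, huL.symm⟩
  obtain ⟨_, _, v, hv, hu⟩ := F1 rL κ hCL
  obtain ⟨rR, hR, rfl, hA⟩ : ∃ r' : Rw a, r'.1 = true ∧ v = .g r' κ 6 ∧
      A (joint rL.2 r'.2) = true := by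
    rcases nb_g (ua hu) hv with h | h | h | h
    · exact absurd h.1 (by decide)
    · exact absurd h.1 (by decide)
    · exact absurd h.1 (by decide)
    · rcases h.2 with h | h | ⟨t', j, rfl, h1, h2, h3⟩
      · rw [hL] at h
        exact absurd h.2.1 (by decide)
      · exact h.2.2
      · have := t'.2.2
        omega
  have hCR : Cm rR κ := by
    refine ⟨.g rL κ 2, ?_, hu.symm⟩
    intro p hp
    simp only [Vb.g.injEq, true_and] at hp
    rw [← hp.1, hL] at hR
    exact absurd hR (by decide)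
  have hfin : (fun t => par (fun i => y (t, i))) = joint rL.2 rR.2 := by
    funext t
    obtain ⟨d, i⟩ := t
    cases d with
    | false =>
      rw [← main (false, i) rL ⟨i.val, by omega⟩ hL rfl (P2 _ _ _ hCL)]
      simp [joint]
    | true =>
      rw [← main (true, i) rR ⟨i.val, by omega⟩ hR rfl (P2 _ _ _ hCR)]
      simp [joint]
  unfold FU
  rw [hfin]
  exact hA

end

end Pool.Agent.V7H70.Fml
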