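import Pool.Agent.V7H70.Ham.Graph

/-!
# The gadget, in a convenient form
-/

set_option autoImplicit false

namespace Pool.Agent.V7H70.Fml

open Pool.Agent.V7H70.Ham (U gad gadget exists_other)

section

variable {V : Type*} {σ : Equiv.Perm V}

/-- no proper closed set -/
theorem no_closed
    (conn : ∀ X : Set V, X.Nonempty → (∀ v ∈ X, σ v ∈ X) → X = Set.univ)
    (X : Set V) (h1 : X.Nonempty) (h2 : ∃ v, v ∉ X)
    (h : ∀ v ∈ X, ∃ a ∈ X, ∃ b ∈ X, a ≠ b ∧ U σ v a ∧ U σ v b) : False := by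
  have := conn X h1 (by
    intro v hv
    obtain ⟨a, ha, b, hb, hab, hua, hub⟩ := h v hv
    rcases U.two hua hub hab (Or.inl rfl : U σ v (σ v)) with h | h
    · rw [h]; exact ha
    · rw [h]; exact hb)
  obtain ⟨v, hv⟩ := h2
  rw [this] at hv
  exact hv (Set.mem_univ v)

section

variable (p : Fin 9 → V) (X : V → Prop)
    (nb : ∀ (g : Fin 9) (w : V), U σ (p g) w → (∃ g', w = p g' ∧ (gad g g' ∨ gad g' g)) ∨
      (X w ∧ (g.val = 0 ∨ g.val = 8 ∨ g.val = 6 ∨ g.val = 2)))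

include nb

theorem nb0 : ∀ w, U σ (p 0) w → w = p 1 ∨ w = p 5 ∨ X w := by
  intro w hu
  rcases nb 0 w hu with ⟨g', rfl, hg⟩ | h
  · have : g' = 1 ∨ g' = 5 := by
      clear hu; revert hg; revert g'; unfold gad; decide
    rcases this with rfl | rfl
    · exact Or.inl rfl
    · exact Or.inr (Or.inl rfl)
  · exact Or.inr (Or.inr h.1)

theorem nb1 : ∀ w, U σ (p 1) w → w = p 0 ∨ w = p 2 := by
  intro w hu
  rcases nb 1 w hu with ⟨g', rfl, hg⟩ | h
  · have : g' = 0 ∨ g' = 2 := by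
      clear hu; revert hg; revert g'; unfold gad; decide
    rcases this with rfl | rfl
    · exact Or.inl rfl
    · exact Or.inr rfl
  · exact absurd h.2 (by decide)

theorem nb2 : ∀ w, U σ (p 2) w → w = p 1 ∨ w = p 3 ∨ X w := by
  intro w hu
  rcases nb 2 w hu with ⟨g', rfl, hg⟩ | h
  · have : g' = 1 ∨ g' = 3 := by
      clear hu; revert hg; revert g'; unfold gad; decide
    rcases this with rfl | rfl
    · exact Or.inl rfl
    · exact Or.inr (Or.inl rfl)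
  · exact Or.inr (Or.inr h.1)

theorem nb3 : ∀ w, U σ (p 3) w → w = p 4 ∨ w = p 2 ∨ w = p 8 := by
  intro w hu
  rcases nb 3 w hu with ⟨g', rfl, hg⟩ | h
  · have : g' = 4 ∨ g' = 2 ∨ g' = 8 := by
      clear hu; revert hg; revert g'; unfold gad; decide
    rcases this with rfl | rfl | rfl
    · exact Or.inl rfl
    · exact Or.inr (Or.inl rfl)
    · exact Or.inr (Or.inr rfl)
  · exact absurd h.2 (by decide)

theorem nb4 : ∀ w, U σ (p 4) w → w = p 3 ∨ w = p 5 := by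
  intro w hu
  rcases nb 4 w hu with ⟨g', rfl, hg⟩ | h
  · have : g' = 3 ∨ g' = 5 := by
      clear hu; revert hg; revert g'; unfold gad; decide
    rcases this with rfl | rfl
    · exact Or.inl rfl
    · exact Or.inr rfl
  · exact absurd h.2 (by decide)

theorem nb5 : ∀ w, U σ (p 5) w → w = p 4 ∨ w = p 6 ∨ w = p 0 := by
  intro w hu
  rcases nb 5 w hu with ⟨g', rfl, hg⟩ | h
  · have : g' = 4 ∨ g' = 6 ∨ g' = 0 := by
      clear hu; revert hg; revert g'; unfold gad; decide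
    rcases this with rfl | rfl | rfl
    · exact Or.inl rfl
    · exact Or.inr (Or.inl rfl)
    · exact Or.inr (Or.inr rfl)
  · exact absurd h.2 (by decide)

theorem nb6 : ∀ w, U σ (p 6) w → w = p 7 ∨ w = p 5 ∨ X w := by
  intro w hu
  rcases nb 6 w hu with ⟨g', rfl, hg⟩ | h
  · have : g' = 7 ∨ g' = 5 := by
      clear hu; revert hg; revert g'; unfold gad; decide
    rcases this with rfl | rfl
    · exact Or.inl rfl
    · exact Or.inr (Or.inl rfl)
  · exact Or.inr (Or.inr h.1)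

theorem nb7 : ∀ w, U σ (p 7) w → w = p 6 ∨ w = p 8 := by
  intro w hu
  rcases nb 7 w hu with ⟨g', rfl, hg⟩ | h
  · have : g' = 6 ∨ g' = 8 := by
      clear hu; revert hg; revert g'; unfold gad; decide
    rcases this with rfl | rfl
    · exact Or.inl rfl
    · exact Or.inr rfl
  · exact absurd h.2 (by decide)

theorem nb8 : ∀ w, U σ (p 8) w → w = p 7 ∨ w = p 3 ∨ X w := by
  intro w hu
  rcases nb 8 w hu with ⟨g', rfl, hg⟩ | h
  · have : g' = 7 ∨ g' = 3 := by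
      clear hu; revert hg; revert g'; unfold gad; decide
    rcases this with rfl | rfl
    · exact Or.inl rfl
    · exact Or.inr (Or.inl rfl)
  · exact Or.inr (Or.inr h.1)

/-- The gadget. -/
theorem gadget' (hσ : ∀ v, σ (σ v) ≠ v)
    (conn : ∀ X : Set V, X.Nonempty → (∀ v ∈ X, σ v ∈ X) → X = Set.univ)
    (hp : Function.Injective p) (hX : ∀ w, X w → ∀ g, w ≠ p g)
    (hout : ∃ w, ∀ g, w ≠ p g) :
    ((∃ w, X w ∧ U σ (p 0) w ∧ ∀ w', X w' → U σ (p 0) w' → w' = w) ∧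
      (∃ w, X w ∧ U σ (p 8) w ∧ ∀ w', X w' → U σ (p 8) w' → w' = w) ∧
      (∀ w, U σ (p 2) w → ¬ X w) ∧ (∀ w, U σ (p 6) w → ¬ X w)) ∨
    ((∃ w, X w ∧ U σ (p 6) w ∧ ∀ w', X w' → U σ (p 6) w' → w' = w) ∧
      (∃ w, X w ∧ U σ (p 2) w ∧ ∀ w', X w' → U σ (p 2) w' → w' = w) ∧
      (∀ w, U σ (p 0) w → ¬ X w) ∧ (∀ w, U σ (p 8) w → ¬ X w)) :=
  gadget hσ conn p hp X hX hout (nb0 p X nb) (nb1 p X nb) (nb2 p X nb) (nb3 p X nb) (nb4 p X nb)
    (nb5 p X nb) (nb6 p X nb) (nb7 p X nb) (nb8 p X nb)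

/-- The edges used inside the gadget in check mode. -/
theorem inner (hσ : ∀ v, σ (σ v) ≠ v) (h0 : ∀ w, U σ (p 0) w → ¬ X w)
    (h8 : ∀ w, U σ (p 8) w → ¬ X w) :
    U σ (p 6) (p 7) ∧ U σ (p 7) (p 8) ∧ U σ (p 8) (p 3) ∧ U σ (p 3) (p 4) ∧ U σ (p 4) (p 5) ∧
      U σ (p 5) (p 0) ∧ U σ (p 0) (p 1) ∧ U σ (p 1) (p 2) := by
  obtain ⟨e10, e12⟩ := U.deg_two hσ (nb1 p X nb)
  obtain ⟨e43, e45⟩ := U.deg_two hσ (nb4 p X nb)
  obtain ⟨e76, e78⟩ := U.deg_two hσ (nb7 p X nb)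
  obtain ⟨e01, e05⟩ := U.deg_two hσ (v := p 0) (a := p 1) (b := p 5) (fun w hu => by
    rcases nb0 p X nb w hu with h | h | h
    · exact Or.inl h
    · exact Or.inr h
    · exact absurd h (h0 w hu))
  obtain ⟨e87, e83⟩ := U.deg_two hσ (v := p 8) (a := p 7) (b := p 3) (fun w hu => by
    rcases nb8 p X nb w hu with h | h | h
    · exact Or.inl h
    · exact Or.inr h
    · exact absurd h (h8 w hu))
  exact ⟨e76.symm, e78, e83, e43.symm, e45, e05.symm, e01, e12⟩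

end

end

end Pool.Agent.V7H70.Fml
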