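import Pool.Agent.V7H70.Fml.Marked
import Pool.Agent.V7H70.Fml.Hard

/-!
# Formulas with guess leaves for the composition of a hard function with parities
-/

set_option autoImplicit false

namespace Pool.Agent.V7H70.Fml

open Finset H568R2 Pool.Agent.H676

/-- There are functions that are not obtained from small formulas. -/
theorem exists_hard_gen {W T : Type} [Fintype W] [DecidableEq W] [Fintype T] [DecidableEq T]
    (P : ((W → Bool) → Bool) → ((T → Bool) → Bool)) (L : ℕ)
    (h : (2 * Fintype.card W + 5) ^ (2 * L + 1) < 2 ^ 2 ^ Fintype.card T) :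
    ∃ U : (T → Bool) → Bool, ∀ f : (W → Bool) → Bool, FC 1 L f → P f ≠ U := by
  by_contra hno
  push Not at hno
  have hsurj : Function.Surjective (fun v : Fin (2 * L + 1) → Sym W =>
      P ((run (List.ofFn v) []).headD (fun _ => false))) := by
    intro U
    obtain ⟨f, hf, hfU⟩ := hno U
    obtain ⟨w, hlen, hw⟩ : ∃ w : List (Sym W), w.length ≤ 2 * L + 1 ∧ ∀ st, run w st = f :: st := by
      rcases hf with ⟨b, rfl⟩ | ⟨r, hr, hr2⟩
      · exact ⟨[.inr (.inl b)], by simp, fun st => rfl⟩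
      · obtain ⟨w, h1, h2⟩ := word_of_fp hr2
        exact ⟨w, by omega, h2⟩
    have hlen2 : (w ++ List.replicate (2 * L + 1 - w.length)
        (.inr (.inr (.inr ())) : Sym W)).length = 2 * L + 1 := by
      rw [List.length_append, List.length_replicate]
      omega
    refine ⟨fun i => (w ++ List.replicate (2 * L + 1 - w.length)
      (.inr (.inr (.inr ())) : Sym W)).get (i.cast hlen2.symm), ?_⟩
    have e := ofFn_get_cast (w ++ List.replicate (2 * L + 1 - w.length)
      (.inr (.inr (.inr ())) : Sym W)) (2 * L + 1) hlen2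
    change P ((run (List.ofFn (fun i : Fin (2 * L + 1) => (w ++ List.replicate
      (2 * L + 1 - w.length) (.inr (.inr (.inr ())) : Sym W)).get (i.cast hlen2.symm)))
        []).headD (fun _ => false)) = U
    rw [e]
    rw [run_append, hw, run_noop]
    exact hfU
  have h1 := Fintype.card_le_of_surjective _ hsurj
  rw [Fintype.card_fun, Fintype.card_fun, Fintype.card_fun, Fintype.card_bool, Fintype.card_fin,
    Fintype.card_sum, Fintype.card_prod, Fintype.card_sum, Fintype.card_sum,
    Fintype.card_bool, Fintype.card_unit] at h1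
  have e : Fintype.card W * 2 + (2 + (2 + 1)) = 2 * Fintype.card W + 5 := by ring
  rw [e] at h1
  omega

section

variable {V Z : Type}

open Classical in
/-- guessing -/
noncomputable def prj (f : (V ⊕ Z → Bool) → Bool) : (V → Bool) → Bool :=
  fun x => decide (∃ z : Z → Bool, f (Sum.elim x z) = true)

theorem prj_iff {f : (V ⊕ Z → Bool) → Bool} {x : V → Bool} :
    prj f x = true ↔ ∃ z : Z → Bool, f (Sum.elim x z) = true := by
  classical
  unfold prj
  rw [decide_eq_true_iff]

theorem prj_congr {Z' : Type} {f : (V ⊕ Z → Bool) → Bool} {g : (V ⊕ Z' → Bool) → Bool}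
    (h : ∀ x, (∃ z : Z → Bool, f (Sum.elim x z) = true) ↔
      ∃ z : Z' → Bool, g (Sum.elim x z) = true) : prj f = prj g := by
  funext x
  rw [Bool.eq_iff_iff, prj_iff, prj_iff]
  exact h x

variable {k s t : ℕ}

theorem fm_supp {f : (V ⊕ Z → Bool) → Bool} (h : FM k s t f) : ∃ A : Finset Z, A.card ≤ t ∧
    ∀ x y : V ⊕ Z → Bool, (∀ v, x (.inl v) = y (.inl v)) → (∀ i ∈ A, x (.inr i) = y (.inr i)) →
      f x = f y := by
  classical
  induction h with
  | leaf h =>
    refine ⟨∅, by simp, fun x y hxy _ => ?_⟩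
    unfold lft
    congr 1
    funext v
    exact hxy v
  | guess i b =>
    exact ⟨{i}, by simp, fun x y _ hi => by beta_reduce; rw [hi i (by simp)]⟩
  | and _ _ ih1 ih2 =>
    obtain ⟨A1, h1, e1⟩ := ih1
    obtain ⟨A2, h2, e2⟩ := ih2
    refine ⟨A1 ∪ A2, (card_union_le _ _).trans (by omega), fun x y hv hi => ?_⟩
    beta_reduce
    rw [e1 x y hv (fun i h => hi i (mem_union_left _ h)),
      e2 x y hv (fun i h => hi i (mem_union_right _ h))]
  | or _ _ ih1 ih2 =>
    obtain ⟨A1, h1, e1⟩ := ih1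
    obtain ⟨A2, h2, e2⟩ := ih2
    refine ⟨A1 ∪ A2, (card_union_le _ _).trans (by omega), fun x y hv hi => ?_⟩
    beta_reduce
    rw [e1 x y hv (fun i h => hi i (mem_union_left _ h)),
      e2 x y hv (fun i h => hi i (mem_union_right _ h))]

theorem fm_map {Z' : Type} (φ : Z → Z') {f : (V ⊕ Z → Bool) → Bool} (h : FM k s t f) :
    FM k s t (fun x : V ⊕ Z' → Bool => f (Sum.elim (fun v => x (.inl v))
      (fun i => x (.inr (φ i))))) := by
  induction h with
  | leaf h => exact FM.leaf h
  | guess i b => exact FM.guess (φ i) b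
  | and _ _ ih1 ih2 => exact FM.and ih1 ih2
  | or _ _ ih1 ih2 => exact FM.or ih1 ih2

/-- Only the guesses that occur matter. -/
theorem fn_rename {f : (V ⊕ Z → Bool) → Bool} (h : FN k s t f) :
    ∃ g : (V ⊕ Fin (t + 1) → Bool) → Bool, FN k s t g ∧ prj g = prj f := by
  classical
  rcases h with ⟨b, rfl⟩ | ⟨s', t', hs, ht, h⟩
  · refine ⟨fun _ => b, FN.const b, prj_congr fun x => ?_⟩
    exact ⟨fun ⟨_, hb⟩ => ⟨fun _ => false, hb⟩, fun ⟨_, hb⟩ => ⟨fun _ => false, hb⟩⟩
  · obtain ⟨A, hA, hd⟩ := fm_supp h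
    let e : A ≃ Fin A.card := A.equivFin
    let φ : Z → Fin (t + 1) := fun i => if hi : i ∈ A then ⟨(e ⟨i, hi⟩).val, by omega⟩ else 0
    refine ⟨_, Or.inr ⟨s', t', hs, ht, fm_map φ h⟩, prj_congr fun x => ?_⟩
    constructor
    · rintro ⟨z, hz⟩
      exact ⟨fun i => z (φ i), hz⟩
    · rintro ⟨z, hz⟩
      refine ⟨fun m => if hm : m.val < A.card then z (e.symm ⟨m.val, hm⟩).val else false, ?_⟩
      rw [← hz]
      refine hd _ _ (fun v => rfl) (fun i hi => ?_)
      simp only [Sum.elim_inr]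
      have h1 : (φ i).val = (e ⟨i, hi⟩).val := by
        simp only [φ]
        rw [dif_pos hi]
      have h2 : (φ i).val < A.card := by rw [h1]; exact (e ⟨i, hi⟩).2
      rw [dif_pos h2]
      have h3 : (⟨(φ i).val, h2⟩ : Fin A.card) = e ⟨i, hi⟩ := Fin.ext h1
      rw [h3, Equiv.symm_apply_apply]

end

section

variable {T : Type} {w : ℕ}

/-- A restriction with a free variable in every block contains the outer function. -/
theorem fc_outerM {Z : Type} {S : ℕ} {U : (T → Bool) → Bool} (ρ : Restr (T × Fin w))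
    (h : ∀ t, ∃ i, ρ (t, i) = none) {f : ((T × Fin w) ⊕ Z → Bool) → Bool} (hf : FC 1 S (rsl f ρ))
    (hp : prj f = FU U) :
    ∃ g : (T ⊕ Z → Bool) → Bool, FC 1 S g ∧ prj g = U := by
  classical
  choose i hi using h
  let c : T → Bool := fun t => par (Function.update (fun j => (ρ (t, j)).getD false) (i t) false)
  let g : (T → Bool) → T × Fin w → Bool := fun z v =>
    if v.2 = i v.1 then xor (z v.1) (c v.1) else false
  let g2 : (T ⊕ Z → Bool) → (T × Fin w) ⊕ Z → Bool := fun x =>
    Sum.elim (g (fun t => x (.inl t))) (fun j => x (.inr j))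
  have hg : ∀ v, Junta 1 (fun z => g2 z v) := by
    intro v
    rcases v with v | j
    · refine ⟨{.inl v.1}, by simp, fun z z' h => ?_⟩
      simp only [g2, Sum.elim_inl, g]
      rw [h (.inl v.1) (by simp)]
    · refine ⟨{.inr j}, by simp, fun z z' h => ?_⟩
      simp only [g2, Sum.elim_inr]
      rw [h (.inr j) (by simp)]
  refine ⟨_, FC.comp g2 hg hf, ?_⟩
  have h2 : ∀ z, FU U (ov ρ (g z)) = U z := by
    intro z
    unfold FU
    congr 1
    funext t
    have e1 : (fun j => ov ρ (g z) (t, j)) =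
        Function.update (fun j => (ρ (t, j)).getD false) (i t) (xor (z t) (c t)) := by
      funext j
      by_cases hj : j = i t
      · subst hj
        rw [Function.update_self]
        unfold ov
        rw [hi]
        simp [g]
      · rw [Function.update_of_ne hj]
        unfold ov
        cases hρ : ρ (t, j) with
        | none => simp [g, hj]
        | some b => rfl
    rw [e1, par_update]
    change xor (c t) (xor (z t) (c t)) = z t
    cases c t <;> cases z t <;> rfl
  funext z
  rw [← h2 z, ← hp, Bool.eq_iff_iff, prj_iff, prj_iff]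
  exact Iff.rfl

variable [Fintype T] [DecidableEq T]

open Classical in
/-- The lower bound for the composition. -/
theorem andreevM {k s u l κ r : ℕ} {q : ℝ} (hk : 1 ≤ k) (hl : 1 < l) (hκ : 4096 * l ≤ 4 ^ κ)
    (hq : 0 < q) (hq1 : q ≤ 1) (hqD : 32 * k * 2 ^ κ * q ≤ 1) {U : (T → Bool) → Bool} {L : ℕ}
    {Z : Type} (hU : ∀ g : (T ⊕ Z → Bool) → Bool, FC 1 L g → prj g ≠ U)
    {f : ((T × Fin w) ⊕ Z → Bool) → Bool} (hp : prj f = FU U) (hf : FN k s u f)
    (hB : Fintype.card T * (1 - q) ^ w +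
      (6 * s / l + 5 * u + 1) * (5 * (32 * k * 2 ^ κ * q) ^ r) < 1) :
    L * l < (6 * s + 5 * l * u + l) * 2 ^ (r * 4 ^ r + 2) := by
  have hw : ∀ a, 0 ≤ wq q a := wq_nonneg hq.le hq1
  have h1 : Ex (wq q) (fun ρ : Restr (T × Fin w) =>
      if (∃ t, ∀ i, ρ (t, i) ≠ none) then (1 : ℝ) else 0) ≤ Fintype.card T * (1 - q) ^ w := by
    have h2 : ∀ ρ : Restr (T × Fin w), (if (∃ t, ∀ i, ρ (t, i) ≠ none) then (1 : ℝ) else 0) ≤
        ∑ t, (if ∀ i, ρ (t, i) ≠ none then (1 : ℝ) else 0) := by
      intro ρ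
      split_ifs with h
      · obtain ⟨t, ht⟩ := h
        have h3 := single_le_sum (f := fun t => (if ∀ i, ρ (t, i) ≠ none then (1 : ℝ) else 0))
          (fun j _ => by split_ifs <;> norm_num) (mem_univ t)
        simp only [if_pos ht] at h3
        exact h3
      · exact sum_nonneg fun i _ => by split_ifs <;> norm_num
    refine (Ex_mono hw h2).trans ?_
    rw [Ex_sum, sum_congr rfl fun t _ => ex_block t, sum_const, card_univ, nsmul_eq_mul]
  have h1' := lt_of_le_of_lt (add_le_add_left h1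
    ((6 * s / l + 5 * u + 1) * (5 * (32 * k * 2 ^ κ * q) ^ r))) hB
  obtain ⟨ρ, hρ, N, hN, hfc⟩ := shrinkM (t := r) hk hl hκ hq hq1 hqD hf
    (fun ρ => ∃ t, ∀ i, ρ (t, i) ≠ none) (by
      refine lt_of_le_of_lt (le_of_eq ?_) h1'
      congr! 2
      funext ρ
      by_cases h : ∃ t, ∀ i, ρ (t, i) ≠ none
      · rw [if_pos h, if_pos h]
      · rw [if_neg h, if_neg h])
  push Not at hρ
  obtain ⟨g, h2, h4⟩ := fc_outerM ρ hρ hfc hp
  have h3 : L < N * 2 ^ (r * 4 ^ r + 2) := by
    by_contra hno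
    exact hU g (h2.mono (by omega)) h4
  calc L * l < N * 2 ^ (r * 4 ^ r + 2) * l := Nat.mul_lt_mul_of_pos_right h3 (by omega)
    _ = N * l * 2 ^ (r * 4 ^ r + 2) := by ring
    _ ≤ _ := Nat.mul_le_mul_right _ hN

end

end Pool.Agent.V7H70.Fml
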