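import Pool.Agent.V7H70.Fml.BraidD

/-!
# The labelled instance
-/

set_option autoImplicit false

namespace Pool.Agent.V7H70.Fml

section

variable {a w B : ℕ}

/-- the variable of a pair of vertices -/
def vp : Vb a w B → Vb a w B → Option ((Tm a × Fin w) × Bool)
  | .I t j false, .O t' j' β =>
      if h : t = t' ∧ j = j' ∧ j.val < w then some ((t, ⟨j.val, h.2.2⟩), !β) else none
  | _, _ => none

theorem vp_some {u v : Vb a w B} {i : Tm a × Fin w} {b : Bool} (h : vp u v = some (i, b)) :
    ∃ (t : Tm a) (j : Fin (w + 1)) (β : Bool) (hj : j.val < w), u = .I t j false ∧ v = .O t j β ∧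
      i = (t, ⟨j.val, hj⟩) ∧ b = !β := by
  cases u with
  | I t j β0 =>
    cases β0 with
    | false =>
      cases v with
      | O t' j' β =>
        simp only [vp] at h
        split_ifs at h with h1
        · obtain ⟨rfl, rfl, h3⟩ := h1
          simp only [Option.some.injEq, Prod.mk.injEq] at h
          exact ⟨t, j, β, h3, rfl, rfl, h.1.symm, h.2.symm⟩
      | _ => simp [vp] at h
    | true => simp [vp] at h
  | _ => simp [vp] at h

variable (ix : Rw a → ℕ) (cd : Tm a → ℕ) (A : (Tm a → Bool) → Bool)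

theorem vp_none {u v : Vb a w B} (h : vp u v = none) (y y' : Tm a × Fin w → Bool) :
    E ix cd A y u v ↔ E ix cd A y' u v := by
  cases u with
  | I t j β0 =>
    cases v with
    | O t' j' β =>
      simp only [E]
      cases β0 with
      | false =>
        simp only [vp] at h
        split_ifs at h with h1
        constructor
        · rintro ⟨h2, h3, h4 | ⟨h4, _⟩⟩
          · exact absurd h4 (by decide)
          · exact absurd ⟨h2, h3, h4⟩ h1
        · rintro ⟨h2, h3, h4 | ⟨h4, _⟩⟩
          · exact absurd h4 (by decide)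
          · exact absurd ⟨h2, h3, h4⟩ h1
      | true => simp
    | _ => exact Iff.rfl
  | g r κ p => cases v <;> exact Iff.rfl
  | O t j β => cases v <;> exact Iff.rfl
  | M t j β => cases v <;> exact Iff.rfl
  | sp i => cases v <;> exact Iff.rfl

open Classical in
/-- the label of a pair of vertices -/
noncomputable def lab (u v : Vb a w B) : Bool ⊕ ((Tm a × Fin w) × Bool) :=
  match vp u v with
  | some i => Sum.inr i
  | none => match vp v u with
    | some i => Sum.inr i
    | none => Sum.inl (decide (E ix cd A (fun _ => false) u v ∨ E ix cd A (fun _ => false) v u))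

theorem vp_swap {u v : Vb a w B} {i : (Tm a × Fin w) × Bool} (h : vp u v = some i) :
    vp v u = none := by
  obtain ⟨t, j, β, hj, rfl, rfl, _, _⟩ := vp_some (i := i.1) (b := i.2) h
  rfl

theorem lab_symm (u v : Vb a w B) : lab ix cd A u v = lab ix cd A v u := by
  classical
  unfold lab
  cases h1 : vp u v with
  | some i => rw [vp_swap h1]
  | none =>
    cases h2 : vp v u with
    | some i => rfl
    | none => simp only [or_comm]

theorem lab_iff (y : Tm a × Fin w → Bool) (u v : Vb a w B) :
    lv y (lab ix cd A u v) = true ↔ (E ix cd A y u v ∨ E ix cd A y v u) := by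
  classical
  have key : ∀ (u v : Vb a w B) (i : (Tm a × Fin w) × Bool), vp u v = some i →
      (lv y (Sum.inr i) = true ↔ E ix cd A y u v) ∧ ¬ E ix cd A y v u := by
    rintro u v ⟨i, b⟩ h
    obtain ⟨t, j, β, hj, rfl, rfl, rfl, rfl⟩ := vp_some h
    constructor
    · simp only [lv, E, true_and, Bool.false_eq_true, false_or]
      constructor
      · intro h
        refine ⟨hj, ?_⟩
        revert h
        cases y (t, ⟨j.val, hj⟩) <;> cases β <;> simp
      · rintro ⟨_, h⟩
        rw [h]
        cases y (t, ⟨j.val, hj⟩) <;> rfl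
    · simp [E]
  unfold lab
  cases h1 : vp u v with
  | some i =>
    obtain ⟨h2, h3⟩ := key u v i h1
    simp only [h2, h3, or_false]
  | none =>
    cases h2 : vp v u with
    | some i =>
      obtain ⟨h3, h4⟩ := key v u i h2
      simp only [h3, h4, false_or]
    | none =>
      simp only [lv, decide_eq_true_eq]
      rw [vp_none ix cd A h1 (fun _ => false) y, vp_none ix cd A h2 (fun _ => false) y]

theorem lab_right {u v : Vb a w B} (h : (lab ix cd A u v).isRight = true) :
    ∃ (t : Tm a) (j : Fin w) (β : Bool),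
      (u = .I t ⟨j.val, by omega⟩ false ∧ v = .O t ⟨j.val, by omega⟩ β) ∨
      (v = .I t ⟨j.val, by omega⟩ false ∧ u = .O t ⟨j.val, by omega⟩ β) := by
  classical
  unfold lab at h
  cases h1 : vp u v with
  | some i =>
    obtain ⟨t, j, β, hj, rfl, rfl, _, _⟩ := vp_some (i := i.1) (b := i.2) h1
    exact ⟨t, ⟨j.val, hj⟩, β, Or.inl ⟨rfl, rfl⟩⟩
  | none =>
    rw [h1] at h
    cases h2 : vp v u with
    | some i =>
      obtain ⟨t, j, β, hj, rfl, rfl, _, _⟩ := vp_some (i := i.1) (b := i.2) h2
      exact ⟨t, ⟨j.val, hj⟩, β, Or.inr ⟨rfl, rfl⟩⟩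
    | none =>
      rw [h2] at h
      simp at h

end

/-- Parities composed with a table form a subfunction of Hamiltonicity with few variable edges. -/
theorem exists_lab {a w n : ℕ} (ha : 0 < a) (hw : 0 < w)
    (hn : 18 * (a + 1) * 2 ^ a + 12 * a * (w + 1) + (2 * 2 ^ a + 2 * a + 2) ≤ n)
    (A : (Tm a → Bool) → Bool) :
    ∃ Γ : Fin n → Fin n → Bool ⊕ ((Tm a × Fin w) × Bool), (∀ u v, Γ u v = Γ v u) ∧
      (∀ S : Finset (Fin n × Fin n), (∀ p ∈ S, (Γ p.1 p.2).isRight = true) →
        S.card ≤ 8 * a * w) ∧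
      ∀ x, Ham.HamP n (fun p => lv x (Γ p.1.1 p.1.2)) ↔ FU A x = true := by
  classical
  obtain ⟨B, hB⟩ : ∃ B, 18 * (a + 1) * 2 ^ a + 12 * a * (w + 1) + (B + 2 * a + 2) = n :=
    ⟨n - (18 * (a + 1) * 2 ^ a + 12 * a * (w + 1) + (2 * a + 2)), by omega⟩
  have hcR : Fintype.card (Rw a) = 2 * 2 ^ a := by
    rw [Fintype.card_prod, Fintype.card_bool, Fintype.card_fun, Fintype.card_bool,
      Fintype.card_fin]
  have hcT : Fintype.card (Tm a) = 2 * a := by
    rw [Fintype.card_prod, Fintype.card_bool, Fintype.card_fin]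
  let ix : Rw a ≃ Fin (2 * 2 ^ a) := Fintype.equivFinOfCardEq hcR
  let cd : Tm a ≃ Fin (2 * a) := Fintype.equivFinOfCardEq hcT
  have hcV : Fintype.card (Vb a w B) = n := by rw [card_vb, hB]
  let e : Vb a w B ≃ Fin n := Fintype.equivFinOfCardEq hcV
  set ixn : Rw a → ℕ := fun r => (ix r).val with hix
  set cdn : Tm a → ℕ := fun t => (cd t).val with hcd
  refine ⟨fun i j => lab ixn cdn A (e.symm i) (e.symm j), fun u v => lab_symm _ _ _ _ _,
    ?_, ?_⟩
  · intro S hS
    have hsub : S ⊆ (Finset.univ : Finset ((Tm a × Fin w) × Bool × Bool)).image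
        (fun q => if q.2.2 = true then
          (e (.I q.1.1 ⟨q.1.2.val, by omega⟩ false), e (.O q.1.1 ⟨q.1.2.val, by omega⟩ q.2.1))
          else
          (e (.O q.1.1 ⟨q.1.2.val, by omega⟩ q.2.1),
            e (.I q.1.1 ⟨q.1.2.val, by omega⟩ false))) := by
      intro p hp
      rw [Finset.mem_image]
      obtain ⟨t, j, β, ⟨h1, h2⟩ | ⟨h1, h2⟩⟩ := lab_right _ _ _ (hS p hp)
      · refine ⟨((t, j), β, true), Finset.mem_univ _, ?_⟩
        simp only [if_true]
        rw [← h1, ← h2]
        simp
      · refine ⟨((t, j), β, false), Finset.mem_univ _, ?_⟩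
        simp only [Bool.false_eq_true, if_false]
        rw [← h1, ← h2]
        simp
    refine (Finset.card_le_card hsub).trans (Finset.card_image_le.trans (le_of_eq ?_))
    rw [Finset.card_univ, Fintype.card_prod, Fintype.card_prod, hcT, Fintype.card_prod,
      Fintype.card_bool, Fintype.card_fin]
    ring
  · intro x
    have hiso : ∀ u v : Vb a w B, (SimpleGraph.fromRel (fun i j : Fin n => ∃ _ : i < j,
        lv x (lab ixn cdn A (e.symm i) (e.symm j)) = true)).Adj (e u) (e v) ↔
      (Gb ixn cdn A x).Adj u v := by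
      intro u v
      rw [SimpleGraph.fromRel_adj, Gb, SimpleGraph.fromRel_adj]
      simp only [Equiv.symm_apply_apply, lab_iff, exists_prop, ne_eq,
        EmbeddingLike.apply_eq_iff_eq]
      constructor
      · rintro ⟨h1, ⟨_, h2⟩ | ⟨_, h2⟩⟩
        · exact ⟨h1, h2⟩
        · exact ⟨h1, h2.symm⟩
      · rintro ⟨h1, h2⟩
        refine ⟨h1, ?_⟩
        rcases lt_or_gt_of_ne (fun h => h1 (e.injective h) : e u ≠ e v) with h | h
        · exact Or.inl ⟨h, h2⟩
        · exact Or.inr ⟨h, h2.symm⟩
    let iso : Gb ixn cdn A x ≃g (SimpleGraph.fromRel (fun i j : Fin n => ∃ _ : i < j,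
        lv x (lab ixn cdn A (e.symm i) (e.symm j)) = true)) :=
      ⟨e, by intro u v; exact hiso u v⟩
    constructor
    · intro h
      have h1 := Ham.iso_ham iso.symm h
      refine par_of_ham ha hw ?_ ?_ ?_ h1
      · intro r
        have := (ix r).2
        change (ix r).val + 1 ≤ B
        omega
      · intro t
        exact (cd t).2
      · intro t t' h
        exact cd.injective (Fin.ext h)
    · intro h
      exact Ham.iso_ham iso (ham_of_par ix cd A x ha (by omega) h)

/-- The subfunction of a formula. -/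
theorem fc_of_formula {a w n k : ℕ} (ha : 0 < a) (hw : 0 < w)
    (hn : 18 * (a + 1) * 2 ^ a + 12 * a * (w + 1) + (2 * 2 ^ a + 2 * a + 2) ≤ n)
    (A : (Tm a → Bool) → Bool) (F : Formula {p : Fin n × Fin n // p.1 < p.2})
    (hF : F.Local k) (hham : ∀ x, F.eval x = true ↔ Ham.HamP n x) :
    ∃ s, s * (n * (n - 1)) ≤ F.leaves * k * (8 * a * w) ∧ FC k s (FU (w := w) A) := by
  obtain ⟨Γ, h1, h2, h3⟩ := exists_lab ha hw hn A
  exact relabel F hF hham Γ h1 h2 _ h3

end Pool.Agent.V7H70.Fml
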