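import Pool.Agent.V7H70.Fml.Basic

/-!
# Formulas with guess leaves: decomposition and shrinkage
-/

set_option autoImplicit false

namespace Pool.Agent.V7H70.Fml

open Finset H568R2 Pool.Agent.H676

section

variable {V Z : Type}

/-- a function of the inputs as a function of inputs and guesses -/
def lft (g : (V → Bool) → Bool) : (V ⊕ Z → Bool) → Bool := fun x => g (fun v => x (.inl v))

/-- `f` is computed by a formula with exactly `s` leaves that compute functions of at most `k`
inputs and `t` leaves labelled by guesses. -/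
inductive FM (k : ℕ) : ℕ → ℕ → ((V ⊕ Z → Bool) → Bool) → Prop
  | leaf {g : (V → Bool) → Bool} (h : Junta k g) : FM k 1 0 (lft g)
  | guess (i : Z) (b : Bool) : FM k 0 1 (fun x => xor (x (.inr i)) b)
  | and {s t s' t' : ℕ} {f g : (V ⊕ Z → Bool) → Bool} : FM k s t f → FM k s' t' g →
      FM k (s + s') (t + t') (fun x => f x && g x)
  | or {s t s' t' : ℕ} {f g : (V ⊕ Z → Bool) → Bool} : FM k s t f → FM k s' t' g →
      FM k (s + s') (t + t') (fun x => f x || g x)

/-- the same, with at most `s` and at most `t` leaves, or constant -/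
def FN (k s t : ℕ) (f : (V ⊕ Z → Bool) → Bool) : Prop :=
  (∃ b, f = fun _ => b) ∨ ∃ s' t', s' ≤ s ∧ t' ≤ t ∧ FM k s' t' f

variable {k s t s' t' : ℕ} {f g : (V ⊕ Z → Bool) → Bool}

theorem FN.mono (h : FN k s t f) (hs : s ≤ s') (ht : t ≤ t') : FN k s' t' f := by
  rcases h with h | ⟨a, b, h1, h2, h3⟩
  · exact Or.inl h
  · exact Or.inr ⟨a, b, h1.trans hs, h2.trans ht, h3⟩

theorem FN.const (b : Bool) : FN (V := V) (Z := Z) k s t (fun _ => b) := Or.inl ⟨b, rfl⟩

theorem FN.and (hf : FN k s t f) (hg : FN k s' t' g) :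
    FN k (s + s') (t + t') (fun x => f x && g x) := by
  rcases hf with ⟨b, rfl⟩ | ⟨a, a', h1, h1', h2⟩
  · cases b
    · left; exact ⟨false, by funext x; simp⟩
    · have : (fun x => (fun _ : V ⊕ Z → Bool => true) x && g x) = g := by funext x; simp
      rw [this]
      exact hg.mono (by omega) (by omega)
  · rcases hg with ⟨b, rfl⟩ | ⟨c, c', h3, h3', h4⟩
    · cases b
      · left; exact ⟨false, by funext x; simp⟩
      · have : (fun x => f x && (fun _ : V ⊕ Z → Bool => true) x) = f := by funext x; simp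
        rw [this]
        exact Or.inr ⟨a, a', by omega, by omega, h2⟩
    · exact Or.inr ⟨a + c, a' + c', by omega, by omega, FM.and h2 h4⟩

theorem FN.or (hf : FN k s t f) (hg : FN k s' t' g) :
    FN k (s + s') (t + t') (fun x => f x || g x) := by
  rcases hf with ⟨b, rfl⟩ | ⟨a, a', h1, h1', h2⟩
  · cases b
    · have : (fun x => (fun _ : V ⊕ Z → Bool => false) x || g x) = g := by funext x; simp
      rw [this]
      exact hg.mono (by omega) (by omega)
    · left; exact ⟨true, by funext x; simp⟩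
  · rcases hg with ⟨b, rfl⟩ | ⟨c, c', h3, h3', h4⟩
    · cases b
      · have : (fun x => f x || (fun _ : V ⊕ Z → Bool => false) x) = f := by funext x; simp
        rw [this]
        exact Or.inr ⟨a, a', by omega, by omega, h2⟩
      · left; exact ⟨true, by funext x; simp⟩
    · exact Or.inr ⟨a + c, a' + c', by omega, by omega, FM.or h2 h4⟩

theorem fc_lift {K : ℕ} {g : (V → Bool) → Bool} (h : FC 1 K g) :
    FC 1 K (lft (Z := Z) g) := by
  refine FC.comp (fun (x : V ⊕ Z → Bool) v => x (.inl v)) (fun v => ?_) h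
  exact ⟨{.inl v}, by simp, fun x y h => h _ (by simp)⟩

/-- overwriting by a restriction of the inputs -/
def ovl (ρ : Restr V) (x : V ⊕ Z → Bool) : V ⊕ Z → Bool :=
  Sum.elim (ov ρ (fun v => x (.inl v))) (fun i => x (.inr i))

/-- the restricted function -/
def rsl (f : (V ⊕ Z → Bool) → Bool) (ρ : Restr V) : (V ⊕ Z → Bool) → Bool := fun x => f (ovl ρ x)

/-- what the pieces are good for -/
def GoodM (N : ℕ) (S : List ((V → Bool) → Bool)) (f : (V ⊕ Z → Bool) → Bool) : Prop :=
  ∀ (ρ : Restr V) (K : ℕ), 1 ≤ K → (∀ g ∈ S, FC 1 K (rs g ρ)) → FC 1 (N * K) (rsl f ρ)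

/-- The invariant: small, or a small context around a decomposed formula. -/
def InvM (k l s t : ℕ) (f : (V ⊕ Z → Bool) → Bool) : Prop :=
  (t = 0 ∧ s < l ∧ ∃ g, FP k s g ∧ f = lft g) ∨
  ∃ (c N : ℕ) (p0 p1 : (V → Bool) → Bool) (G : (V ⊕ Z → Bool) → Bool)
    (S : List ((V → Bool) → Bool)),
    c < l ∧ FC k c p0 ∧ FC k c p1 ∧ (f = fun x => lft p0 x || (G x && lft p1 x)) ∧
    S.length ≤ N ∧ (∀ g ∈ S, FC k l g) ∧ GoodM N S G ∧ (N + 4) * l + 6 * c ≤ 6 * s + 5 * l * t

theorem goodM_append {N1 N2 : ℕ} {S1 S2 : List ((V → Bool) → Bool)}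
    (h1 : GoodM N1 S1 f) (h2 : GoodM N2 S2 g) :
    GoodM (N1 + N2) (S1 ++ S2) (fun x => f x && g x) ∧
    GoodM (N1 + N2) (S1 ++ S2) (fun x => f x || g x) := by
  constructor
  · intro ρ K hK h
    have e1 := h1 ρ K hK (fun g hg => h g (List.mem_append_left _ hg))
    have e2 := h2 ρ K hK (fun g hg => h g (List.mem_append_right _ hg))
    rw [add_mul]
    exact e1.and e2
  · intro ρ K hK h
    have e1 := h1 ρ K hK (fun g hg => h g (List.mem_append_left _ hg))
    have e2 := h2 ρ K hK (fun g hg => h g (List.mem_append_right _ hg))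
    rw [add_mul]
    exact e1.or e2

theorem goodM_single (g : (V → Bool) → Bool) : GoodM (Z := Z) 1 [g] (lft g) := by
  intro ρ K _ h
  rw [one_mul]
  exact fc_lift (h g (by simp))

theorem goodM_guess (i : Z) (b : Bool) : GoodM (V := V) 1 [] (fun x => xor (x (.inr i)) b) := by
  intro ρ K hK _
  rw [one_mul]
  refine Or.inr ⟨1, hK, FP.leaf ⟨{.inr i}, by simp, fun x y h => ?_⟩⟩
  simp only [rsl, ovl, Sum.elim_inr]
  rw [h _ (by simp)]

/-- closing a context -/
theorem goodM_close {N : ℕ} {S : List ((V → Bool) → Bool)} {p0 p1 : (V → Bool) → Bool}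
    {G : (V ⊕ Z → Bool) → Bool} (h : GoodM N S G) :
    GoodM (N + 2) (S ++ [p0, p1]) (fun x => lft p0 x || (G x && lft p1 x)) := by
  intro ρ K hK hS
  have e1 := h ρ K hK (fun g hg => hS g (List.mem_append_left _ hg))
  have e2 : FC 1 K (lft (Z := Z) (rs p0 ρ)) := fc_lift (hS p0 (by simp))
  have e3 : FC 1 K (lft (Z := Z) (rs p1 ρ)) := fc_lift (hS p1 (by simp))
  have := e2.or (e1.and e3)
  refine FC.mono this ?_
  ring_nf
  exact le_rfl

theorem invM_gate {l : ℕ} (hf : InvM k l s t f) (hg : InvM k l s' t' g)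
    (op : Bool → Bool → Bool)
    (hop : ∀ p0 p1 G g, op (p0 || (G && p1)) g = (op p0 g || (G && op p1 g)))
    (hcomm : ∀ a b, op a b = op b a)
    (hFP : ∀ {s t : ℕ} {f g : (V → Bool) → Bool}, FP k s f → FP k t g →
      FP k (s + t) (fun x => op (f x) (g x)))
    (hFC : ∀ {s t : ℕ} {f g : (V → Bool) → Bool}, FC k s f → FC k t g →
      FC k (s + t) (fun x => op (f x) (g x)))
    (hgood : ∀ {N1 N2 : ℕ} {S1 S2 : List ((V → Bool) → Bool)} {f g : (V ⊕ Z → Bool) → Bool},
      GoodM N1 S1 f → GoodM N2 S2 g → GoodM (N1 + N2) (S1 ++ S2) (fun x => op (f x) (g x))) :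
    InvM k l (s + s') (t + t') (fun x => op (f x) (g x)) := by
  have fcl : ∀ {s : ℕ} {f : (V → Bool) → Bool}, s < l → FC k s f → FC k l f :=
    fun h h' => h'.mono (le_of_lt h)
  -- a decomposed function with the trivial context
  have mk : ∀ {s t : ℕ} (G : (V ⊕ Z → Bool) → Bool) (N : ℕ) (S : List ((V → Bool) → Bool)),
      0 < l → S.length ≤ N → (∀ g ∈ S, FC k l g) → GoodM N S G →
      (N + 4) * l ≤ 6 * s + 5 * l * t → InvM k l s t G := by
    intro s t G N S hl hN hS hG hb
    right
    refine ⟨0, N, fun _ => false, fun _ => true, G, S, hl, FC.const _, FC.const _, ?_, hN, hS, hG,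
      by omega⟩
    funext x
    simp [lft]
  -- extending or closing a context, with the small formula on the other side
  have one_heavy : ∀ {s t s' : ℕ} {f : (V ⊕ Z → Bool) → Bool} {g : (V → Bool) → Bool} (c N : ℕ)
      (p0 p1 : (V → Bool) → Bool) (G : (V ⊕ Z → Bool) → Bool)
      (S : List ((V → Bool) → Bool)), c < l → FC k c p0 → FC k c p1 →
      (f = fun x => lft p0 x || (G x && lft p1 x)) → S.length ≤ N → (∀ g ∈ S, FC k l g) →
      GoodM N S G → (N + 4) * l + 6 * c ≤ 6 * s + 5 * l * t → s' < l → FP k s' g →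
      InvM k l (s + s') t (fun x => op (f x) (lft g x)) := by
    intro s t s' f g c N p0 p1 G S hc h0 h1 hf hN hS hG hb ht hg
    have hg' : FC k s' g := Or.inr ⟨s', le_rfl, hg⟩
    by_cases hct : c + s' < l
    · right
      refine ⟨c + s', N, fun x => op (p0 x) (g x), fun x => op (p1 x) (g x), G, S, hct,
        hFC h0 hg', hFC h1 hg', ?_, hN, hS, hG, by omega⟩
      funext x
      rw [hf]
      exact hop _ _ _ _
    · have hG' := hgood (goodM_close (p0 := p0) (p1 := p1) hG) (goodM_single (Z := Z) g)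
      subst hf
      refine mk _ (N + 2 + 1) _ (by omega) (by simp; omega) ?_ hG' ?_
      · intro r hr
        simp only [List.mem_append, List.mem_cons, List.not_mem_nil, or_false] at hr
        rcases hr with (hr | rfl | rfl) | rfl
        · exact hS r hr
        · exact fcl hc h0
        · exact fcl hc h1
        · exact fcl ht hg'
      · have e1 : (N + 2 + 1 + 4) * l = (N + 4) * l + 3 * l := by ring
        omega
  rcases hf with ⟨rfl, hs, f', hf, rfl⟩ | ⟨c, N, p0, p1, G, S, hc, h0, h1, hf, hN, hS, hG, hb⟩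
  · rcases hg with ⟨rfl, ht, g', hg, rfl⟩ | ⟨c, N, p0, p1, G, S, hc, h0, h1, hg, hN, hS, hG, hb⟩
    · by_cases hst : s + s' < l
      · exact Or.inl ⟨rfl, hst, _, hFP hf hg, rfl⟩
      · refine mk _ (1 + 1) _ (by omega) le_rfl ?_ (hgood (goodM_single f') (goodM_single g'))
          (by omega)
        intro r hr
        simp only [List.cons_append, List.nil_append, List.mem_cons, List.not_mem_nil,
          or_false] at hr
        rcases hr with rfl | rfl
        · exact fcl hs (Or.inr ⟨s, le_rfl, hf⟩)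
        · exact fcl ht (Or.inr ⟨s', le_rfl, hg⟩)
    · have := one_heavy c N p0 p1 G S hc h0 h1 hg hN hS hG hb hs hf
      rw [add_comm s s', add_comm 0 t']
      have e : (fun x => op (lft f' x) (g x)) = fun x => op (g x) (lft f' x) := by
        funext x; exact hcomm _ _
      rw [e]
      exact this
  · rcases hg with ⟨rfl, ht, g', hg, rfl⟩ |
      ⟨c', N', p0', p1', G', S', hc', h0', h1', hg, hN', hS', hG', hb'⟩
    · exact one_heavy c N p0 p1 G S hc h0 h1 hf hN hS hG hb ht hg
    · have e1 := hgood (goodM_close (p0 := p0) (p1 := p1) hG)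
        (goodM_close (p0 := p0') (p1 := p1') hG')
      subst hf
      subst hg
      refine mk _ (N + 2 + (N' + 2)) _ (by omega) (by simp; omega) ?_ e1 ?_
      · intro r hr
        simp only [List.mem_append, List.mem_cons, List.not_mem_nil, or_false] at hr
        rcases hr with (hr | rfl | rfl) | (hr | rfl | rfl)
        · exact hS r hr
        · exact fcl hc h0
        · exact fcl hc h1
        · exact hS' r hr
        · exact fcl hc' h0'
        · exact fcl hc' h1'
      · have e2 : (N + 2 + (N' + 2) + 4) * l = (N + 4) * l + (N' + 4) * l := by ring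
        have e3 : 5 * l * (t + t') = 5 * l * t + 5 * l * t' := by ring
        omega

theorem invM_of_fm {l : ℕ} (hl : 1 < l) (h : FM k s t f) : InvM k l s t f := by
  induction h with
  | leaf h => exact Or.inl ⟨rfl, hl, _, FP.leaf h, rfl⟩
  | guess i b =>
    right
    refine ⟨0, 1, fun _ => false, fun _ => true, _, [], by omega, FC.const _, FC.const _, ?_,
      by simp, by simp, goodM_guess i b, by omega⟩
    funext x
    simp [lft]
  | and _ _ ih1 ih2 =>
    exact invM_gate ih1 ih2 (fun a b => a && b) (by decide) (by decide) FP.and FC.and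
      (fun h1 h2 => (goodM_append h1 h2).1)
  | or _ _ ih1 ih2 =>
    exact invM_gate ih1 ih2 (fun a b => a || b) (by decide) (by decide) FP.or FC.or
      (fun h1 h2 => (goodM_append h1 h2).2)

/-- The decomposition. -/
theorem decompM {l : ℕ} (hl : 1 < l) (h : FN k s t f) :
    ∃ (N : ℕ) (S : List ((V → Bool) → Bool)), S.length ≤ N ∧ N * l ≤ 6 * s + 5 * l * t + l ∧
      (∀ g ∈ S, FC k l g) ∧ GoodM N S f := by
  rcases h with ⟨b, rfl⟩ | ⟨s1, t1, hs, ht, h⟩
  · refine ⟨1, [fun _ => b], by simp, by omega, ?_, goodM_single _⟩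
    intro g hg
    simp only [List.mem_cons, List.not_mem_nil, or_false] at hg
    rw [hg]
    exact FC.const b
  · have ht' : 5 * l * t1 ≤ 5 * l * t := Nat.mul_le_mul_left _ ht
    rcases invM_of_fm hl h with ⟨_, h1, g, h2, rfl⟩ |
      ⟨c, N, p0, p1, G, S, hc, h0, h1, hf, hN, hS, hG, hb⟩
    · refine ⟨1, [g], by simp, by omega, ?_, goodM_single g⟩
      intro g' hg
      simp only [List.mem_cons, List.not_mem_nil, or_false] at hg
      rw [hg]
      exact Or.inr ⟨s1, h1.le, h2⟩
    · refine ⟨N + 2, S ++ [p0, p1], by simp; omega, ?_, ?_, ?_⟩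
      · have : (N + 4) * l = (N + 2) * l + 2 * l := by ring
        omega
      · intro g hg
        simp only [List.mem_append, List.mem_cons, List.not_mem_nil, or_false] at hg
        rcases hg with hr | rfl | rfl
        · exact hS g hr
        · exact h0.mono hc.le
        · exact h1.mono hc.le
      · have := goodM_close (p0 := p0) (p1 := p1) hG
        rw [← hf] at this
        exact this

end

/-! ### shrinkage -/

section

variable {V Z : Type} [Fintype V] [DecidableEq V]

open Classical in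
/-- A random restriction simplifies the pieces of a formula. -/
theorem shrinkM {k s u l κ t : ℕ} {q : ℝ} (hk : 1 ≤ k) (hl : 1 < l) (hκ : 4096 * l ≤ 4 ^ κ)
    (hq : 0 < q) (hq1 : q ≤ 1) (hqD : 32 * k * 2 ^ κ * q ≤ 1) {f : (V ⊕ Z → Bool) → Bool}
    (hf : FN k s u f) (B : Restr V → Prop)
    (hB : Ex (wq q) (fun ρ : Restr V => if B ρ then (1 : ℝ) else 0) +
      (6 * s / l + 5 * u + 1) * (5 * (32 * k * 2 ^ κ * q) ^ t) < 1) :
    ∃ ρ : Restr V, ¬ B ρ ∧ ∃ N : ℕ, N * l ≤ 6 * s + 5 * l * u + l ∧
      FC 1 (N * 2 ^ (t * 4 ^ t + 2)) (rsl f ρ) := by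
  obtain ⟨N, S, hSN, hlen, hS, hG⟩ := decompM hl hf
  by_contra hno
  push Not at hno
  -- every restriction is bad
  have hbad : ∀ ρ : Restr V, (1 : ℝ) ≤ (if B ρ then (1 : ℝ) else 0) +
      ∑ i : Fin S.length, (if ¬ Junta (t * 4 ^ t) (rs (S.get i) ρ) then (1 : ℝ) else 0) := by
    intro ρ
    by_cases hBρ : B ρ
    · rw [if_pos hBρ]
      have : (0 : ℝ) ≤ ∑ i : Fin S.length,
          (if ¬ Junta (t * 4 ^ t) (rs (S.get i) ρ) then (1 : ℝ) else 0) :=
        sum_nonneg fun i _ => by split_ifs <;> norm_num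
      linarith
    · rw [if_neg hBρ, zero_add]
      have h1 : ∃ i : Fin S.length, ¬ Junta (t * 4 ^ t) (rs (S.get i) ρ) := by
        by_contra hall
        push Not at hall
        refine hno ρ hBρ N hlen (hG ρ _ (Nat.one_le_two_pow) ?_)
        intro g hg
        obtain ⟨i, rfl⟩ := List.get_of_mem hg
        exact fc_of_junta _ (hall i)
      obtain ⟨i, hi⟩ := h1
      have h2 := single_le_sum (f := fun i : Fin S.length =>
        (if ¬ Junta (t * 4 ^ t) (rs (S.get i) ρ) then (1 : ℝ) else 0))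
        (fun j _ => by split_ifs <;> norm_num) (mem_univ i)
      simp only [if_pos hi] at h2
      exact h2
  have hw : ∀ a, 0 ≤ wq q a := wq_nonneg hq.le hq1
  have h1 := Ex_mono (I := V) hw hbad
  rw [Ex_const (wq_sum q), Ex_add, Ex_sum] at h1
  have h2 : ∀ i : Fin S.length, Ex (wq q) (fun ρ : Restr V =>
      (if ¬ Junta (t * 4 ^ t) (rs (S.get i) ρ) then (1 : ℝ) else 0)) ≤
      5 * (32 * k * 2 ^ κ * q) ^ t := by
    intro i
    rcases hS (S.get i) (List.get_mem S i) with ⟨b, hb⟩ | ⟨r, hr, hr2⟩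
    · have h3 : (fun ρ : Restr V =>
          (if ¬ Junta (t * 4 ^ t) (rs (S.get i) ρ) then (1 : ℝ) else 0)) = fun _ => 0 := by
        funext ρ
        rw [if_neg]
        rw [not_not, hb]
        exact ⟨∅, by simp, fun x y _ => rfl⟩
      rw [h3, Ex_const (wq_sum q)]
      positivity
    · have h3 := Adv.shrink (K := k) (s := l) (t := t) (k := κ) hk (by omega)
        (Adv.mono hr (adv_of_fp hr2)) hκ hq hqD
      exact h3
  have h3 := sum_le_sum (fun i (_ : i ∈ (univ : Finset (Fin S.length))) => h2 i)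
  rw [sum_const, card_univ, Fintype.card_fin, nsmul_eq_mul] at h3
  have h4 : (S.length : ℝ) ≤ 6 * s / l + 5 * u + 1 := by
    have hlR : (0 : ℝ) < l := by
      have : 0 < l := by omega
      exact_mod_cast this
    have h5 : (S.length : ℝ) * l ≤ 6 * s + 5 * l * u + l := by
      have : S.length * l ≤ 6 * s + 5 * l * u + l :=
        (Nat.mul_le_mul_right l hSN).trans hlen
      exact_mod_cast this
    rw [← le_div_iff₀ hlR] at h5
    refine h5.trans (le_of_eq ?_)
    field_simp
  have h5 : (S.length : ℝ) * (5 * (32 * k * 2 ^ κ * q) ^ t) ≤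
      (6 * s / l + 5 * u + 1) * (5 * (32 * k * 2 ^ κ * q) ^ t) :=
    mul_le_mul_of_nonneg_right h4 (by positivity)
  linarith

end

end Pool.Agent.V7H70.Fml
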