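import Pool.Agent.V7H70.Fml.NetDefs
import Pool.Agent.V7H70.Fml.Hard2
import Pool.Agent.V7H70.Fml.Relabel

/-!
# From networks to formulas with guesses
-/

set_option autoImplicit false

namespace Pool.Agent.V7H70.Fml

open Finset H568R2 Pool.Agent.H676

/-- formulas with guesses -/
inductive NF (ι Z : Type) : Type
  | cst (b : Bool) : NF ι Z
  | leaf (f : (ι → Bool) → Bool) : NF ι Z
  | guess (i : Z) : NF ι Z
  | not (F : NF ι Z) : NF ι Z
  | and (F G : NF ι Z) : NF ι Z
  | or (F G : NF ι Z) : NF ι Z

section

variable {ι Z V : Type}

/-- the value -/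
def NF.eval (x : ι → Bool) (z : Z → Bool) : NF ι Z → Bool
  | .cst b => b
  | .leaf f => f x
  | .guess i => z i
  | .not F => !F.eval x z
  | .and F G => F.eval x z && G.eval x z
  | .or F G => F.eval x z || G.eval x z

/-- the number of input leaves -/
def NF.xl : NF ι Z → ℕ
  | .cst _ => 0
  | .leaf _ => 1
  | .guess _ => 0
  | .not F => F.xl
  | .and F G => F.xl + G.xl
  | .or F G => F.xl + G.xl

/-- the number of guess leaves -/
def NF.gl : NF ι Z → ℕ
  | .cst _ => 0
  | .leaf _ => 0
  | .guess _ => 1
  | .not F => F.gl
  | .and F G => F.gl + G.gl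
  | .or F G => F.gl + G.gl

/-- every input leaf is a function of at most `k` bits -/
def NF.Loc (k : ℕ) : NF ι Z → Prop
  | .cst _ => True
  | .leaf f => Junta k f
  | .guess _ => True
  | .not F => F.Loc k
  | .and F G => F.Loc k ∧ G.Loc k
  | .or F G => F.Loc k ∧ G.Loc k

open Classical in
/-- the number of input leaves that do not become constant -/
noncomputable def NF.touch (sub : ι → Bool ⊕ (V × Bool)) : NF ι Z → ℕ
  | .cst _ => 0
  | .leaf f => if (∃ b, ∀ x, f (fun i => lv x (sub i)) = b) then 0 else 1
  | .guess _ => 0
  | .not F => F.touch sub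
  | .and F G => F.touch sub + G.touch sub
  | .or F G => F.touch sub + G.touch sub

/-- the function of variables and guesses after a substitution -/
def NF.fn (F : NF ι Z) (sub : ι → Bool ⊕ (V × Bool)) : (V ⊕ Z → Bool) → Bool :=
  fun x => F.eval (fun i => lv (fun v => x (.inl v)) (sub i)) (fun i => x (.inr i))

theorem NF.touch_fn {k : ℕ} (sub : ι → Bool ⊕ (V × Bool)) : ∀ (F : NF ι Z), F.Loc k →
    FN k (F.touch sub) F.gl (F.fn sub) ∧ FN k (F.touch sub) F.gl (fun x => !F.fn sub x) := by
  classical
  intro F
  induction F with
  | cst b => intro _; exact ⟨Or.inl ⟨b, rfl⟩, Or.inl ⟨!b, rfl⟩⟩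
  | leaf f =>
    rintro ⟨s, hs, hd⟩
    simp only [NF.touch]
    split_ifs with ht
    · obtain ⟨b, hb⟩ := ht
      exact ⟨Or.inl ⟨b, funext fun x => hb _⟩, Or.inl ⟨!b, funext fun x => congrArg _ (hb _)⟩⟩
    · have hj : Junta k (fun x : V → Bool => f (fun i => lv x (sub i))) := by
        refine ⟨s.biUnion (fun i => match sub i with
          | .inl _ => (∅ : Finset V)
          | .inr (v, _) => {v}), ?_, ?_⟩
        · refine (card_biUnion_le).trans ((sum_le_card_nsmul _ _ 1 ?_).trans (by simpa using hs))
          intro i _
          cases sub i with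
          | inl b => simp
          | inr p => simp
        · intro x y hxy
          refine hd _ _ fun i hi => ?_
          cases hs : sub i with
          | inl b => rfl
          | inr p =>
            obtain ⟨v, b⟩ := p
            simp only [lv]
            rw [hxy v (mem_biUnion.mpr ⟨i, hi, by rw [hs]; simp⟩)]
      refine ⟨Or.inr ⟨1, 0, le_rfl, le_rfl, FM.leaf hj⟩, Or.inr ⟨1, 0, le_rfl, le_rfl, ?_⟩⟩
      have hj' : Junta k (fun x : V → Bool => !f (fun i => lv x (sub i))) := by
        obtain ⟨A, hA, hd'⟩ := hj
        exact ⟨A, hA, fun x y hxy => congrArg _ (hd' x y hxy)⟩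
      exact FM.leaf hj'
  | guess i =>
    intro _
    refine ⟨Or.inr ⟨0, 1, Nat.zero_le _, le_rfl, ?_⟩, Or.inr ⟨0, 1, Nat.zero_le _, le_rfl, ?_⟩⟩
    · have := FM.guess (V := V) (k := k) i false
      have e : (fun x : V ⊕ Z → Bool => xor (x (.inr i)) false) = (NF.guess i).fn sub := by
        funext x
        simp [NF.fn, NF.eval]
      rwa [e] at this
    · have := FM.guess (V := V) (k := k) i true
      have e : (fun x : V ⊕ Z → Bool => xor (x (.inr i)) true) =
          fun x => !(NF.guess i).fn sub x := by
        funext x
        simp [NF.fn, NF.eval]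
      rwa [e] at this
  | not F ih =>
    intro hk
    obtain ⟨h1, h2⟩ := ih hk
    refine ⟨h2, ?_⟩
    have e : (fun x => !(F.not).fn sub x) = F.fn sub := by
      funext x
      simp [NF.fn, NF.eval]
    rw [e]
    exact h1
  | and F G ih1 ih2 =>
    intro hk
    obtain ⟨h1, h2⟩ := ih1 hk.1
    obtain ⟨h3, h4⟩ := ih2 hk.2
    refine ⟨h1.and h3, ?_⟩
    have e : (fun x => !(F.and G).fn sub x) = fun x => (!F.fn sub x) || (!G.fn sub x) := by
      funext x
      simp [NF.fn, NF.eval]
    rw [e]
    exact h2.or h4
  | or F G ih1 ih2 =>
    intro hk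
    obtain ⟨h1, h2⟩ := ih1 hk.1
    obtain ⟨h3, h4⟩ := ih2 hk.2
    refine ⟨h1.or h3, ?_⟩
    have e : (fun x => !(F.or G).fn sub x) = fun x => (!F.fn sub x) && (!G.fn sub x) := by
      funext x
      simp [NF.fn, NF.eval]
    rw [e]
    exact h2.and h4

/-- averaging -/
theorem NF.touch_avg {k : ℕ} {Ω : Type} [Fintype Ω] (sub : Ω → ι → Bool ⊕ (V × Bool)) (c : ℕ)
    (hc : ∀ i, (univ.filter fun σ : Ω => (sub σ i).isRight = true).card ≤ c) :
    ∀ (F : NF ι Z), F.Loc k → ∑ σ, F.touch (sub σ) ≤ F.xl * (k * c) := by
  classical
  intro F
  induction F with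
  | cst b => intro _; simp [NF.touch, NF.xl]
  | leaf f =>
    rintro ⟨s, hs, hd⟩
    simp only [NF.touch, NF.xl, one_mul]
    calc ∑ σ : Ω, (if (∃ b, ∀ x, f (fun i => lv x (sub σ i)) = b) then 0 else 1)
        ≤ ∑ σ : Ω, ∑ i ∈ s, (if (sub σ i).isRight = true then 1 else 0) := by
          refine sum_le_sum fun σ _ => ?_
          split_ifs with h1
          · exact Nat.zero_le _
          · by_contra hno
            refine h1 ⟨f (fun i => lv (fun _ => false) (sub σ i)), fun x => ?_⟩
            refine hd _ _ fun i hi => ?_
            have h2 : ¬ (sub σ i).isRight = true := by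
              intro h3
              refine hno ?_
              have h4 := single_le_sum (f := fun i => if (sub σ i).isRight = true then 1 else 0)
                (fun j _ => Nat.zero_le _) hi
              simp only [if_pos h3] at h4
              exact h4
            cases hs : sub σ i with
            | inl b => rfl
            | inr p => rw [hs] at h2; simp at h2
      _ = ∑ i ∈ s, ∑ σ : Ω, (if (sub σ i).isRight = true then 1 else 0) := sum_comm
      _ = ∑ i ∈ s, (univ.filter fun σ : Ω => (sub σ i).isRight = true).card := by
          refine sum_congr rfl fun i _ => ?_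
          rw [card_filter]
      _ ≤ ∑ i ∈ s, c := sum_le_sum fun i _ => hc i
      _ = s.card * c := by rw [sum_const, smul_eq_mul]
      _ ≤ k * c := Nat.mul_le_mul_right _ hs
  | guess i => intro _; simp [NF.touch, NF.xl]
  | not F ih => intro hk; exact ih hk
  | and F G ih1 ih2 =>
    intro hk
    have h1 := ih1 hk.1
    have h2 := ih2 hk.2
    simp only [NF.touch, NF.xl, sum_add_distrib, add_mul]
    exact add_le_add h1 h2
  | or F G ih1 ih2 =>
    intro hk
    have h1 := ih1 hk.1
    have h2 := ih2 hk.2
    simp only [NF.touch, NF.xl, sum_add_distrib, add_mul]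
    exact add_le_add h1 h2

/-- conjunction of a list -/
def NF.conj : List (NF ι Z) → NF ι Z
  | [] => .cst true
  | F :: l => .and F (NF.conj l)

theorem NF.conj_eval (x : ι → Bool) (z : Z → Bool) (l : List (NF ι Z)) :
    (NF.conj l).eval x z = l.all fun F => F.eval x z := by
  induction l with
  | nil => rfl
  | cons F l ih => simp only [NF.conj, NF.eval, List.all_cons, ih]

theorem NF.conj_xl (l : List (NF ι Z)) : (NF.conj l).xl = (l.map NF.xl).sum := by
  induction l with
  | nil => rfl
  | cons F l ih => simp only [NF.conj, NF.xl, List.map_cons, List.sum_cons, ih]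

theorem NF.conj_gl (l : List (NF ι Z)) : (NF.conj l).gl = (l.map NF.gl).sum := by
  induction l with
  | nil => rfl
  | cons F l ih => simp only [NF.conj, NF.gl, List.map_cons, List.sum_cons, ih]

theorem NF.conj_loc {k : ℕ} {l : List (NF ι Z)} (h : ∀ F ∈ l, F.Loc k) :
    (NF.conj l).Loc k := by
  induction l with
  | nil => trivial
  | cons F l ih =>
    exact ⟨h F (List.mem_cons_self ..), ih fun G hG => h G (List.mem_cons_of_mem _ hG)⟩

end

/-! ### unfolding a network -/

section

variable {ι : Type} (N : Net ι) (cut : Fin N.s → Bool)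

/-- the formula of a source -/
def srcF (F : Fin N.s → NF ι (N.Z ⊕ Fin N.s)) : Src N.J N.Z N.s → NF ι (N.Z ⊕ Fin N.s)
  | .inp j => .leaf (N.fn j)
  | .guess i => .guess (.inl i)
  | .gate j => if cut j = true then .guess (.inr j) else F j

/-- the formulas of the gates, unfolded `m` times -/
def unf : ℕ → Fin N.s → NF ι (N.Z ⊕ Fin N.s)
  | 0, _ => .cst false
  | m + 1, g => .not (NF.conj ((N.src g).map (srcF N cut (unf m))))

theorem unf_stable : ∀ (m m' : ℕ) (g : Fin N.s), g.val < m → g.val < m' →
    unf N cut m g = unf N cut m' g := by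
  intro m
  induction m with
  | zero => intro m' g h; omega
  | succ m ih =>
    intro m' g h h'
    obtain ⟨m'', rfl⟩ : ∃ m'', m' = m'' + 1 := ⟨m' - 1, by omega⟩
    simp only [unf]
    congr 2
    refine List.map_congr_left fun w hw => ?_
    cases w with
    | inp j => rfl
    | guess i => rfl
    | gate j =>
      have h1 := N.acyclic g j hw
      have h2 : j.val < g.val := h1
      simp only [srcF]
      rw [ih m'' j (by omega) (by omega)]

/-- the formulas of the gates -/
def gF (g : Fin N.s) : NF ι (N.Z ⊕ Fin N.s) := unf N cut N.s g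

theorem gF_eq (g : Fin N.s) :
    gF N cut g = .not (NF.conj ((N.src g).map (srcF N cut (gF N cut)))) := by
  have h1 : gF N cut g = unf N cut (N.s + 1) g :=
    unf_stable N cut _ _ g g.2 (by have := g.2; omega)
  rw [h1]
  rfl

theorem gF_eval (x : ι → Bool) (z : N.Z → Bool) (v : Fin N.s → Bool) (g : Fin N.s) :
    (gF N cut g).eval x (Sum.elim z v) = !((N.src g).all fun w => N.value x z
      (fun j => if cut j = true then v j else (gF N cut j).eval x (Sum.elim z v)) w) := by
  rw [gF_eq]
  simp only [NF.eval, NF.conj_eval, List.all_map]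
  congr 2
  funext w
  cases w with
  | inp j => rfl
  | guess i => rfl
  | gate j =>
    simp only [Function.comp, srcF, Net.value]
    split_ifs
    · rfl
    · rfl

theorem all_congr' {α : Type*} {l : List α} {p q : α → Bool} (h : ∀ a ∈ l, p a = q a) :
    l.all p = l.all q := by
  induction l with
  | nil => rfl
  | cons a l ih =>
    rw [List.all_cons, List.all_cons, h a (List.mem_cons_self ..),
      ih fun b hb => h b (List.mem_cons_of_mem _ hb)]

theorem gF_true (x : ι → Bool) (z : N.Z → Bool) (v : Fin N.s → Bool)
    (hv : ∀ g, v g = !((N.src g).all fun w => N.value x z v w)) :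
    ∀ g, (gF N cut g).eval x (Sum.elim z v) = v g := by
  have key : ∀ (m : ℕ) (g : Fin N.s), g.val = m → (gF N cut g).eval x (Sum.elim z v) = v g := by
    intro m
    induction m using Nat.strong_induction_on with
    | _ m ih =>
      intro g hg
      rw [gF_eval, hv g]
      congr 1
      refine all_congr' fun w hw => ?_
      cases w with
      | inp j => rfl
      | guess i => rfl
      | gate j =>
        have h1 : j.val < g.val := N.acyclic g j hw
        simp only [Net.value]
        split_ifs
        · rfl
        · exact ih j.val (by omega) j rfl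
  exact fun g => key _ g rfl

theorem gF_loc {k : ℕ} (h : ∀ j, Junta k (N.fn j)) (g : Fin N.s) : (gF N cut g).Loc k := by
  have key : ∀ (m : ℕ) (g : Fin N.s), (unf N cut m g).Loc k := by
    intro m
    induction m with
    | zero => intro g; trivial
    | succ m ih =>
      intro g
      refine NF.conj_loc (l := (N.src g).map (srcF N cut (unf N cut m))) ?_
      intro F hF
      rw [List.mem_map] at hF
      obtain ⟨w, _, rfl⟩ := hF
      cases w with
      | inp j => exact h j
      | guess i => trivial
      | gate j =>
        simp only [srcF]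
        split_ifs
        · trivial
        · exact ih j
  exact key _ g

/-! ### counting leaves -/

variable {N cut}

theorem xl_srcF (F : Fin N.s → NF ι (N.Z ⊕ Fin N.s)) (l : List (Src N.J N.Z N.s)) :
    ((l.map (srcF N cut F)).map NF.xl).sum = l.countP Src.isInp +
      ∑ j ∈ univ.filter (fun j => ¬ cut j = true), l.countP (Src.isGate j) * (F j).xl := by
  classical
  induction l with
  | nil => simp
  | cons w l ih =>
    rw [List.map_cons, List.map_cons, List.sum_cons, ih]
    cases w with
    | inp j =>
      have e1 : (Src.inp j :: l : List (Src N.J N.Z N.s)).countP Src.isInp =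
          l.countP Src.isInp + 1 := List.countP_cons_of_pos rfl
      have e2 : ∀ i, (Src.inp j :: l : List (Src N.J N.Z N.s)).countP (Src.isGate i) =
          l.countP (Src.isGate i) := fun i => List.countP_cons_of_neg (by simp [Src.isGate])
      simp only [e1, e2, srcF, NF.xl]
      omega
    | guess j =>
      have e1 : (Src.guess j :: l : List (Src N.J N.Z N.s)).countP Src.isInp =
          l.countP Src.isInp := List.countP_cons_of_neg (by simp [Src.isInp])
      have e2 : ∀ i, (Src.guess j :: l : List (Src N.J N.Z N.s)).countP (Src.isGate i) =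
          l.countP (Src.isGate i) := fun i => List.countP_cons_of_neg (by simp [Src.isGate])
      simp only [e1, e2, srcF, NF.xl]
      omega
    | gate g =>
      have e1 : (Src.gate g :: l : List (Src N.J N.Z N.s)).countP Src.isInp =
          l.countP Src.isInp := List.countP_cons_of_neg (by simp [Src.isInp])
      have e2 : ∀ i, (Src.gate g :: l : List (Src N.J N.Z N.s)).countP (Src.isGate i) =
          l.countP (Src.isGate i) + if g = i then 1 else 0 := by
        intro i
        rw [List.countP_cons]
        simp [Src.isGate]
      simp only [e1, e2, add_mul, sum_add_distrib, srcF]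
      have e3 : ∑ j ∈ univ.filter (fun j => ¬ cut j = true), (if g = j then 1 else 0) * (F j).xl =
          (if cut g = true then 0 else (F g).xl) := by
        simp only [ite_mul, one_mul, zero_mul]
        rw [sum_ite_eq]
        simp only [mem_filter, mem_univ, true_and]
        split_ifs <;> simp_all
      rw [e3]
      split_ifs
      · simp only [NF.xl]; omega
      · omega

theorem gl_srcF (F : Fin N.s → NF ι (N.Z ⊕ Fin N.s)) (l : List (Src N.J N.Z N.s)) :
    ((l.map (srcF N cut F)).map NF.gl).sum = (l.countP Src.isGuess +
      ∑ j ∈ univ.filter (fun j => cut j = true), l.countP (Src.isGate j)) +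
      ∑ j ∈ univ.filter (fun j => ¬ cut j = true), l.countP (Src.isGate j) * (F j).gl := by
  classical
  induction l with
  | nil => simp
  | cons w l ih =>
    rw [List.map_cons, List.map_cons, List.sum_cons, ih]
    cases w with
    | inp j =>
      have e1 : (Src.inp j :: l : List (Src N.J N.Z N.s)).countP Src.isGuess =
          l.countP Src.isGuess := List.countP_cons_of_neg (by simp [Src.isGuess])
      have e2 : ∀ i, (Src.inp j :: l : List (Src N.J N.Z N.s)).countP (Src.isGate i) =
          l.countP (Src.isGate i) := fun i => List.countP_cons_of_neg (by simp [Src.isGate])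
      simp only [e1, e2, srcF, NF.gl]
      omega
    | guess j =>
      have e1 : (Src.guess j :: l : List (Src N.J N.Z N.s)).countP Src.isGuess =
          l.countP Src.isGuess + 1 := List.countP_cons_of_pos rfl
      have e2 : ∀ i, (Src.guess j :: l : List (Src N.J N.Z N.s)).countP (Src.isGate i) =
          l.countP (Src.isGate i) := fun i => List.countP_cons_of_neg (by simp [Src.isGate])
      simp only [e1, e2, srcF, NF.gl]
      omega
    | gate g =>
      have e1 : (Src.gate g :: l : List (Src N.J N.Z N.s)).countP Src.isGuess =
          l.countP Src.isGuess := List.countP_cons_of_neg (by simp [Src.isGuess])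
      have e2 : ∀ i, (Src.gate g :: l : List (Src N.J N.Z N.s)).countP (Src.isGate i) =
          l.countP (Src.isGate i) + if g = i then 1 else 0 := by
        intro i
        rw [List.countP_cons]
        simp [Src.isGate]
      simp only [e1, e2, add_mul, sum_add_distrib, srcF]
      have e3 : ∑ j ∈ univ.filter (fun j => ¬ cut j = true), (if g = j then 1 else 0) * (F j).gl =
          (if cut g = true then 0 else (F g).gl) := by
        simp only [ite_mul, one_mul, zero_mul]
        rw [sum_ite_eq]
        simp only [mem_filter, mem_univ, true_and]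
        split_ifs <;> simp_all
      have e4 : ∑ j ∈ univ.filter (fun j => cut j = true), (if g = j then 1 else 0) =
          (if cut g = true then 1 else 0) := by
        rw [sum_ite_eq]
        simp only [mem_filter, mem_univ, true_and]
      rw [e3, e4]
      split_ifs
      · simp only [NF.gl]; omega
      · omega

/-- the potential argument -/
theorem potential (own h : Fin N.s → ℕ) (hcut : ∀ j, ¬ cut j = true → N.fanout j ≤ 1)
    (hh : ∀ g, h g = own g +
      ∑ j ∈ univ.filter (fun j => ¬ cut j = true), (N.src g).countP (Src.isGate j) * h j) :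
    ∑ g ∈ univ.filter (fun j => cut j = true), h g ≤ ∑ g, own g := by
  classical
  have h1 : ∑ g, h g = ∑ g, own g +
      ∑ j ∈ univ.filter (fun j => ¬ cut j = true), N.fanout j * h j := by
    calc ∑ g, h g = ∑ g, (own g + ∑ j ∈ univ.filter (fun j => ¬ cut j = true),
          (N.src g).countP (Src.isGate j) * h j) := sum_congr rfl fun g _ => hh g
      _ = ∑ g, own g + ∑ j ∈ univ.filter (fun j => ¬ cut j = true),
          ∑ g, (N.src g).countP (Src.isGate j) * h j := by
          rw [sum_add_distrib, sum_comm]
      _ = _ := by
          congr 1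
          refine sum_congr rfl fun j _ => ?_
          rw [Net.fanout, sum_mul]
  have h2 : ∑ j ∈ univ.filter (fun j => ¬ cut j = true), N.fanout j * h j ≤
      ∑ j ∈ univ.filter (fun j => ¬ cut j = true), h j := by
    refine sum_le_sum fun j hj => ?_
    have := hcut j (mem_filter.mp hj).2
    calc N.fanout j * h j ≤ 1 * h j := Nat.mul_le_mul_right _ this
      _ = h j := one_mul _
  have h3 := sum_filter_add_sum_filter_not univ (fun j => cut j = true) h
  omega

end

end Pool.Agent.V7H70.Fml
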