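import Pool.Agent.V7H70.Fml.NetForm
import Pool.Agent.V7H70.Fml.Label

/-!
# Networks for Hamiltonicity contain networks for parities composed with a table
-/

set_option autoImplicit false

namespace Pool.Agent.V7H70.Fml

open Finset H568R2 Pool.Agent.H676

section

variable {ι Z : Type}

/-- equivalence -/
def NF.eqv (F G : NF ι Z) : NF ι Z := .or (.and F G) (.and (.not F) (.not G))

theorem NF.eqv_eval (x : ι → Bool) (z : Z → Bool) (F G : NF ι Z) :
    (NF.eqv F G).eval x z = true ↔ F.eval x z = G.eval x z := by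
  simp only [NF.eqv, NF.eval]
  cases F.eval x z <;> cases G.eval x z <;> simp

variable (N : Net ι)

/-- the gates that are cut -/
def cutG (g : Fin N.s) : Bool := decide (2 ≤ N.fanout g ∨ g = N.out)

/-- the formula that checks a guessed computation -/
noncomputable def chkF : NF ι (N.Z ⊕ Fin N.s) :=
  .and (.guess (.inr N.out)) (NF.conj ((univ.filter fun j => cutG N j = true).toList.map
    fun g => NF.eqv (.guess (.inr g)) (gF N (cutG N) g)))

theorem chkF_loc {k : ℕ} (h : ∀ j, Junta k (N.fn j)) : (chkF N).Loc k := by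
  refine ⟨trivial, NF.conj_loc ?_⟩
  intro F hF
  rw [List.mem_map] at hF
  obtain ⟨g, _, rfl⟩ := hF
  exact ⟨⟨trivial, gF_loc N _ h g⟩, trivial, gF_loc N _ h g⟩

theorem chkF_eval (x : ι → Bool) : N.Accepts x ↔ ∃ z, (chkF N).eval x z = true := by
  have hout : cutG N N.out = true := by simp [cutG]
  constructor
  · rintro ⟨z, v, hv, ho⟩
    refine ⟨Sum.elim z v, ?_⟩
    simp only [chkF, NF.eval, NF.conj_eval, Bool.and_eq_true, List.all_map, List.all_eq_true,
      Sum.elim_inr]
    refine ⟨ho, fun g _ => ?_⟩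
    simp only [Function.comp]
    rw [NF.eqv_eval, gF_true N _ x z v hv g]
    rfl
  · rintro ⟨ζ, h⟩
    simp only [chkF, NF.eval, NF.conj_eval, Bool.and_eq_true, List.all_map, List.all_eq_true] at h
    obtain ⟨h1, h2⟩ := h
    have hζ : ζ = Sum.elim (fun i => ζ (.inl i)) (fun i => ζ (.inr i)) := by
      funext i
      cases i <;> rfl
    have h3 : ∀ g, cutG N g = true → ζ (.inr g) = (gF N (cutG N) g).eval x ζ := by
      intro g hg
      have := h2 g (by rw [mem_toList, mem_filter]; exact ⟨mem_univ _, hg⟩)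
      simp only [Function.comp] at this
      rw [NF.eqv_eval] at this
      exact this
    refine ⟨fun i => ζ (.inl i), fun g => (gF N (cutG N) g).eval x ζ, ?_, ?_⟩
    · intro g
      have h4 := gF_eval N (cutG N) x (fun i => ζ (.inl i)) (fun i => ζ (.inr i)) g
      rw [← hζ] at h4
      beta_reduce
      rw [h4]
      congr 2
      funext w
      cases w with
      | inp j => rfl
      | guess i => rfl
      | gate j =>
        simp only [Net.value]
        split_ifs with h5
        · exact h3 j h5
        · rfl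
    · beta_reduce
      rw [← h3 _ hout]
      exact h1

theorem chkF_xl : (chkF N).xl ≤ 2 * N.inpWires := by
  classical
  have h1 := potential (N := N) (cut := cutG N) (fun g => (N.src g).countP Src.isInp)
    (fun g => (gF N (cutG N) g).xl) (by
      intro j hj
      simp only [cutG, decide_eq_true_eq, not_or] at hj
      omega) (by
      intro g
      rw [gF_eq]
      simp only [NF.xl, NF.conj_xl]
      exact xl_srcF _ _)
  simp only [chkF, NF.xl, NF.conj_xl, List.map_map, zero_add]
  rw [Finset.sum_map_toList]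
  have h2 : ∀ g, (NF.xl ∘ fun g => NF.eqv (.guess (.inr g)) (gF N (cutG N) g)) g =
      2 * (gF N (cutG N) g).xl := by
    intro g
    simp only [Function.comp, NF.eqv, NF.xl]
    ring
  rw [sum_congr rfl fun g _ => h2 g, ← mul_sum]
  exact Nat.mul_le_mul_left _ h1

theorem chkF_gl : (chkF N).gl ≤ 2 * N.guessWires + 6 * N.excess + 5 := by
  classical
  have h1 := potential (N := N) (cut := cutG N) (fun g => (N.src g).countP Src.isGuess +
      ∑ j ∈ univ.filter (fun j => cutG N j = true), (N.src g).countP (Src.isGate j))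
    (fun g => (gF N (cutG N) g).gl) (by
      intro j hj
      simp only [cutG, decide_eq_true_eq, not_or] at hj
      omega) (by
      intro g
      rw [gF_eq]
      simp only [NF.gl, NF.conj_gl]
      exact gl_srcF _ _)
  rw [sum_add_distrib, sum_comm] at h1
  have h2 : ∑ j ∈ univ.filter (fun j => cutG N j = true),
      ∑ g, (N.src g).countP (Src.isGate j) ≤ 2 * N.excess + 1 := by
    calc ∑ j ∈ univ.filter (fun j => cutG N j = true), ∑ g, (N.src g).countP (Src.isGate j)
        ≤ ∑ j ∈ univ.filter (fun j => cutG N j = true),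
          (2 * (N.fanout j - 1) + if j = N.out then 1 else 0) := by
          refine sum_le_sum fun j hj => ?_
          have h3 := (mem_filter.mp hj).2
          simp only [cutG, decide_eq_true_eq] at h3
          change N.fanout j ≤ _
          split_ifs with h4
          · omega
          · rcases h3 with h3 | h3
            · omega
            · exact absurd h3 h4
      _ ≤ ∑ j, (2 * (N.fanout j - 1) + if j = N.out then 1 else 0) :=
          sum_le_sum_of_subset (filter_subset _ _)
      _ = 2 * N.excess + 1 := by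
          rw [sum_add_distrib, ← mul_sum, sum_ite_eq' univ N.out]
          simp [Net.excess]
  have h3 : (univ.filter (fun j => cutG N j = true)).card ≤ N.excess + 1 := by
    rw [card_eq_sum_ones]
    calc ∑ _j ∈ univ.filter (fun j => cutG N j = true), 1
        ≤ ∑ j ∈ univ.filter (fun j => cutG N j = true),
          ((N.fanout j - 1) + if j = N.out then 1 else 0) := by
          refine sum_le_sum fun j hj => ?_
          have h3 := (mem_filter.mp hj).2
          simp only [cutG, decide_eq_true_eq] at h3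
          split_ifs with h4
          · omega
          · rcases h3 with h3 | h3
            · omega
            · exact absurd h3 h4
      _ ≤ ∑ j, ((N.fanout j - 1) + if j = N.out then 1 else 0) :=
          sum_le_sum_of_subset (filter_subset _ _)
      _ = N.excess + 1 := by
          rw [sum_add_distrib, sum_ite_eq' univ N.out]
          simp [Net.excess]
  have h4 : ∑ g, (N.src g).countP Src.isGuess = N.guessWires := rfl
  rw [h4] at h1
  simp only [chkF, NF.gl, NF.conj_gl, List.map_map]
  rw [Finset.sum_map_toList]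
  have h5 : ∀ g, (NF.gl ∘ fun g => NF.eqv (.guess (.inr g)) (gF N (cutG N) g)) g =
      2 * (gF N (cutG N) g).gl + 2 := by
    intro g
    simp only [Function.comp, NF.eqv, NF.gl]
    ring
  rw [sum_congr rfl fun g _ => h5 g, sum_add_distrib, ← mul_sum, sum_const, smul_eq_mul]
  omega

end

/-- The relabelling step. -/
theorem relabelN {n k Y : ℕ} {V Z : Type} (F : NF {p : Fin n × Fin n // p.1 < p.2} Z)
    (hF : F.Loc k) (hham : ∀ x, (∃ z, F.eval x z = true) ↔ Ham.HamP n x)
    (Γ : Fin n → Fin n → Bool ⊕ (V × Bool)) (hsymm : ∀ u v, Γ u v = Γ v u)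
    (hY : ∀ S : Finset (Fin n × Fin n), (∀ p ∈ S, (Γ p.1 p.2).isRight = true) → S.card ≤ Y)
    (h : (V → Bool) → Bool)
    (hΓ : ∀ x, Ham.HamP n (fun p => lv x (Γ p.1.1 p.1.2)) ↔ h x = true) :
    ∃ s, s * (n * (n - 1)) ≤ F.xl * k * Y ∧
      ∃ f : (V ⊕ Z → Bool) → Bool, FN k s F.gl f ∧ prj f = h := by
  classical
  set sub : Equiv.Perm (Fin n) → {p : Fin n × Fin n // p.1 < p.2} → Bool ⊕ (V × Bool) :=
    fun σ p => Γ (σ p.1.1) (σ p.1.2) with hsub
  -- each relabelled instance computes `h`
  have hval : ∀ σ, prj (F.fn (sub σ)) = h := by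
    intro σ
    funext x
    rw [Bool.eq_iff_iff, prj_iff]
    change (∃ z, F.eval (fun i => lv x (sub σ i)) z = true) ↔ _
    rw [hham, ← hΓ]
    have key : ∀ σ : Equiv.Perm (Fin n), ∀ u v, (SimpleGraph.fromRel (fun i j : Fin n =>
        ∃ h : i < j, lv x (sub σ ⟨(i, j), h⟩) = true)).Adj u v ↔
        (u ≠ v ∧ lv x (Γ (σ u) (σ v)) = true) := by
      intro σ u v
      rw [SimpleGraph.fromRel_adj]
      simp only [hsub, exists_prop]
      constructor
      · rintro ⟨h1, ⟨_, h2⟩ | ⟨_, h2⟩⟩
        · exact ⟨h1, h2⟩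
        · exact ⟨h1, by rw [hsymm]; exact h2⟩
      · rintro ⟨h1, h2⟩
        refine ⟨h1, ?_⟩
        rcases lt_or_gt_of_ne h1 with h3 | h3
        · exact Or.inl ⟨h3, h2⟩
        · exact Or.inr ⟨h3, by rw [hsymm]; exact h2⟩
    have iso : (SimpleGraph.fromRel (fun i j : Fin n =>
        ∃ h : i < j, lv x (sub σ ⟨(i, j), h⟩) = true)) ≃g (SimpleGraph.fromRel (fun i j : Fin n =>
        ∃ h : i < j, lv x (sub 1 ⟨(i, j), h⟩) = true)) := by
      refine ⟨σ, ?_⟩
      intro u v
      rw [key, key]
      simp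
    have e1 : (fun p : {p : Fin n × Fin n // p.1 < p.2} => lv x (Γ p.1.1 p.1.2)) =
        fun p => lv x (sub 1 p) := by
      funext p
      simp [hsub]
    rw [e1]
    exact ⟨fun h => Ham.iso_ham iso h, fun h => Ham.iso_ham iso.symm h⟩
  set D := Fintype.card (Equiv.Perm (Fin n)) with hD
  have hD0 : 0 < D := Fintype.card_pos
  by_cases hn : n * (n - 1) = 0
  · exact ⟨F.touch (sub 1), by rw [hn]; simp, _, (NF.touch_fn (sub 1) F hF).1, hval 1⟩
  · have hn0 : 0 < n * (n - 1) := Nat.pos_of_ne_zero hn
    have hc : ∀ i : {p : Fin n × Fin n // p.1 < p.2},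
        (univ.filter fun σ : Equiv.Perm (Fin n) => (sub σ i).isRight = true).card ≤
          D * Y / (n * (n - 1)) := by
      intro i
      rw [Nat.le_div_iff_mul_le hn0]
      have h9 := perm_count (fun u v => (Γ u v).isRight = true) (ne_of_lt i.2)
      refine le_trans (le_of_eq ?_) (h9.trans ?_)
      · congr!
      · refine Nat.mul_le_mul_left _ (hY _ ?_)
        intro p hp
        simpa using hp
    have h1 := NF.touch_avg sub _ hc F hF
    by_contra hno
    push Not at hno
    have h2 : ∀ σ, F.xl * k * Y + 1 ≤ F.touch (sub σ) * (n * (n - 1)) := by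
      intro σ
      by_contra h3
      exact hno (F.touch (sub σ)) (by omega) _ (NF.touch_fn (sub σ) F hF).1 (hval σ)
    have h3 : D * (F.xl * k * Y + 1) ≤ (∑ σ, F.touch (sub σ)) * (n * (n - 1)) := by
      rw [sum_mul, hD, ← card_univ, ← smul_eq_mul, ← sum_const]
      exact sum_le_sum fun σ _ => h2 σ
    have h4 : (∑ σ, F.touch (sub σ)) * (n * (n - 1)) ≤ F.xl * k * (D * Y) := by
      calc (∑ σ, F.touch (sub σ)) * (n * (n - 1))
          ≤ F.xl * (k * (D * Y / (n * (n - 1)))) * (n * (n - 1)) :=
            Nat.mul_le_mul_right _ h1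
        _ = F.xl * k * (D * Y / (n * (n - 1)) * (n * (n - 1))) := by ring
        _ ≤ F.xl * k * (D * Y) := Nat.mul_le_mul_left _ (Nat.div_mul_le_self _ _)
    have h5 : D * (F.xl * k * Y + 1) = F.xl * k * (D * Y) + D := by ring
    omega

/-- The subfunction of a network for Hamiltonicity. -/
theorem fn_of_net {a w n k : ℕ} (ha : 0 < a) (hw : 0 < w)
    (hn : 18 * (a + 1) * 2 ^ a + 12 * a * (w + 1) + (2 * 2 ^ a + 2 * a + 2) ≤ n)
    (N : Net {p : Fin n × Fin n // p.1 < p.2}) (hN : ∀ j, Junta k (N.fn j))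
    (hham : ∀ x, N.Accepts x ↔ Ham.HamP n x) (A : (Tm a → Bool) → Bool) :
    ∃ s u, s * (n * (n - 1)) ≤ 2 * N.inpWires * k * (8 * a * w) ∧
      u = 2 * N.guessWires + 6 * N.excess + 5 ∧
      ∃ f : ((Tm a × Fin w) ⊕ Fin (u + 1) → Bool) → Bool, FN k s u f ∧ prj f = FU A := by
  obtain ⟨Γ, h1, h2, h3⟩ := exists_lab ha hw hn A
  obtain ⟨s, hs, f, hf, hp⟩ := relabelN (chkF N) (chkF_loc N hN)
    (fun x => (chkF_eval N x).symm.trans (hham x)) Γ h1 h2 _ h3
  have hf' : FN k s (2 * N.guessWires + 6 * N.excess + 5) f := hf.mono le_rfl (chkF_gl N)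
  obtain ⟨g, hg, hgp⟩ := fn_rename hf'
  refine ⟨s, _, hs.trans ?_, rfl, g, hg, hgp.trans hp⟩
  exact Nat.mul_le_mul_right _ (Nat.mul_le_mul_right _ (chkF_xl N))

end Pool.Agent.V7H70.Fml
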