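import Pool.Agent.V7H70.Fml.NetHam

/-!
# Parameters
-/

set_option autoImplicit false

namespace Pool.Agent.V7H70.Fml

open Filter Finset H568R2 Pool.Agent.H676

theorem log_bound (p : ℕ) : ∀ᶠ X : ℝ in atTop, ∀ a : ℕ, (2 : ℝ) ^ a ≤ X ^ (p + 9) →
    44 * (a : ℝ) + 22 ≤ X := by
  have h1 : ∀ᶠ X : ℝ in atTop, Real.log X ≤ (1 / (100 * ((p : ℝ) + 9))) * X := by
    have := (Real.isLittleO_log_id_atTop).bound (c := 1 / (100 * ((p : ℝ) + 9))) (by positivity)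
    filter_upwards [this, eventually_ge_atTop 1] with X hX h1
    simp only [id] at hX
    rwa [Real.norm_of_nonneg (Real.log_nonneg h1), Real.norm_of_nonneg (by linarith)] at hX
  filter_upwards [h1, eventually_ge_atTop 100] with X hX hX1 a ha
  have h2 := Real.log_le_log (by positivity) ha
  rw [Real.log_pow, Real.log_pow] at h2
  push_cast at h2
  have hp : (0 : ℝ) < (p : ℝ) + 9 := by positivity
  have h3 : (a : ℝ) * Real.log 2 ≤ X / 100 := by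
    calc (a : ℝ) * Real.log 2 ≤ ((p : ℝ) + 9) * Real.log X := h2
      _ ≤ ((p : ℝ) + 9) * ((1 / (100 * ((p : ℝ) + 9))) * X) :=
        mul_le_mul_of_nonneg_left hX hp.le
      _ = X / 100 := by field_simp
  have h4 := Real.log_two_gt_d9
  have ha0 : (0 : ℝ) ≤ a := Nat.cast_nonneg a
  nlinarith

/-- the choice of the parameters -/
theorem choice {n k r : ℕ} {X P : ℝ} (hX : 40000 ≤ X) (hP : 1 ≤ P) (hn : (n : ℝ) = P * X ^ 5)
    (hnr : X ^ r = (n : ℝ) ^ 8)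
    (hlog : ∀ a : ℕ, (2 : ℝ) ^ a ≤ P * X ^ 4 → 44 * (a : ℝ) + 22 ≤ X)
    (hk1 : 1 ≤ k) (hk : (k : ℝ) ≤ P) :
    ∃ (a w κ l : ℕ) (q : ℝ), 0 < a ∧ 0 < w ∧ (w : ℝ) ≤ P * X ^ 4 ∧ 44 * (a : ℝ) + 22 ≤ X ∧
      18 * (a + 1) * 2 ^ a + 12 * a * (w + 1) + (2 * 2 ^ a + 2 * a + 2) ≤ n ∧
      P * X ^ 4 < 2 ^ (a + 1) ∧
      1 < l ∧ 4096 * l ≤ 4 ^ κ ∧ P ^ 2 * X / (k : ℝ) ^ 2 ≤ l ∧ 0 < q ∧ q ≤ 1 ∧
      32 * k * 2 ^ κ * q ≤ 1 ∧ 2 * a * (1 - q) ^ w ≤ 1 / 4 ∧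
      (32 * k * 2 ^ κ * q) ^ r ≤ 1 / (n : ℝ) ^ 8 := by
  have hX0 : (0 : ℝ) < X := by linarith
  have hX1 : (1 : ℝ) ≤ X := by linarith
  have hP0 : (0 : ℝ) < P := by linarith
  have hkR1 : (1 : ℝ) ≤ k := by exact_mod_cast hk1
  have hkR : (0 : ℝ) < k := by linarith
  have hX4 : (1 : ℝ) ≤ X ^ 4 := one_le_pow₀ hX1
  have hPX4 : (1 : ℝ) ≤ P * X ^ 4 := one_le_mul_of_one_le_of_one_le hP hX4
  obtain ⟨a, ha1, ha2⟩ := exists_nat_pow_near hPX4 (by norm_num : (1 : ℝ) < 2)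
  have haX := hlog a ha1
  have hPXk : (1 : ℝ) ≤ P * X / k := by
    rw [le_div_iff₀ hkR, one_mul]
    nlinarith
  obtain ⟨κ, hκ1, hκ2⟩ := exists_nat_pow_near hPXk (by norm_num : (1 : ℝ) < 2)
  have hw1 : ((⌊P * X ^ 4⌋₊ : ℕ) : ℝ) ≤ P * X ^ 4 := Nat.floor_le (by positivity)
  have hw2 : P * X ^ 4 < (⌊P * X ^ 4⌋₊ : ℕ) + 1 := Nat.lt_floor_add_one _
  set w := ⌊P * X ^ 4⌋₊ with hw
  have ha0 : 0 < a := by
    rcases Nat.eq_zero_or_pos a with h0 | h0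
    · exfalso
      rw [h0] at ha2
      norm_num at ha2
      have : X * 1 ≤ P * X ^ 4 := by
        have h1 : X ≤ X ^ 4 := le_self_pow₀ hX1 (by norm_num)
        nlinarith
      linarith
    · exact h0
  have hw0 : 0 < w := Nat.floor_pos.mpr hPX4
  have haR : (0 : ℝ) ≤ a := Nat.cast_nonneg a
  -- the quotient `4 ^ κ / 4096`
  have h4κ : ((4 ^ κ : ℕ) : ℝ) = ((2 : ℝ) ^ κ) ^ 2 := by
    push_cast
    rw [← pow_mul, mul_comm κ 2, pow_mul]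
    norm_num
  have hκl : P * X / (2 * k) ≤ (2 : ℝ) ^ κ := by
    rw [pow_succ] at hκ2
    rw [div_le_iff₀ (by positivity)]
    rw [div_lt_iff₀ hkR] at hκ2
    nlinarith
  have hZ : X ≤ P ^ 2 * X / (k : ℝ) ^ 2 := by
    rw [le_div_iff₀ (by positivity)]
    have : (k : ℝ) ^ 2 ≤ P ^ 2 := pow_le_pow_left₀ hkR.le hk 2
    nlinarith
  have hl : P ^ 2 * X / (k : ℝ) ^ 2 ≤ ((4 ^ κ / 4096 : ℕ) : ℝ) := by
    have h1 : (4 ^ κ : ℕ) < 4096 * (4 ^ κ / 4096 + 1) := Nat.lt_mul_div_succ _ (by norm_num)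
    have h2 : ((4 ^ κ : ℕ) : ℝ) < 4096 * (((4 ^ κ / 4096 : ℕ) : ℝ) + 1) := by exact_mod_cast h1
    have h3 : (P * X / (2 * k)) ^ 2 ≤ ((4 ^ κ : ℕ) : ℝ) := by
      rw [h4κ]
      exact pow_le_pow_left₀ (by positivity) hκl 2
    have h4 : (P * X / (2 * k)) ^ 2 = X / 4 * (P ^ 2 * X / (k : ℝ) ^ 2) := by
      field_simp
      ring
    rw [h4] at h3
    set Zr := P ^ 2 * X / (k : ℝ) ^ 2 with hZr
    nlinarith
  have h4096 : 4096 * (4 ^ κ / 4096) ≤ 4 ^ κ := Nat.mul_div_le _ _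
  set l := 4 ^ κ / 4096 with hldef
  have hl1 : 1 < l := by
    have : (1 : ℝ) < l := by linarith
    exact_mod_cast this
  -- the size
  have hsize : 18 * (a + 1) * 2 ^ a + 12 * a * (w + 1) + (2 * 2 ^ a + 2 * a + 2) ≤ n := by
    have : ((18 * (a + 1) * 2 ^ a + 12 * a * (w + 1) + (2 * 2 ^ a + 2 * a + 2) : ℕ) : ℝ) ≤ n := by
      push_cast
      set Q := P * X ^ 4 with hQ
      have hn' : (n : ℝ) = X * Q := by rw [hn, hQ]; ring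
      rw [hn']
      have e1 : 18 * ((a : ℝ) + 1) * 2 ^ a ≤ 18 * ((a : ℝ) + 1) * Q :=
        mul_le_mul_of_nonneg_left ha1 (by positivity)
      have e2 : 12 * (a : ℝ) * (w + 1) ≤ 12 * (a : ℝ) * (2 * Q) :=
        mul_le_mul_of_nonneg_left (by linarith) (by positivity)
      have e3 : (2 * (a : ℝ) + 2) * 1 ≤ (2 * (a : ℝ) + 2) * Q :=
        mul_le_mul_of_nonneg_left hPX4 (by positivity)
      have e4 : (44 * (a : ℝ) + 22) * Q ≤ X * Q :=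
        mul_le_mul_of_nonneg_right haX (by linarith)
      linarith
    exact_mod_cast this
  -- the probability
  have hX3 : (1 : ℝ) ≤ X ^ 3 := one_le_pow₀ hX1
  have hPX3 : (1 : ℝ) ≤ P * X ^ 3 := one_le_mul_of_one_le_of_one_le hP hX3
  set q : ℝ := 1 / (P * X ^ 3) with hq
  have hq0 : 0 < q := by positivity
  have hq1 : q ≤ 1 := by
    rw [hq, div_le_one (by positivity)]
    exact hPX3
  have hD : 32 * (k : ℝ) * 2 ^ κ * q ≤ 1 / X := by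
    calc 32 * (k : ℝ) * 2 ^ κ * q ≤ 32 * (k : ℝ) * (P * X / k) * q := by gcongr
      _ = 32 / X ^ 2 := by
          rw [hq]
          field_simp
      _ ≤ 1 / X := by
          rw [div_le_div_iff₀ (by positivity) hX0]
          nlinarith
  have hX1' : 1 / X ≤ 1 := by
    rw [div_le_one hX0]
    exact hX1
  refine ⟨a, w, κ, l, q, ha0, hw0, hw1, haX, hsize, ha2, hl1, h4096, hl, hq0, hq1,
    hD.trans hX1', ?_, ?_⟩
  · have h1 : (1 - q) ^ w ≤ Real.exp (-(X - 1)) := by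
      have h2 : 1 - q ≤ Real.exp (-q) := by
        have := Real.add_one_le_exp (-q)
        linarith
      have h3 : (1 - q) ^ w ≤ Real.exp (-q) ^ w := pow_le_pow_left₀ (by linarith) h2 w
      rw [← Real.exp_nat_mul] at h3
      refine h3.trans (Real.exp_le_exp.mpr ?_)
      have h4 : X - 1 ≤ w * q := by
        rw [hq, mul_one_div, le_div_iff₀ (by positivity)]
        nlinarith
      linarith
    have h2 : 2 * (a : ℝ) ≤ X := by linarith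
    have h3 : 4 * X ≤ Real.exp (X - 1) := by
      have := Real.quadratic_le_exp_of_nonneg (x := X - 1) (by linarith)
      nlinarith
    have h4 : 0 < Real.exp (X - 1) := Real.exp_pos _
    calc 2 * (a : ℝ) * (1 - q) ^ w ≤ X * Real.exp (-(X - 1)) := by
          refine mul_le_mul h2 h1 (by have : 0 ≤ 1 - q := by linarith
                                      positivity) hX0.le
      _ ≤ 1 / 4 := by
          rw [Real.exp_neg, ← div_eq_mul_inv, div_le_div_iff₀ h4 (by norm_num)]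
          linarith
  · have h1 : 0 ≤ 32 * (k : ℝ) * 2 ^ κ * q := by positivity
    calc (32 * (k : ℝ) * 2 ^ κ * q) ^ r ≤ (1 / X) ^ r := pow_le_pow_left₀ h1 hD r
      _ = 1 / (n : ℝ) ^ 8 := by rw [one_div_pow, hnr]

/-- counting -/
theorem count_ok {a u L : ℕ} {X P : ℝ} (hX : 40000 ≤ X) (hP : 1 ≤ P)
    (haX : 44 * (a : ℝ) + 22 ≤ X) (ha : P * X ^ 4 < 2 ^ (a + 1))
    (hu : (u : ℝ) ≤ 11 * (P ^ 2 * X ^ 4)) (hL : (L : ℝ) ≤ P ^ 2 * X ^ 6) :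
    (2 * Fintype.card (Tm a ⊕ Fin (u + 1)) + 5) ^ (2 * L + 1) <
      2 ^ 2 ^ Fintype.card (Tm a) := by
  have hX0 : (0 : ℝ) < X := by linarith
  have hX1 : (1 : ℝ) ≤ X := by linarith
  have hP0 : (0 : ℝ) < P := by linarith
  have hcT : Fintype.card (Tm a) = 2 * a := by
    rw [Fintype.card_prod, Fintype.card_bool, Fintype.card_fin]
  have haR : (0 : ℝ) ≤ a := Nat.cast_nonneg a
  rw [Fintype.card_sum, Fintype.card_fin, hcT]
  set Q := P * X ^ 4 with hQ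
  have hX4 : (1 : ℝ) ≤ X ^ 4 := one_le_pow₀ hX1
  have hQX : X ≤ Q := by
    have h1 : X ≤ X ^ 4 := le_self_pow₀ hX1 (by norm_num)
    have h2 : 1 * X ^ 4 ≤ P * X ^ 4 := mul_le_mul_of_nonneg_right hP (by positivity)
    linarith
  have hQ1 : 1 ≤ Q := by linarith
  -- the base
  have hPQ : P ^ 2 * X ^ 4 ≤ Q ^ 2 := by
    rw [hQ, mul_pow]
    refine mul_le_mul_of_nonneg_left ?_ (by positivity)
    rw [← pow_mul]
    exact pow_le_pow_right₀ hX1 (by norm_num)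
  have hbase : 2 * (2 * a + (u + 1)) + 5 ≤ 2 ^ (4 * (a + 1)) := by
    have : ((2 * (2 * a + (u + 1)) + 5 : ℕ) : ℝ) ≤ ((2 ^ (4 * (a + 1)) : ℕ) : ℝ) := by
      push_cast
      have e1 : Q ^ 4 ≤ (2 : ℝ) ^ (4 * (a + 1)) := by
        rw [mul_comm 4 (a + 1), pow_mul]
        exact pow_le_pow_left₀ (by linarith) ha.le 4
      have e2 : 2 * (2 * (a : ℝ) + ((u : ℝ) + 1)) + 5 ≤ 40 * Q ^ 2 := by
        have : (1 : ℝ) ≤ Q ^ 2 := one_le_pow₀ hQ1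
        have h3 : X ≤ Q ^ 2 := by nlinarith
        nlinarith
      have e3 : 40 * Q ^ 2 ≤ Q ^ 4 := by
        have h4 : (40 : ℝ) ≤ Q ^ 2 := by nlinarith
        nlinarith
      linarith
    exact_mod_cast this
  -- the exponent
  have hexp : 4 * (a + 1) * (2 * L + 1) < 2 ^ (2 * a) := by
    have : ((4 * (a + 1) * (2 * L + 1) : ℕ) : ℝ) < ((2 ^ (2 * a) : ℕ) : ℝ) := by
      push_cast
      have e1 : Q ^ 2 < 4 * (2 : ℝ) ^ (2 * a) := by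
        have h1 : Q ^ 2 < ((2 : ℝ) ^ (a + 1)) ^ 2 := pow_lt_pow_left₀ ha (by linarith) (by norm_num)
        have h2 : ((2 : ℝ) ^ (a + 1)) ^ 2 = 4 * (2 : ℝ) ^ (2 * a) := by
          rw [← pow_mul]
          have : (a + 1) * 2 = 2 * a + 2 := by ring
          rw [this, pow_add]
          norm_num
          ring
        linarith
      have hY : (1 : ℝ) ≤ P ^ 2 * X ^ 6 :=
        one_le_mul_of_one_le_of_one_le (one_le_pow₀ hP) (one_le_pow₀ hX1)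
      have e2 : 2 * (L : ℝ) + 1 ≤ 3 * (P ^ 2 * X ^ 6) := by linarith
      have e3 : 4 * ((a : ℝ) + 1) ≤ X := by linarith
      have e4 : 4 * ((a : ℝ) + 1) * (2 * (L : ℝ) + 1) ≤ X * (3 * (P ^ 2 * X ^ 6)) :=
        mul_le_mul e3 e2 (by positivity) hX0.le
      have e5 : Q ^ 2 = X ^ 2 * (P ^ 2 * X ^ 6) := by rw [hQ]; ring
      have e6 : 12 * (X * (P ^ 2 * X ^ 6)) < X ^ 2 * (P ^ 2 * X ^ 6) := by
        have h1 : 12 * X < X ^ 2 := by nlinarith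
        have h2 : 0 < P ^ 2 * X ^ 6 := by positivity
        nlinarith
      linarith
    exact_mod_cast this
  calc (2 * (2 * a + (u + 1)) + 5) ^ (2 * L + 1)
      ≤ (2 ^ (4 * (a + 1))) ^ (2 * L + 1) := Nat.pow_le_pow_left hbase _
    _ = 2 ^ (4 * (a + 1) * (2 * L + 1)) := by rw [← pow_mul]
    _ < 2 ^ 2 ^ (2 * a) := Nat.pow_lt_pow_right (by norm_num) hexp

theorem le_PX {X P : ℝ} (hX : 40000 ≤ X) (hP : 1 ≤ P) : X ≤ P * X ^ 5 := by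
  have hX1 : (1 : ℝ) ≤ X := by linarith
  have h1 : X ≤ X ^ 5 := le_self_pow₀ hX1 (by norm_num)
  have h2 : 1 * X ^ 5 ≤ P * X ^ 5 := mul_le_mul_of_nonneg_right hP (by positivity)
  linarith

theorem le_PX4 {X P : ℝ} (hX : 40000 ≤ X) (hP : 1 ≤ P) : P ^ 2 * X ^ 4 ≤ (P * X ^ 5) ^ 4 := by
  have hX1 : (1 : ℝ) ≤ X := by linarith
  have h2 : (P * X ^ 5) ^ 4 = (P ^ 2 * X ^ 4) * (P ^ 2 * X ^ 16) := by ring
  rw [h2]
  have : (1 : ℝ) ≤ P ^ 2 * X ^ 16 :=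
    one_le_mul_of_one_le_of_one_le (one_le_pow₀ hP) (one_le_pow₀ hX1)
  exact le_mul_of_one_le_right (by positivity) this

/-- the number of input leaves -/
theorem s_bound {n k s I a w : ℕ} {X P : ℝ} (hX : 40000 ≤ X) (hP : 1 ≤ P) (hk1 : 1 ≤ k)
    (hnP : (n : ℝ) = P * X ^ 5) (haX : 44 * (a : ℝ) + 22 ≤ X) (hw1 : (w : ℝ) ≤ P * X ^ 4)
    (hs : s * (n * (n - 1)) ≤ 2 * I * k * (8 * a * w))
    (hno : (I : ℝ) < P ^ 5 * X ^ 10 / (k : ℝ) ^ 3) :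
    (s : ℝ) < 2 * P ^ 4 * X ^ 5 / (k : ℝ) ^ 2 := by
  have hX0 : (0 : ℝ) < X := by linarith
  have hP0 : (0 : ℝ) < P := by linarith
  have hkR1 : (1 : ℝ) ≤ k := by exact_mod_cast hk1
  have hkR : (0 : ℝ) < k := by linarith
  have hnX : X ≤ n := by rw [hnP]; exact le_PX hX hP
  have hnpos : (0 : ℝ) < n := by linarith
  have hn2 : (2 : ℝ) ≤ n := by linarith
  have hnnat : 2 ≤ n := by exact_mod_cast hn2
  have hsR : (s : ℝ) * n ≤ 2 * I * k := by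
    have h1 : ((s * (n * (n - 1)) : ℕ) : ℝ) ≤ ((2 * I * k * (8 * a * w) : ℕ) : ℝ) := by
      exact_mod_cast hs
    rw [Nat.cast_mul, Nat.cast_mul, Nat.cast_sub (by omega : 1 ≤ n)] at h1
    push_cast at h1
    have h2 : 8 * (a : ℝ) * w ≤ n / 2 := by
      have h3 : 8 * (a : ℝ) ≤ X / 2 := by
        have : (0 : ℝ) ≤ a := Nat.cast_nonneg a
        linarith
      calc 8 * (a : ℝ) * w ≤ X / 2 * (P * X ^ 4) :=
            mul_le_mul h3 hw1 (Nat.cast_nonneg _) (by positivity)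
        _ = n / 2 := by rw [hnP]; ring
    have h3 : 2 * (I : ℝ) * k * (8 * a * w) ≤ 2 * (I : ℝ) * k * (n / 2) :=
      mul_le_mul_of_nonneg_left h2 (by positivity)
    have h4 : (n : ℝ) / 2 ≤ n - 1 := by linarith
    have h5 : (s : ℝ) * (n * (n / 2)) ≤ s * (n * (n - 1)) := by gcongr
    have h6 : (s : ℝ) * n * (n / 2) ≤ 2 * (I : ℝ) * k * (n / 2) := by
      calc (s : ℝ) * n * (n / 2) = s * (n * (n / 2)) := by ring
        _ ≤ _ := h5.trans (h1.trans h3)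
    exact le_of_mul_le_mul_right h6 (by positivity)
  have h1 : 2 * (I : ℝ) * k < 2 * (P ^ 5 * X ^ 10 / (k : ℝ) ^ 3) * k := by gcongr
  have h2 : 2 * (P ^ 5 * X ^ 10 / (k : ℝ) ^ 3) * k =
      2 * P ^ 4 * X ^ 5 / (k : ℝ) ^ 2 * n := by
    rw [hnP]
    field_simp
  have h3 : (s : ℝ) * n < 2 * P ^ 4 * X ^ 5 / (k : ℝ) ^ 2 * n := by
    rw [← h2]
    exact lt_of_le_of_lt hsR h1
  exact lt_of_mul_lt_mul_right h3 hnpos.le

/-- the failure probability -/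
theorem fail_bound {n k s u l : ℕ} {X P G H : ℝ} (hX : 40000 ≤ X) (hP : 1 ≤ P) (hk1 : 1 ≤ k)
    (hnP : (n : ℝ) = P * X ^ 5) (hs : (s : ℝ) < 2 * P ^ 4 * X ^ 5 / (k : ℝ) ^ 2)
    (hu : (u : ℝ) ≤ 11 * (P ^ 2 * X ^ 4)) (hl : 1 < l) (hG : G ≤ 1 / 4)
    (hH : H ≤ 1 / (n : ℝ) ^ 8) (hH0 : 0 ≤ H) :
    G + (6 * s / l + 5 * u + 1) * (5 * H) < 1 := by
  have hX0 : (0 : ℝ) < X := by linarith
  have hX1 : (1 : ℝ) ≤ X := by linarith
  have hP0 : (0 : ℝ) < P := by linarith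
  have hkR1 : (1 : ℝ) ≤ k := by exact_mod_cast hk1
  have hlR1 : (1 : ℝ) ≤ l := by exact_mod_cast hl.le
  have hnX : X ≤ n := by rw [hnP]; exact le_PX hX hP
  have hnpos : (0 : ℝ) < n := by linarith
  have hsR3 : (s : ℝ) ≤ (n : ℝ) ^ 4 := by
    have h1 : 2 * P ^ 4 * X ^ 5 / (k : ℝ) ^ 2 ≤ 2 * P ^ 4 * X ^ 5 :=
      div_le_self (by positivity) (one_le_pow₀ hkR1)
    have h2 : (n : ℝ) ^ 4 = P ^ 4 * X ^ 5 * X ^ 15 := by rw [hnP]; ring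
    have h3 : (2 : ℝ) ≤ X ^ 15 := by
      have : X ≤ X ^ 15 := le_self_pow₀ hX1 (by norm_num)
      linarith
    have h4 : P ^ 4 * X ^ 5 * 2 ≤ P ^ 4 * X ^ 5 * X ^ 15 :=
      mul_le_mul_of_nonneg_left h3 (by positivity)
    linarith
  have hPn : P ^ 2 * X ^ 4 ≤ (n : ℝ) ^ 4 := by
    rw [hnP]; exact le_PX4 hX hP
  have hn4 : (1000 : ℝ) ≤ (n : ℝ) ^ 4 := by
    have h3 : (n : ℝ) ≤ (n : ℝ) ^ 4 := le_self_pow₀ (by linarith) (by norm_num)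
    linarith
  have h1 : 6 * (s : ℝ) / l ≤ 6 * s := div_le_self (by positivity) hlR1
  have h2 : 6 * (s : ℝ) / l + 5 * u + 1 ≤ 62 * (n : ℝ) ^ 4 := by linarith
  have h4 : (6 * (s : ℝ) / l + 5 * u + 1) * (5 * H) ≤
      62 * (n : ℝ) ^ 4 * (5 * (1 / (n : ℝ) ^ 8)) :=
    mul_le_mul h2 (by linarith) (by positivity) (by positivity)
  have h5 : 62 * (n : ℝ) ^ 4 * (5 * (1 / (n : ℝ) ^ 8)) ≤ 1 / 2 := by
    have h6 : 62 * (n : ℝ) ^ 4 * (5 * (1 / (n : ℝ) ^ 8)) = 310 / (n : ℝ) ^ 4 := by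
      field_simp
      norm_num
    rw [h6, div_le_div_iff₀ (by positivity) (by norm_num)]
    linarith
  linarith

/-- the contradiction -/
theorem contra {k s u l L : ℕ} {X P C : ℝ} (hX : 40000 ≤ X) (hXC : 224 * C ≤ X) (hC1 : 1 ≤ C)
    (hP : 1 ≤ P) (hk1 : 1 ≤ k)
    (hs : (s : ℝ) < 2 * P ^ 4 * X ^ 5 / (k : ℝ) ^ 2)
    (hu : (u : ℝ) ≤ 11 * (P ^ 2 * X ^ 4)) (hl1 : 1 < l) (hl : P ^ 2 * X / (k : ℝ) ^ 2 ≤ l)
    (hL : P ^ 2 * X ^ 6 < (L : ℝ) + 1)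
    (hm : (L : ℝ) * l < (6 * s + 5 * l * u + l) * C) : False := by
  have hX0 : (0 : ℝ) < X := by linarith
  have hX1 : (1 : ℝ) ≤ X := by linarith
  have hP0 : (0 : ℝ) < P := by linarith
  have hkR1 : (1 : ℝ) ≤ k := by exact_mod_cast hk1
  have hkR : (0 : ℝ) < k := by linarith
  have hC0 : (0 : ℝ) < C := by linarith
  have hl0 : (0 : ℝ) < l := by
    have : (1 : ℝ) ≤ l := by exact_mod_cast hl1.le
    linarith
  have hPX4 : (1 : ℝ) ≤ P ^ 2 * X ^ 4 :=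
    one_le_mul_of_one_le_of_one_le (one_le_pow₀ hP) (one_le_pow₀ hX1)
  have hY : (1 : ℝ) ≤ P ^ 2 * X ^ 6 :=
    one_le_mul_of_one_le_of_one_le (one_le_pow₀ hP) (one_le_pow₀ hX1)
  have hXX : X ≤ X ^ 2 := le_self_pow₀ hX1 (by norm_num)
  have h1 : (5 * (u : ℝ) + 1) * C ≤ P ^ 2 * X ^ 6 / 4 := by
    have h2 : 5 * (u : ℝ) + 1 ≤ 56 * (P ^ 2 * X ^ 4) := by linarith
    have h3 : (5 * (u : ℝ) + 1) * C ≤ 56 * (P ^ 2 * X ^ 4) * C :=
      mul_le_mul_of_nonneg_right h2 hC0.le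
    have h4 : 56 * (P ^ 2 * X ^ 4) * C = (P ^ 2 * X ^ 4) * (224 * C) / 4 := by ring
    have h5 : (P ^ 2 * X ^ 4) * (224 * C) ≤ (P ^ 2 * X ^ 4) * X ^ 2 :=
      mul_le_mul_of_nonneg_left (by linarith) (by positivity)
    have h6 : (P ^ 2 * X ^ 4) * X ^ 2 = P ^ 2 * X ^ 6 := by ring
    linarith
  have hY2 : (2 : ℝ) ≤ P ^ 2 * X ^ 6 := by
    have h2 : 1 * X ^ 6 ≤ P ^ 2 * X ^ 6 :=
      mul_le_mul_of_nonneg_right (one_le_pow₀ hP) (by positivity)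
    have h3 : X ≤ X ^ 6 := le_self_pow₀ hX1 (by norm_num)
    linarith
  have h2 : P ^ 2 * X ^ 6 / 2 ≤ L := by linarith
  have h3 : P ^ 2 * X ^ 6 / 4 * l < 6 * s * C := by
    have h4 : P ^ 2 * X ^ 6 / 2 * l ≤ L * l := mul_le_mul_of_nonneg_right h2 hl0.le
    have h5 : (5 * (l : ℝ) * u + l) * C = (5 * (u : ℝ) + 1) * C * l := by ring
    have h6 : (5 * (u : ℝ) + 1) * C * l ≤ P ^ 2 * X ^ 6 / 4 * l :=
      mul_le_mul_of_nonneg_right h1 hl0.le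
    have h7 : (6 * (s : ℝ) + 5 * l * u + l) * C = 6 * s * C + (5 * (l : ℝ) * u + l) * C := by
      ring
    linarith
  have h4 : P ^ 2 * X ^ 5 * l ≤ s := by
    have h5 : P ^ 2 * X ^ 5 * l * (24 * C) ≤ P ^ 2 * X ^ 5 * l * X :=
      mul_le_mul_of_nonneg_left (by linarith) (by positivity)
    have h6 : P ^ 2 * X ^ 5 * l * X = 4 * (P ^ 2 * X ^ 6 / 4 * l) := by ring
    have h7 : P ^ 2 * X ^ 5 * l * (24 * C) ≤ s * (24 * C) := by linarith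
    exact le_of_mul_le_mul_right h7 (by positivity)
  have h5 : P ^ 2 * X ^ 5 * (P ^ 2 * X / (k : ℝ) ^ 2) ≤ s :=
    (mul_le_mul_of_nonneg_left hl (by positivity)).trans h4
  have h6 : P ^ 2 * X ^ 5 * (P ^ 2 * X / (k : ℝ) ^ 2) = P ^ 4 * X ^ 5 / (k : ℝ) ^ 2 * X := by ring
  have h7 : 2 * P ^ 4 * X ^ 5 / (k : ℝ) ^ 2 = P ^ 4 * X ^ 5 / (k : ℝ) ^ 2 * 2 := by ring
  have h8 : 0 < P ^ 4 * X ^ 5 / (k : ℝ) ^ 2 := by positivity
  have h9 : P ^ 4 * X ^ 5 / (k : ℝ) ^ 2 * 2 ≤ P ^ 4 * X ^ 5 / (k : ℝ) ^ 2 * X :=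
    mul_le_mul_of_nonneg_left (by linarith) h8.le
  linarith

/-- The lower bound for given parameters. -/
theorem fin_net' {n k r Cn : ℕ} {X P : ℝ} (hCn : Cn = 2 ^ (r * 4 ^ r + 2)) (hX : 40000 ≤ X)
    (hXC : 224 * (Cn : ℝ) ≤ X) (hP : 1 ≤ P) (hnP : (n : ℝ) = P * X ^ 5)
    (hnr : X ^ r = (n : ℝ) ^ 8)
    (hlog : ∀ a : ℕ, (2 : ℝ) ^ a ≤ P * X ^ 4 → 44 * (a : ℝ) + 22 ≤ X)
    (hk1 : 1 ≤ k) (hk : (k : ℝ) ≤ P)
    (N : Net {p : Fin n × Fin n // p.1 < p.2}) (hN : ∀ j, Junta k (N.fn j))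
    (hham : ∀ x, N.Accepts x ↔ Ham.HamP n x)
    (hE : ((N.guessWires + N.excess : ℕ) : ℝ) ≤ P ^ 2 * X ^ 4) :
    P ^ 5 * X ^ 10 / (k : ℝ) ^ 3 ≤ N.inpWires := by
  obtain ⟨a, w, κ, l, q, ha0, hw0, hw1, haX, hsize, ha2, hl1, h4096, hl, hq0, hq1, hD, hG, hH⟩ :=
    choice (r := r) hX hP hnP hnr hlog hk1 hk
  by_contra hno
  push Not at hno
  have hX1 : (1 : ℝ) ≤ X := by linarith
  have hX0 : (0 : ℝ) < X := by linarith
  have hP0 : (0 : ℝ) < P := by linarith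
  obtain ⟨L, hL⟩ : ∃ L, L = ⌊P ^ 2 * X ^ 6⌋₊ := ⟨_, rfl⟩
  have hL1 : (L : ℝ) ≤ P ^ 2 * X ^ 6 := by
    rw [hL]
    exact Nat.floor_le (by positivity)
  have hL2 : P ^ 2 * X ^ 6 < (L : ℝ) + 1 := by
    rw [hL]
    exact Nat.lt_floor_add_one _
  have hPX4 : (1 : ℝ) ≤ P ^ 2 * X ^ 4 :=
    one_le_mul_of_one_le_of_one_le (one_le_pow₀ hP) (one_le_pow₀ hX1)
  -- the number of guess leaves
  obtain ⟨u, hu⟩ : ∃ u, u = 2 * N.guessWires + 6 * N.excess + 5 := ⟨_, rfl⟩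
  have huR : (u : ℝ) ≤ 11 * (P ^ 2 * X ^ 4) := by
    have h1 : u ≤ 6 * (N.guessWires + N.excess) + 5 := by omega
    have h2 : (u : ℝ) ≤ 6 * ((N.guessWires + N.excess : ℕ) : ℝ) + 5 := by exact_mod_cast h1
    linarith
  obtain ⟨U, hU⟩ := exists_hard_gen (W := Tm a ⊕ Fin (u + 1)) (T := Tm a) prj L
    (count_ok hX hP haX ha2 huR hL1)
  obtain ⟨s, u', hs, hu', f, hf, hp⟩ := fn_of_net ha0 hw0 hsize N hN hham U
  obtain rfl : u' = u := hu'.trans hu.symm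
  have hsR := s_bound hX hP hk1 hnP haX hw1 hs hno
  have hH0 : (0 : ℝ) ≤ (32 * (k : ℝ) * 2 ^ κ * q) ^ r := by positivity
  have hB : (Fintype.card (Tm a) : ℝ) * (1 - q) ^ w +
      (6 * s / l + 5 * u' + 1) * (5 * (32 * k * 2 ^ κ * q) ^ r) < 1 := by
    have hcT : Fintype.card (Tm a) = 2 * a := by
      rw [Fintype.card_prod, Fintype.card_bool, Fintype.card_fin]
    rw [hcT]
    push_cast
    exact fail_bound hX hP hk1 hnP hsR huR hl1 hG hH hH0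
  have hmain := andreevM (r := r) hk1 hl1 h4096 hq0 hq1 hD hU hp hf hB
  rw [← hCn] at hmain
  have hmR : (L : ℝ) * l < (6 * s + 5 * l * u' + l) * Cn := by exact_mod_cast hmain
  have hC1 : (1 : ℝ) ≤ Cn := by
    have : 1 ≤ Cn := by rw [hCn]; exact Nat.one_le_two_pow
    exact_mod_cast this
  exact contra hX hXC hC1 hP hk1 hsR huR hl1 hl hL2 hmR

/-- The lower bound with integral exponents. -/
theorem fin_net (p : ℕ) : ∀ᶠ X : ℝ in atTop, ∀ (n k : ℕ)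
    (N : Net {p : Fin n × Fin n // p.1 < p.2}), (n : ℝ) = X ^ (p + 10) → 1 ≤ k →
    (k : ℝ) ≤ X ^ (p + 5) → (∀ j, Junta k (N.fn j)) →
    (∀ x, N.Accepts x ↔ Ham.HamP n x) →
    ((N.guessWires + N.excess : ℕ) : ℝ) ≤ X ^ (2 * p + 14) →
    X ^ (5 * p + 35) / (k : ℝ) ^ 3 ≤ N.inpWires := by
  obtain ⟨r, hr⟩ : ∃ r, r = 8 * (p + 10) := ⟨_, rfl⟩
  obtain ⟨Cn, hCn⟩ : ∃ Cn : ℕ, Cn = 2 ^ (r * 4 ^ r + 2) := ⟨_, rfl⟩
  filter_upwards [eventually_ge_atTop 40000, eventually_ge_atTop (224 * (Cn : ℝ)),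
    log_bound p] with X hX hXC hlog n k N hn hk1 hk hN hham hE
  have hX1 : (1 : ℝ) ≤ X := by linarith
  obtain ⟨P, hPdef⟩ : ∃ P, P = X ^ (p + 5) := ⟨_, rfl⟩
  have hP : 1 ≤ P := by rw [hPdef]; exact one_le_pow₀ hX1
  have e0 : p + 5 + 5 = p + 10 := by ring
  have e1 : (p + 5) * 2 + 4 = 2 * p + 14 := by ring
  have e2 : (p + 5) * 5 + 10 = 5 * p + 35 := by ring
  have e3 : p + 5 + 4 = p + 9 := by ring
  have h0 : P * X ^ 5 = X ^ (p + 10) := by rw [hPdef, ← pow_add, e0]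
  have h1 : P ^ 2 * X ^ 4 = X ^ (2 * p + 14) := by rw [hPdef, ← pow_mul, ← pow_add, e1]
  have h2 : P ^ 5 * X ^ 10 = X ^ (5 * p + 35) := by rw [hPdef, ← pow_mul, ← pow_add, e2]
  have h3 : P * X ^ 4 = X ^ (p + 9) := by rw [hPdef, ← pow_add, e3]
  rw [← h2]
  refine fin_net' hCn hX hXC hP (hn.trans h0.symm) ?_ ?_ hk1 (by rw [hPdef]; exact hk) N hN hham
    (by rw [h1]; exact hE)
  · rw [hn, hr, ← pow_mul, mul_comm]
  · intro a ha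
    rw [h3] at ha
    exact hlog a ha

end Pool.Agent.V7H70.Fml
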